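import Pool.Agent.helper50.CQGDefs

/-!
General facts on finite-dimensional unitary representations: direct sums, tensor products,
complete reducibility.  Consequence: the closed span of the irreducible characters is closed under
multiplication and contains every character.
-/

set_option autoImplicit false

namespace Pool.Agent.CQG

open Matrix

namespace CMQG

variable {N : ℕ} (G : CMQG N)

theorem u_mul_star : G.u * star G.u = 1 := G.unitary_u.1

theorem star_mul_u : star G.u * G.u = 1 := G.unitary_u.2

theorem Δ_u (i j : Fin N) : G.Δ (G.u i j) = ∑ k, G.T.ι₁ (G.u i k) * G.T.ι₂ (G.u k j) :=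
  G.comatrix_u i j

variable {G} in
theorem IsUnitaryRep.mul_star {n : ℕ} {v : Matrix (Fin n) (Fin n) G.A} (h : G.IsUnitaryRep v) :
    v * star v = 1 := h.1.1

variable {G} in
theorem IsUnitaryRep.star_mul {n : ℕ} {v : Matrix (Fin n) (Fin n) G.A} (h : G.IsUnitaryRep v) :
    star v * v = 1 := h.1.2

variable {G} in
theorem IsUnitaryRep.comul {n : ℕ} {v : Matrix (Fin n) (Fin n) G.A} (h : G.IsUnitaryRep v)
    (i j : Fin n) : G.Δ (v i j) = ∑ k, G.T.ι₁ (v i k) * G.T.ι₂ (v k j) := h.2 i j

theorem T_comm (a b : G.A) : Commute (G.T.ι₁ a) (G.T.ι₂ b) := G.T.comm a b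

/-- unitary representations with arbitrary finite index type -/
structure IsURep {n : Type} [Fintype n] [DecidableEq n] (v : Matrix n n G.A) : Prop where
  mul_star : v * star v = 1
  star_mul : star v * v = 1
  comul : v.map G.Δ = v.map G.T.ι₁ * v.map G.T.ι₂

theorem IsURep.toUnitaryRep {n : ℕ} {v : Matrix (Fin n) (Fin n) G.A} (h : G.IsURep v) :
    G.IsUnitaryRep v := by
  refine ⟨⟨h.mul_star, h.star_mul⟩, fun i j => ?_⟩
  have := congr_fun (congr_fun h.comul i) j
  rw [Matrix.map_apply, Matrix.mul_apply] at this
  exact this

theorem isURep_u : G.IsURep G.u := by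
  refine ⟨G.u_mul_star, G.star_mul_u, ?_⟩
  ext i j
  rw [Matrix.map_apply, Matrix.mul_apply, G.Δ_u]
  rfl

variable {G}

theorem IsURep.reindex {n m : Type} [Fintype n] [DecidableEq n] [Fintype m] [DecidableEq m]
    {v : Matrix n n G.A} (h : G.IsURep v) (e : n ≃ m) : G.IsURep (Matrix.reindex e e v) := by
  constructor
  · rw [Matrix.star_eq_conjTranspose, Matrix.conjTranspose_reindex, Matrix.reindex_apply,
      Matrix.reindex_apply, Matrix.submatrix_mul_equiv, ← Matrix.star_eq_conjTranspose, h.mul_star,
      Matrix.submatrix_one_equiv]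
  · rw [Matrix.star_eq_conjTranspose, Matrix.conjTranspose_reindex, Matrix.reindex_apply,
      Matrix.reindex_apply, Matrix.submatrix_mul_equiv, ← Matrix.star_eq_conjTranspose, h.star_mul,
      Matrix.submatrix_one_equiv]
  · have : (v.map G.Δ).submatrix e.symm e.symm =
        (v.map G.T.ι₁ * v.map G.T.ι₂).submatrix e.symm e.symm := by rw [h.comul]
    rw [Matrix.reindex_apply, ← Matrix.submatrix_map, this, ← Matrix.submatrix_map,
      ← Matrix.submatrix_map, Matrix.submatrix_mul_equiv]

theorem trace_reindex {n m : Type} [Fintype n] [Fintype m] {R : Type} [AddCommMonoid R]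
    (v : Matrix n n R) (e : n ≃ m) : (Matrix.reindex e e v).trace = v.trace := by
  rw [Matrix.trace, Matrix.trace]
  exact Equiv.sum_comp e.symm (fun i => v i i)

/-- scalar matrices with entries in ℂ seen in `A` -/
noncomputable abbrev cm {n : Type} [Fintype n] [DecidableEq n] (A : Type) [CStarAlgebra A]
    (M : Matrix n n ℂ) : Matrix n n A := M.map (algebraMap ℂ A)

section cm

variable {n : Type} [Fintype n] [DecidableEq n] (A : Type) [CStarAlgebra A]

theorem cm_apply (M : Matrix n n ℂ) (i j : n) : cm A M i j = algebraMap ℂ A (M i j) := rfl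

theorem cm_mul (M M' : Matrix n n ℂ) : cm A (M * M') = cm A M * cm A M' :=
  Matrix.map_mul

theorem cm_one : cm A (1 : Matrix n n ℂ) = 1 := by
  rw [cm, Matrix.map_one _ (map_zero _) (map_one _)]

theorem cm_star (M : Matrix n n ℂ) : star (cm A M) = cm A (star M) := by
  ext i j
  rw [Matrix.star_apply, cm_apply, cm_apply, Matrix.star_apply]
  exact (algebraMap_star_comm (M j i)).symm

theorem cm_map {B : Type} [CStarAlgebra B] (φ : A →⋆ₐ[ℂ] B) (M : Matrix n n ℂ) :
    (cm A M).map φ = cm B M := by
  ext i j
  simp only [cm, Matrix.map_apply]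
  exact AlgHomClass.commutes φ (M i j)

theorem map_mul' {B : Type} [CStarAlgebra B] (φ : A →⋆ₐ[ℂ] B) (v w : Matrix n n A) :
    (v * w).map φ = v.map φ * w.map φ := Matrix.map_mul

theorem map_star' {B : Type} [CStarAlgebra B] (φ : A →⋆ₐ[ℂ] B) (v : Matrix n n A) :
    (star v).map φ = star (v.map φ) := by
  ext i j
  simp [Matrix.star_apply, map_star]

end cm

theorem IsURep.conj {n : Type} [Fintype n] [DecidableEq n] {v : Matrix n n G.A}
    (h : G.IsURep v) {U : Matrix n n ℂ} (h1 : U * star U = 1) (h2 : star U * U = 1) :
    G.IsURep (cm G.A (star U) * v * cm G.A U) := by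
  have h1' : cm G.A U * cm G.A (star U) = 1 := by rw [← cm_mul, h1, cm_one]
  have h2' : cm G.A (star U) * cm G.A U = 1 := by rw [← cm_mul, h2, cm_one]
  constructor
  · rw [StarMul.star_mul, StarMul.star_mul, cm_star, cm_star, star_star]
    calc cm G.A (star U) * v * cm G.A U * (cm G.A (star U) * (star v * cm G.A U))
        = cm G.A (star U) * v * (cm G.A U * cm G.A (star U)) * (star v * cm G.A U) := by
          noncomm_ring
      _ = cm G.A (star U) * (v * star v) * cm G.A U := by rw [h1']; noncomm_ring
      _ = 1 := by rw [h.mul_star, mul_one, h2']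
  · rw [StarMul.star_mul, StarMul.star_mul, cm_star, cm_star, star_star]
    calc cm G.A (star U) * (star v * cm G.A U) * (cm G.A (star U) * v * cm G.A U)
        = cm G.A (star U) * star v * (cm G.A U * cm G.A (star U)) * (v * cm G.A U) := by
          noncomm_ring
      _ = cm G.A (star U) * (star v * v) * cm G.A U := by rw [h1']; noncomm_ring
      _ = 1 := by rw [h.star_mul, mul_one, h2']
  · rw [map_mul', map_mul', map_mul', map_mul', map_mul', map_mul', cm_map, cm_map, cm_map, cm_map,
      cm_map, cm_map, h.comul]
    have h1'' : cm G.T.B U * cm G.T.B (star U) = 1 := by rw [← cm_mul, h1, cm_one]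
    calc cm G.T.B (star U) * (v.map G.T.ι₁ * v.map G.T.ι₂) * cm G.T.B U
        = cm G.T.B (star U) * v.map G.T.ι₁ * 1 * (v.map G.T.ι₂ * cm G.T.B U) := by noncomm_ring
      _ = _ := by rw [← h1'']; noncomm_ring

theorem trace_conj {n : Type} [Fintype n] [DecidableEq n] {A : Type} [CStarAlgebra A]
    (v : Matrix n n A) {U : Matrix n n ℂ} (h1 : U * star U = 1) :
    (cm A (star U) * v * cm A U).trace = v.trace := by
  simp only [Matrix.trace, Matrix.diag_apply, Matrix.mul_apply, Finset.sum_mul]
  have h : ∀ k l : n, ∑ i : n, U l i * star (U k i) = if l = k then 1 else 0 := by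
    intro k l
    have := congr_fun (congr_fun h1 l) k
    rw [Matrix.mul_apply, Matrix.one_apply] at this
    simpa [Matrix.star_apply] using this
  calc ∑ i, ∑ l, ∑ k, cm A (star U) i k * v k l * cm A U l i
      = ∑ k, ∑ l, (∑ i, U l i * star (U k i)) • v k l := by
        rw [Finset.sum_comm]
        simp only [Finset.sum_smul]
        rw [Finset.sum_comm (s := Finset.univ) (t := Finset.univ) (f := fun k l =>
          ∑ i, (U l i * star (U k i)) • v k l)]
        refine Finset.sum_congr rfl fun l _ => ?_
        rw [Finset.sum_comm]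
        refine Finset.sum_congr rfl fun k _ => ?_
        refine Finset.sum_congr rfl fun i _ => ?_
        rw [cm, cm, Matrix.map_apply, Matrix.map_apply, Matrix.star_apply,
          ← Algebra.smul_def, ← Algebra.commutes, ← Algebra.smul_def, smul_smul]
    _ = ∑ k, v k k := by
        refine Finset.sum_congr rfl fun k _ => ?_
        simp only [h, ite_smul, one_smul, zero_smul, Finset.sum_ite_eq', Finset.mem_univ, if_true]

/-- restriction to an invariant block -/
theorem IsURep.block {n : Type} [Fintype n] [DecidableEq n] {v : Matrix n n G.A}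
    (h : G.IsURep v) (p : n → Prop) [DecidablePred p]
    (h1 : ∀ i j, p i → ¬ p j → v i j = 0) (h2 : ∀ i j, ¬ p i → p j → v i j = 0) :
    G.IsURep (v.submatrix (Subtype.val : {i // p i} → n) (Subtype.val : {i // p i} → n)) := by
  have key : ∀ (R : Type) [Ring R] (a b : Matrix n n R), (∀ i j, p i → ¬ p j → a i j = 0) →
      (a.submatrix (Subtype.val : {i // p i} → n) (Subtype.val : {i // p i} → n)) *
      (b.submatrix (Subtype.val : {i // p i} → n) (Subtype.val : {i // p i} → n)) =
      (a * b).submatrix (Subtype.val : {i // p i} → n) (Subtype.val : {i // p i} → n) := by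
    intro R _ a b ha
    ext ⟨i, hi⟩ ⟨j, hj⟩
    simp only [Matrix.mul_apply, Matrix.submatrix_apply]
    rw [← Fintype.sum_subtype_add_sum_subtype p (fun k => a i k * b k j)]
    have : ∑ k : {x // ¬ p x}, a i k * b k j = 0 := by
      apply Finset.sum_eq_zero
      intro k _
      rw [ha i k hi k.2, zero_mul]
    rw [this, add_zero]
  have hone : ((1 : Matrix n n G.A).submatrix (Subtype.val : {i // p i} → n)
      (Subtype.val : {i // p i} → n)) = 1 := Matrix.submatrix_one _ Subtype.val_injective
  constructor
  · have hs : star (v.submatrix (Subtype.val : {i // p i} → n) (Subtype.val : {i // p i} → n)) =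
        (star v).submatrix (Subtype.val : {i // p i} → n) (Subtype.val : {i // p i} → n) := rfl
    rw [hs, key _ v (star v) h1, h.mul_star, hone]
  · have hs : star (v.submatrix (Subtype.val : {i // p i} → n) (Subtype.val : {i // p i} → n)) =
        (star v).submatrix (Subtype.val : {i // p i} → n) (Subtype.val : {i // p i} → n) := rfl
    rw [hs, key _ (star v) v, h.star_mul, hone]
    intro i j hi hj
    rw [Matrix.star_apply, h2 j i hj hi, star_zero]
  · rw [← Matrix.submatrix_map, ← Matrix.submatrix_map, ← Matrix.submatrix_map, h.comul, key]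
    intro i j hi hj
    rw [Matrix.map_apply, h1 i j hi hj, map_zero]

/-- Every character is a linear combination of irreducible characters. -/
theorem IsURep.trace_mem {n : Type} [Fintype n] [DecidableEq n] {v : Matrix n n G.A}
    (h : G.IsURep v) : v.trace ∈ Submodule.span ℂ G.irrCharacters := by
  obtain ⟨d, hd⟩ : ∃ d, Fintype.card n = d := ⟨_, rfl⟩
  induction d using Nat.strong_induction_on generalizing n with
  | _ d ih =>
    by_cases hn : d = 0
    · have : IsEmpty n := Fintype.card_eq_zero_iff.1 (hd.trans hn)
      have : v.trace = 0 := by simp [Matrix.trace]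
      rw [this]
      exact Submodule.zero_mem _
    have hne : Nonempty n := Fintype.card_pos_iff.1 (by omega)
    by_cases hirr : ∀ M : Matrix n n ℂ, cm G.A M * v = v * cm G.A M → ∃ c : ℂ,
        M = Matrix.scalar n c
    · -- irreducible
      apply Submodule.subset_span
      let e : n ≃ Fin (Fintype.card n) := Fintype.equivFin n
      refine ⟨Fintype.card n, Matrix.reindex e e v, (h.reindex e).toUnitaryRep,
        ⟨Fintype.card_pos, ?_⟩, (trace_reindex v e).symm⟩
      intro M hM
      have hM' : cm G.A (Matrix.reindex e.symm e.symm M) * v =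
          v * cm G.A (Matrix.reindex e.symm e.symm M) := by
        have := congr_arg (fun Z => Matrix.submatrix Z e e) hM
        simp only [Matrix.reindex_apply] at this
        rw [← Matrix.submatrix_mul_equiv _ _ e e e, ← Matrix.submatrix_mul_equiv _ _ e e e] at this
        simp only [Matrix.submatrix_submatrix, Equiv.symm_comp_self, Matrix.submatrix_id_id] at this
        exact this
      obtain ⟨c, hc⟩ := hirr _ hM'
      refine ⟨c, ?_⟩
      have := congr_arg (fun Z => Matrix.submatrix Z e.symm e.symm) hc
      simp only [Matrix.reindex_apply, Matrix.submatrix_submatrix, Equiv.symm_symm,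
        Equiv.self_comp_symm, Matrix.submatrix_id_id] at this
      rw [this]
      ext i j
      simp [Matrix.scalar_apply, Matrix.diagonal_apply]
    · -- reducible
      push Not at hirr
      obtain ⟨M, hM, hMs⟩ := hirr
      -- the adjoint also commutes
      have hM2 : cm G.A (star M) * v = v * cm G.A (star M) := by
        have h1 := congr_arg star hM
        rw [StarMul.star_mul, StarMul.star_mul, cm_star] at h1
        calc cm G.A (star M) * v = (v * star v) * (cm G.A (star M) * v) := by
              rw [h.mul_star, one_mul]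
          _ = v * (star v * cm G.A (star M)) * v := by noncomm_ring
          _ = v * (cm G.A (star M) * star v) * v := by rw [h1]
          _ = v * cm G.A (star M) * (star v * v) := by noncomm_ring
          _ = v * cm G.A (star M) := by rw [h.star_mul, mul_one]
      -- a hermitian non scalar matrix
      obtain ⟨H, hH, hHv, hHs⟩ : ∃ H : Matrix n n ℂ, H.IsHermitian ∧
          cm G.A H * v = v * cm G.A H ∧ ∀ c : ℂ, H ≠ Matrix.scalar n c := by
        by_contra hcon
        push Not at hcon
        have hadd : ∀ a b : Matrix n n ℂ, cm G.A (a + b) = cm G.A a + cm G.A b := fun a b =>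
          Matrix.map_add _ (map_add _) a b
        have hsub : ∀ a b : Matrix n n ℂ, cm G.A (a - b) = cm G.A a - cm G.A b := fun a b =>
          Matrix.map_sub _ (map_sub _) a b
        have hsm : ∀ (r : ℂ) (a : Matrix n n ℂ), cm G.A (r • a) = r • cm G.A a := by
          intro r a
          ext i j
          rw [cm_apply, Matrix.smul_apply, Matrix.smul_apply, cm_apply,
            smul_eq_mul, map_mul, Algebra.smul_def]
        obtain ⟨c1, hc1⟩ := hcon (M + star M) (by
            rw [Matrix.IsHermitian, Matrix.conjTranspose_add, ← Matrix.star_eq_conjTranspose,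
              ← Matrix.star_eq_conjTranspose, star_star, add_comm])
          (by rw [hadd, add_mul, mul_add, hM, hM2])
        obtain ⟨c2, hc2⟩ := hcon (Complex.I • (M - star M)) (by
            rw [Matrix.IsHermitian, Matrix.conjTranspose_smul, Matrix.conjTranspose_sub,
              ← Matrix.star_eq_conjTranspose, ← Matrix.star_eq_conjTranspose, star_star]
            simp only [Complex.star_def, Complex.conj_I, neg_smul, ← smul_neg, neg_sub])
          (by rw [hsm, hsub, Matrix.smul_mul, Matrix.mul_smul, sub_mul, mul_sub, hM, hM2])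
        apply hMs ((1 / 2 : ℂ) * (c1 - Complex.I * c2))
        have : M = (1 / 2 : ℂ) • ((M + star M) - Complex.I • (Complex.I • (M - star M))) := by
          rw [smul_smul, Complex.I_mul_I, neg_smul, one_smul, sub_neg_eq_add]
          have : M + star M + (M - star M) = (2 : ℂ) • M := by rw [two_smul]; abel
          rw [this, smul_smul]; norm_num
        rw [this, hc1, hc2]
        ext i j
        simp [Matrix.scalar_apply, Matrix.diagonal_apply]
        split_ifs <;> ring
      -- diagonalise
      obtain ⟨U, lam, hU1, hU2, hspec⟩ : ∃ (U : Matrix n n ℂ) (lam : n → ℝ), U * star U = 1 ∧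
          star U * U = 1 ∧ H = U * Matrix.diagonal (fun i => (lam i : ℂ)) * star U := by
        refine ⟨(hH.eigenvectorUnitary : Matrix n n ℂ), hH.eigenvalues,
          Unitary.mul_star_self_of_mem hH.eigenvectorUnitary.2,
          Unitary.star_mul_self_of_mem hH.eigenvectorUnitary.2, ?_⟩
        have := hH.spectral_theorem
        simpa [Unitary.conjStarAlgAut_apply, Function.comp_def] using this
      set D : Matrix n n ℂ := Matrix.diagonal (fun i => (lam i : ℂ)) with hD
      have hspec2 : star U * H * U = D := by
        rw [hspec]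
        calc star U * (U * D * star U) * U = (star U * U) * D * (star U * U) := by noncomm_ring
          _ = D := by rw [hU2, one_mul, mul_one]
      set v' := cm G.A (star U) * v * cm G.A U with hv'
      have hv'rep : G.IsURep v' := h.conj hU1 hU2
      have hcomm : cm G.A D * v' = v' * cm G.A D := by
        have e1 : cm G.A U * cm G.A (star U) = 1 := by rw [← cm_mul, hU1, cm_one]
        rw [← hspec2, cm_mul, cm_mul, hv']
        calc cm G.A (star U) * cm G.A H * cm G.A U * (cm G.A (star U) * v * cm G.A U)
            = cm G.A (star U) * cm G.A H * (cm G.A U * cm G.A (star U)) * v * cm G.A U := by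
              noncomm_ring
          _ = cm G.A (star U) * (cm G.A H * v) * cm G.A U := by rw [e1]; noncomm_ring
          _ = cm G.A (star U) * (v * 1 * cm G.A H) * cm G.A U := by rw [hHv, mul_one]
          _ = _ := by rw [← e1]; noncomm_ring
      have hzero : ∀ i j, lam i ≠ lam j → v' i j = 0 := by
        intro i j hij
        have h1 := congr_fun (congr_fun hcomm i) j
        have h2 : (cm G.A D * v') i j = (lam i : ℂ) • v' i j := by
          rw [Matrix.mul_apply, Finset.sum_eq_single i]
          · simp [cm, hD, Algebra.smul_def]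
          · intro k _ hk
            simp [cm, hD, Matrix.diagonal_apply_ne' _ hk]
          · intro hh; exact absurd (Finset.mem_univ _) hh
        have h3 : (v' * cm G.A D) i j = (lam j : ℂ) • v' i j := by
          rw [Matrix.mul_apply, Finset.sum_eq_single j]
          · simp [cm, hD, Algebra.smul_def, Algebra.commutes]
          · intro k _ hk
            simp [cm, hD, Matrix.diagonal_apply_ne _ hk]
          · intro hh; exact absurd (Finset.mem_univ _) hh
        rw [h2, h3] at h1
        have h4 : ((lam i : ℂ) - (lam j : ℂ)) • v' i j = 0 := by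
          rw [sub_smul, h1, sub_self]
        rcases smul_eq_zero.1 h4 with h5 | h5
        · exact absurd (by exact_mod_cast sub_eq_zero.1 h5) hij
        · exact h5
      -- not all eigenvalues are equal
      obtain ⟨i₀⟩ := hne
      obtain ⟨i₁, hi₁⟩ : ∃ i₁, lam i₁ ≠ lam i₀ := by
        by_contra hcon
        push Not at hcon
        apply hHs (lam i₀ : ℂ)
        rw [hspec]
        have : D = Matrix.scalar n (lam i₀ : ℂ) := by
          rw [hD, Matrix.scalar_apply]
          congr 1
          funext i
          rw [hcon i]
        rw [this, ← (Matrix.scalar_commute (lam i₀ : ℂ) (fun r => Commute.all _ _) U).eq,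
          Matrix.mul_assoc, hU1, Matrix.mul_one]
      set p : n → Prop := fun i => lam i = lam i₀ with hp
      have hb1 := hv'rep.block p (fun i j hi hj => hzero i j (fun hij => hj (hij.symm.trans hi)))
        (fun i j hi hj => hzero i j (fun hij => hi (hij.trans hj)))
      have hb2 := hv'rep.block (fun i => ¬ p i)
        (fun i j hi hj => hzero i j (fun hij => hi (hij.trans (not_not.1 hj))))
        (fun i j hi hj => hzero i j (fun hij => hj (hij.symm.trans (not_not.1 hi))))
      have hc1 : Fintype.card {i // p i} < d := by
        rw [← hd]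
        exact Fintype.card_subtype_lt (x := i₁) hi₁
      have hc2 : Fintype.card {i // ¬ p i} < d := by
        rw [← hd]
        exact Fintype.card_subtype_lt (x := i₀) (by simp [hp])
      have ht1 := ih _ hc1 hb1 rfl
      have ht2 := ih _ hc2 hb2 rfl
      have htr : v.trace = (v'.submatrix (Subtype.val : {i // p i} → n)
          (Subtype.val : {i // p i} → n)).trace +
          (v'.submatrix (Subtype.val : {i // ¬ p i} → n) (Subtype.val : {i // ¬ p i} → n)).trace := by
        rw [← trace_conj v hU1, ← hv']
        simp only [Matrix.trace, Matrix.diag_apply, Matrix.submatrix_apply]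
        exact (Fintype.sum_subtype_add_sum_subtype p (fun i => v' i i)).symm
      rw [htr]
      exact Submodule.add_mem _ ht1 ht2

/-- tensor product of matrices over a noncommutative algebra -/
def tens {n m : Type} {R : Type} [Mul R] (v : Matrix n n R) (w : Matrix m m R) :
    Matrix (n × m) (n × m) R := fun i j => v i.1 j.1 * w i.2 j.2

theorem IsURep.tens {n m : Type} [Fintype n] [DecidableEq n] [Fintype m] [DecidableEq m]
    {v : Matrix n n G.A} {w : Matrix m m G.A} (hv : G.IsURep v) (hw : G.IsURep w) :
    G.IsURep (tens v w) := by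
  have hv1 : ∀ i j, ∑ k, v i k * star (v j k) = if i = j then 1 else 0 := by
    intro i j
    have := congr_fun (congr_fun hv.mul_star i) j
    rw [Matrix.mul_apply, Matrix.one_apply] at this
    exact this
  have hw1 : ∀ i j, ∑ k, w i k * star (w j k) = if i = j then 1 else 0 := by
    intro i j
    have := congr_fun (congr_fun hw.mul_star i) j
    rw [Matrix.mul_apply, Matrix.one_apply] at this
    exact this
  have hv2 : ∀ i j, ∑ k, star (v k i) * v k j = if i = j then 1 else 0 := by
    intro i j
    have := congr_fun (congr_fun hv.star_mul i) j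
    rw [Matrix.mul_apply, Matrix.one_apply] at this
    exact this
  have hw2 : ∀ i j, ∑ k, star (w k i) * w k j = if i = j then 1 else 0 := by
    intro i j
    have := congr_fun (congr_fun hw.star_mul i) j
    rw [Matrix.mul_apply, Matrix.one_apply] at this
    exact this
  constructor
  · ext ⟨i, a⟩ ⟨j, b⟩
    rw [Matrix.mul_apply, Fintype.sum_prod_type]
    have h1 : ∀ k, ∑ c, CMQG.tens v w (i, a) (k, c) * star (CMQG.tens v w) (k, c) (j, b) =
        if a = b then v i k * star (v j k) else 0 := by
      intro k
      have h2 : ∀ c, CMQG.tens v w (i, a) (k, c) * star (CMQG.tens v w) (k, c) (j, b) =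
          v i k * (w a c * star (w b c)) * star (v j k) := by
        intro c
        rw [Matrix.star_apply, CMQG.tens, CMQG.tens, StarMul.star_mul]
        noncomm_ring
      simp only [h2]
      rw [← Finset.sum_mul, ← Finset.mul_sum, hw1]
      split_ifs <;> simp
    simp only [h1]
    by_cases hab : a = b
    · subst hab
      simp only [if_true]
      rw [hv1, Matrix.one_apply]
      simp
    · simp [hab, Matrix.one_apply]
  · ext ⟨i, a⟩ ⟨j, b⟩
    rw [Matrix.mul_apply, Fintype.sum_prod_type, Finset.sum_comm]
    have h1 : ∀ c, ∑ k, star (CMQG.tens v w) (i, a) (k, c) * CMQG.tens v w (k, c) (j, b) =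
        if i = j then star (w c a) * w c b else 0 := by
      intro c
      have h2 : ∀ k, star (CMQG.tens v w) (i, a) (k, c) * CMQG.tens v w (k, c) (j, b) =
          star (w c a) * (star (v k i) * v k j) * w c b := by
        intro k
        rw [Matrix.star_apply, CMQG.tens, CMQG.tens, StarMul.star_mul]
        noncomm_ring
      simp only [h2]
      rw [← Finset.sum_mul, ← Finset.mul_sum, hv2]
      split_ifs <;> simp
    simp only [h1]
    by_cases hij : i = j
    · subst hij
      simp only [if_true]
      rw [hw2, Matrix.one_apply]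
      simp
    · simp [hij, Matrix.one_apply]
  · have hv3 : ∀ i j, G.Δ (v i j) = ∑ k, G.T.ι₁ (v i k) * G.T.ι₂ (v k j) := by
      intro i j
      have := congr_fun (congr_fun hv.comul i) j
      rw [Matrix.map_apply, Matrix.mul_apply] at this
      exact this
    have hw3 : ∀ i j, G.Δ (w i j) = ∑ k, G.T.ι₁ (w i k) * G.T.ι₂ (w k j) := by
      intro i j
      have := congr_fun (congr_fun hw.comul i) j
      rw [Matrix.map_apply, Matrix.mul_apply] at this
      exact this
    ext ⟨i, a⟩ ⟨j, b⟩
    rw [Matrix.map_apply, Matrix.mul_apply, Fintype.sum_prod_type, CMQG.tens, map_mul, hv3, hw3,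
      Finset.sum_mul_sum]
    refine Finset.sum_congr rfl fun k _ => ?_
    refine Finset.sum_congr rfl fun c _ => ?_
    rw [Matrix.map_apply, Matrix.map_apply, CMQG.tens, CMQG.tens, map_mul, map_mul]
    have := (G.T_comm (w a c) (v k j)).eq
    calc G.T.ι₁ (v i k) * G.T.ι₂ (v k j) * (G.T.ι₁ (w a c) * G.T.ι₂ (w c b))
        = G.T.ι₁ (v i k) * (G.T.ι₂ (v k j) * G.T.ι₁ (w a c)) * G.T.ι₂ (w c b) := by
          noncomm_ring
      _ = G.T.ι₁ (v i k) * (G.T.ι₁ (w a c) * G.T.ι₂ (v k j)) * G.T.ι₂ (w c b) := by rw [this]
      _ = _ := by noncomm_ring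

theorem trace_tens {n m : Type} [Fintype n] [Fintype m] {R : Type} [Ring R]
    (v : Matrix n n R) (w : Matrix m m R) : (tens v w).trace = v.trace * w.trace := by
  simp only [Matrix.trace, Matrix.diag_apply, tens]
  rw [Fintype.sum_prod_type, Finset.sum_mul_sum]

theorem mul_mem_span {a b : G.A} (ha : a ∈ Submodule.span ℂ G.irrCharacters)
    (hb : b ∈ Submodule.span ℂ G.irrCharacters) : a * b ∈ Submodule.span ℂ G.irrCharacters := by
  have toU : ∀ {n : ℕ} {v : Matrix (Fin n) (Fin n) G.A}, G.IsUnitaryRep v → G.IsURep v := by
    intro n v hv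
    refine ⟨hv.mul_star, hv.star_mul, ?_⟩
    ext i j
    rw [Matrix.map_apply, Matrix.mul_apply, hv.comul]
    rfl
  induction ha using Submodule.span_induction with
  | mem x hx =>
    obtain ⟨n, v, hv, -, rfl⟩ := hx
    induction hb using Submodule.span_induction with
    | mem y hy =>
      obtain ⟨m, w, hw, -, rfl⟩ := hy
      rw [← trace_tens]
      exact ((toU hv).tens (toU hw)).trace_mem
    | zero => rw [mul_zero]; exact Submodule.zero_mem _
    | add x y _ _ hx hy => rw [mul_add]; exact Submodule.add_mem _ hx hy
    | smul r x _ hx => rw [mul_smul_comm]; exact Submodule.smul_mem _ _ hx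
  | zero => rw [zero_mul]; exact Submodule.zero_mem _
  | add x y _ _ hx hy => rw [add_mul]; exact Submodule.add_mem _ hx hy
  | smul r x _ hx => rw [smul_mul_assoc]; exact Submodule.smul_mem _ _ hx

theorem one_mem_span : (1 : G.A) ∈ Submodule.span ℂ G.irrCharacters := by
  have h : G.IsURep (1 : Matrix (Fin 1) (Fin 1) G.A) := by
    refine ⟨by simp, by simp, ?_⟩
    ext i j
    obtain rfl : i = j := Subsingleton.elim i j
    obtain rfl : i = 0 := Subsingleton.elim i 0
    rw [Matrix.map_apply, Matrix.mul_apply, Fin.sum_univ_one, Matrix.map_apply, Matrix.map_apply,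
      Matrix.one_apply_eq, map_one, map_one, map_one, one_mul]
  have := h.trace_mem
  simpa using this

variable (G) in
/-- the algebra spanned by the characters -/
noncomputable def charAlg : Subalgebra ℂ G.A where
  carrier := Submodule.span ℂ G.irrCharacters
  mul_mem' := mul_mem_span
  one_mem' := one_mem_span
  add_mem' := fun ha hb => Submodule.add_mem _ ha hb
  zero_mem' := Submodule.zero_mem _
  algebraMap_mem' := fun r => by
    rw [Algebra.algebraMap_eq_smul_one]
    exact Submodule.smul_mem _ _ one_mem_span

theorem mem_charAlg {a : G.A} : a ∈ G.charAlg ↔ a ∈ Submodule.span ℂ G.irrCharacters := Iff.rfl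

theorem central_eq : G.central = closure (G.charAlg : Set G.A) := rfl

end CMQG

end Pool.Agent.CQG
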