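import Mathlib

/-!
Compact matrix quantum groups (Woronowicz, with the convention `S² = id`), their
finite-dimensional unitary representations, the central algebra, connectedness, and the spun
diagonal tori.
-/

set_option autoImplicit false

namespace Pool.Agent.CQG

open scoped TensorProduct

/-- Unital *-homomorphisms between unital C*-algebras. -/
abbrev SHom (A B : Type) [CStarAlgebra A] [CStarAlgebra B] : Type := A →⋆ₐ[ℂ] B

section defs

variable {A B : Type} [CStarAlgebra A] [CStarAlgebra B]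

/-- The value `φ(a)`. -/
def ap (φ : SHom A B) (a : A) : B := φ a

/-- The product `ι₁(a) ι₂(b)`, playing the role of `a ⊗ b`. -/
def tm (ι₁ ι₂ : SHom A B) (a b : A) : B := ap ι₁ a * ap ι₂ b

/-- The ranges of `ι₁` and `ι₂` commute. -/
def CommRanges (ι₁ ι₂ : SHom A B) : Prop := ∀ a b : A, Commute (ap ι₁ a) (ap ι₂ b)

/-- The *-homomorphism `A ⊗ A → B` (algebraic tensor product) with `a ⊗ b ↦ ι₁(a) ι₂(b)`,
as a linear map. -/
noncomputable def tmLin (ι₁ ι₂ : SHom A B) : A ⊗[ℂ] A →ₗ[ℂ] B :=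
  TensorProduct.lift (((LinearMap.mul ℂ B).comp (AlgHom.toLinearMap (ι₁ : A →ₐ[ℂ] B))).compl₂
    (AlgHom.toLinearMap (ι₂ : A →ₐ[ℂ] B)))

/-- The algebraic tensor product `A ⊗ A` embeds in `B`. -/
def Embeds (ι₁ ι₂ : SHom A B) : Prop := Function.Injective (tmLin ι₁ ι₂)

/-- The image of the algebraic tensor product `A ⊗ A` is dense in `B`. -/
def DenseImage (ι₁ ι₂ : SHom A B) : Prop := DenseRange (tmLin ι₁ ι₂)

/-- `θ` is the product functional `φ ⊗ ψ`. -/
def IsProd (ι₁ ι₂ : SHom A B) (θ : B →L[ℂ] ℂ) (φ ψ : A →L[ℂ] ℂ) : Prop :=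
  ∀ a a' : A, θ (tm ι₁ ι₂ a a') = φ a * ψ a'

/-- The continuous product functionals `φ ⊗ ψ` separate the points of `B`. -/
def ProdSep (ι₁ ι₂ : SHom A B) : Prop :=
  ∀ b : B, (∀ (θ : B →L[ℂ] ℂ) (φ ψ : A →L[ℂ] ℂ), IsProd ι₁ ι₂ θ φ ψ → θ b = 0) → b = 0

/-- `σ` is the flip `a ⊗ b ↦ b ⊗ a`. -/
def IsFlip (ι₁ ι₂ : SHom A B) (σ : SHom B B) : Prop :=
  ∀ a : A, ap σ (ap ι₁ a) = ap ι₂ a ∧ ap σ (ap ι₂ a) = ap ι₁ a

end defs

/-- The minimal C*-tensor square of a unital C*-algebra `A`.  It is a unital C*-algebra `B` with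
two commuting unital *-homomorphisms `ι₁, ι₂ : A → B` (playing the roles of `a ↦ a ⊗ 1` and
`a ↦ 1 ⊗ a`) such that the algebraic tensor product `A ⊗ A` embeds in `B` with dense image
(so `B` is a C*-completion of the algebraic tensor product), and such that the continuous product
functionals separate the points of `B` (which singles out the minimal, or spatial, completion).
The flip automorphism is part of the data. -/
structure TensorSquare (A : Type) [CStarAlgebra A] where
  B : Type
  [cstarB : CStarAlgebra B]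
  ι₁ : SHom A B
  ι₂ : SHom A B
  comm : CommRanges ι₁ ι₂
  embeds : Embeds ι₁ ι₂
  denseImage : DenseImage ι₁ ι₂
  prodSep : ProdSep ι₁ ι₂
  flip : SHom B B
  isFlip : IsFlip ι₁ ι₂ flip

attribute [instance] TensorSquare.cstarB

section defs2

variable {A : Type} [CStarAlgebra A] {n : ℕ}

/-- `v` is a unitary matrix over `A`. -/
def IsUnitaryMat (v : Matrix (Fin n) (Fin n) A) : Prop := v * star v = 1 ∧ star v * v = 1

/-- `Δ(v i j) = ∑ k, v i k ⊗ v k j` -/
def IsComatrix (T : TensorSquare A) (Δ : SHom A T.B) (v : Matrix (Fin n) (Fin n) A) : Prop :=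
  ∀ i j, ap Δ (v i j) = ∑ k, tm T.ι₁ T.ι₂ (v i k) (v k j)

/-- The entries of `u` generate the C*-algebra `A`. -/
def Generates (u : Matrix (Fin n) (Fin n) A) : Prop :=
  Dense (StarAlgebra.adjoin ℂ {a : A | ∃ i j, a = u i j} : Set A)

/-- `S(u i j) = (u j i)*` -/
def IsAntipode (S : A →⋆ₐ[ℂ] Aᵐᵒᵖ) (u : Matrix (Fin n) (Fin n) A) : Prop :=
  ∀ i j, S (u i j) = MulOpposite.op (star (u j i))

/-- `ε(u i j) = δ i j` -/
def IsCounit (ε : SHom A ℂ) (u : Matrix (Fin n) (Fin n) A) : Prop :=
  ∀ i j, ap ε (u i j) = if i = j then 1 else 0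

/-- Unital *-subalgebras of `A`. -/
abbrev SubAlg (A : Type) [CStarAlgebra A] : Type := StarSubalgebra ℂ A

/-- The underlying set. -/
def pts (F : SubAlg A) : Set A := F

/-- `F` is finite-dimensional. -/
def IsFinDim (F : SubAlg A) : Prop := FiniteDimensional ℂ F

/-- `F` is the algebra of scalars. -/
def IsScalar (F : SubAlg A) : Prop := F = ⊥

end defs2

/-- A compact matrix quantum group: a unital C*-algebra `A = C(G)` with a unitary matrix `u` whose
entries generate `A`, such that `Δ(u i j) = ∑ k, u i k ⊗ u k j`, `ε(u i j) = δ i j`,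
`S(u i j) = (u j i)*` define a comultiplication `A → A ⊗ A`, a counit `A → ℂ` and an antipode
`A → Aᵒᵖ`. -/
structure CMQG (N : ℕ) where
  A : Type
  [cstarA : CStarAlgebra A]
  u : Matrix (Fin N) (Fin N) A
  T : TensorSquare A
  Δ : SHom A T.B
  ε : SHom A ℂ
  S : A →⋆ₐ[ℂ] Aᵐᵒᵖ
  unitary_u : IsUnitaryMat u
  generates : Generates u
  comatrix_u : IsComatrix T Δ u
  counit_u : IsCounit ε u
  antipode_u : IsAntipode S u

attribute [instance] CMQG.cstarA

namespace CMQG

variable {N : ℕ} (G : CMQG N)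

/-- `v` is a finite-dimensional unitary representation of `G`. -/
def IsUnitaryRep {n : ℕ} (v : Matrix (Fin n) (Fin n) G.A) : Prop :=
  IsUnitaryMat v ∧ IsComatrix G.T G.Δ v

/-- A complex matrix as a matrix over `C(G)`. -/
noncomputable def scal {n : ℕ} (M : Matrix (Fin n) (Fin n) ℂ) : Matrix (Fin n) (Fin n) G.A :=
  M.map (algebraMap ℂ G.A)

/-- A unitary representation is irreducible if it is nonzero and only the scalar matrices commute
with it. -/
def IsIrreducible {n : ℕ} (v : Matrix (Fin n) (Fin n) G.A) : Prop :=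
  0 < n ∧ ∀ M : Matrix (Fin n) (Fin n) ℂ, G.scal M * v = v * G.scal M →
    ∃ c : ℂ, M = Matrix.scalar (Fin n) c

/-- The characters of the irreducible finite-dimensional unitary representations of `G`. -/
def irrCharacters : Set G.A :=
  {χ | ∃ (n : ℕ) (v : Matrix (Fin n) (Fin n) G.A), G.IsUnitaryRep v ∧ G.IsIrreducible v ∧
    χ = v.trace}

/-- The central algebra `C(G)_central`: the norm closure of the linear span of the characters of
the irreducible finite-dimensional unitary representations. -/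
def central : Set G.A := closure (Submodule.span ℂ G.irrCharacters : Set G.A)

/-- The linear span of the `b ⊗ c` with `b, c ∈ F`. -/
def tensorSpan (F : Set G.A) : Set G.T.B :=
  Submodule.span ℂ {z : G.T.B | ∃ b ∈ F, ∃ c ∈ F, z = tm G.T.ι₁ G.T.ι₂ b c}

/-- `Δ(F) ⊆ F ⊗ F` -/
def IsSub (F : Set G.A) : Prop := ∀ a ∈ F, ap G.Δ a ∈ G.tensorSpan F

/-- `G` is connected if it has no nontrivial finite quantum group quotient, i.e. if the only
finite-dimensional unital *-subalgebra `C(F)` of `C(G)` with `Δ(C(F)) ⊆ C(F) ⊗ C(F)` is the algebra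
of scalars. -/
def IsConnected : Prop :=
  ∀ F : SubAlg G.A, IsFinDim F → G.IsSub (pts F) → IsScalar F

/-- The matrix `v = Q u Q*`. -/
noncomputable def spun (Q : Matrix (Fin N) (Fin N) ℂ) : Matrix (Fin N) (Fin N) G.A :=
  G.scal Q * G.u * G.scal (star Q)

/-- The two-sided ideal generated by the off-diagonal entries of `Q u Q*`. -/
noncomputable def torusIdeal (Q : Matrix (Fin N) (Fin N) ℂ) : TwoSidedIdeal G.A :=
  TwoSidedIdeal.span {a : G.A | ∃ i j, i ≠ j ∧ a = G.spun Q i j}

/-- The kernel of the quotient map `π_Q : C(G) → C*(Γ_Q)`: the closed two-sided ideal generated by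
the off-diagonal entries of `Q u Q*`. -/
noncomputable def torusKernel (Q : Matrix (Fin N) (Fin N) ℂ) : Set G.A :=
  closure (G.torusIdeal Q : Set G.A)

end CMQG

end Pool.Agent.CQG
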