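import Mathlib

/-!
Heisenberg (Pauli) matrices over `F₂²` and their tensor products.
-/

set_option autoImplicit false

namespace Pool.Agent.Heis

open Matrix
open scoped Kronecker

/-- `F₂²` -/
abbrev T2 : Type := ZMod 2 × ZMod 2

/-- `F₂⁴ = F₂² × F₂²` -/
abbrev Gam : Type := T2 × T2

/-- the standard bilinear form on `F₂²` -/
def dot (p q : T2) : ZMod 2 := p.1 * q.1 + p.2 * q.2

/-- the sign character of `F₂` -/
noncomputable def sg (a : ZMod 2) : ℂ := if a = 0 then 1 else -1

/-- the symplectic form on `F₂⁴` -/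
def om (κ η : Gam) : ZMod 2 := dot κ.2 η.1 + dot κ.1 η.2

theorem sg_zero : sg 0 = 1 := by simp [sg]

theorem sg_one : sg 1 = -1 := by simp [sg]

theorem zmod2_cases (a : ZMod 2) : a = 0 ∨ a = 1 := by
  revert a; decide

theorem sg_add (a b : ZMod 2) : sg (a + b) = sg a * sg b := by
  rcases zmod2_cases a with rfl | rfl <;> rcases zmod2_cases b with rfl | rfl
  · simp [sg_zero]
  · simp [sg_zero]
  · simp [sg_zero]
  · have : (1 + 1 : ZMod 2) = 0 := by decide
    rw [this, sg_zero, sg_one]; norm_num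

theorem sg_mul_self (a : ZMod 2) : sg a * sg a = 1 := by
  rcases zmod2_cases a with rfl | rfl
  · simp [sg_zero]
  · rw [sg_one]; norm_num

theorem star_sg (a : ZMod 2) : star (sg a) = sg a := by
  rcases zmod2_cases a with rfl | rfl
  · simp [sg_zero]
  · rw [sg_one]; simp

theorem sg_ne_zero (a : ZMod 2) : sg a ≠ 0 := by
  intro h
  have := sg_mul_self a
  rw [h] at this
  simp at this

theorem dot_comm (p q : T2) : dot p q = dot q p := by
  simp only [dot]; ring

theorem dot_add_left (p p' q : T2) : dot (p + p') q = dot p q + dot p' q := by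
  simp only [dot, Prod.fst_add, Prod.snd_add]; ring

theorem dot_add_right (p q q' : T2) : dot p (q + q') = dot p q + dot p q' := by
  simp only [dot, Prod.fst_add, Prod.snd_add]; ring

theorem dot_zero_left (q : T2) : dot 0 q = 0 := by simp [dot]

theorem dot_zero_right (q : T2) : dot q 0 = 0 := by simp [dot]

theorem om_comm (κ η : Gam) : om κ η = om η κ := by
  simp only [om]; rw [dot_comm κ.2, dot_comm κ.1]; ring

theorem om_add_left (κ κ' η : Gam) : om (κ + κ') η = om κ η + om κ' η := by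
  simp only [om, Prod.fst_add, Prod.snd_add, dot_add_left]; ring

theorem om_add_right (κ η η' : Gam) : om κ (η + η') = om κ η + om κ η' := by
  rw [om_comm, om_add_left, om_comm κ, om_comm κ]

theorem om_zero_left (η : Gam) : om 0 η = 0 := by simp [om, dot]

theorem om_zero_right (η : Gam) : om η 0 = 0 := by simp [om, dot]

theorem om_self (η : Gam) : om η η = 0 := by revert η; decide

theorem gam_add_self (κ : Gam) : κ + κ = 0 := by revert κ; decide

theorem t2_add_self (κ : T2) : κ + κ = 0 := by revert κ; decide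

/-- nondegeneracy -/
theorem exists_om_ne (κ : Gam) (h : κ ≠ 0) : ∃ η, om η κ = 1 := by
  revert κ; decide

theorem sum_sg_dot (v : T2) : ∑ q : T2, sg (dot q v) = if v = 0 then 4 else 0 := by
  have h : ∀ v : T2, (v = 0 ∧ ∀ q, dot q v = 0) ∨ (v ≠ 0 ∧ ∃ p, dot p v = 1) := by decide
  rcases h v with ⟨rfl, h1⟩ | ⟨h1, p, hp⟩
  · rw [if_pos rfl]
    simp only [h1, sg_zero, Finset.sum_const, Finset.card_univ, Fintype.card_prod, ZMod.card]
    norm_num
  · rw [if_neg h1]
    have h2 : ∑ q : T2, sg (dot q v) = ∑ q : T2, sg (dot (q + p) v) :=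
      (Equiv.sum_comp (Equiv.addRight p) (fun q => sg (dot q v))).symm
    have h3 : ∑ q : T2, sg (dot (q + p) v) = - ∑ q : T2, sg (dot q v) := by
      rw [← Finset.sum_neg_distrib]
      refine Finset.sum_congr rfl fun q _ => ?_
      rw [dot_add_left, sg_add, hp, sg_one]; ring
    rw [h3] at h2
    have h4 : (2 : ℂ) * ∑ q : T2, sg (dot q v) = 0 := by linear_combination h2
    simpa using h4

theorem sum_sg_om (κ : Gam) : ∑ η : Gam, sg (om η κ) = if κ = 0 then 16 else 0 := by
  by_cases h : κ = 0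
  · subst h
    simp only [om_zero_right, sg_zero, if_true, Finset.sum_const, Finset.card_univ,
      Fintype.card_prod, ZMod.card]
    norm_num
  · rw [if_neg h]
    obtain ⟨p, hp⟩ := exists_om_ne κ h
    have h2 : ∑ q : Gam, sg (om q κ) = ∑ q : Gam, sg (om (q + p) κ) :=
      (Equiv.sum_comp (Equiv.addRight p) (fun q => sg (om q κ))).symm
    have h3 : ∑ q : Gam, sg (om (q + p) κ) = - ∑ q : Gam, sg (om q κ) := by
      rw [← Finset.sum_neg_distrib]
      refine Finset.sum_congr rfl fun q _ => ?_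
      rw [om_add_left, sg_add, hp, sg_one]; ring
    rw [h3] at h2
    have h4 : (2 : ℂ) * ∑ q : Gam, sg (om q κ) = 0 := by linear_combination h2
    simpa using h4

/-- The Heisenberg matrices. -/
noncomputable def X (κ : Gam) : Matrix T2 T2 ℂ :=
  Matrix.of fun a b => if a = b + κ.1 then sg (dot κ.2 b) else 0

theorem X_apply (κ : Gam) (a b : T2) : X κ a b = if a = b + κ.1 then sg (dot κ.2 b) else 0 := rfl

theorem X_zero : X 0 = 1 := by
  ext a b
  rw [X_apply, Matrix.one_apply]
  simp [dot_zero_left, sg_zero]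

theorem X_mul (κ η : Gam) : X κ * X η = sg (dot κ.2 η.1) • X (κ + η) := by
  ext a c
  rw [Matrix.mul_apply, Matrix.smul_apply, X_apply, smul_eq_mul]
  have : ∀ b, X κ a b * X η b c = if b = c + η.1 then
      (if a = c + η.1 + κ.1 then sg (dot κ.2 (c + η.1)) * sg (dot η.2 c) else 0) else 0 := by
    intro b
    rw [X_apply, X_apply]
    by_cases hb : b = c + η.1
    · subst hb
      by_cases ha : a = c + η.1 + κ.1 <;> simp [ha]
    · simp [hb]
  simp only [this]
  rw [Finset.sum_ite_eq' Finset.univ (c + η.1)]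
  simp only [Finset.mem_univ, if_true, Prod.fst_add, Prod.snd_add]
  have h1 : c + η.1 + κ.1 = c + (κ.1 + η.1) := by abel
  rw [h1]
  by_cases ha : a = c + (κ.1 + η.1)
  · rw [if_pos ha, if_pos ha, dot_add_right, dot_add_left, sg_add, sg_add]; ring
  · rw [if_neg ha, if_neg ha, mul_zero]

theorem X_conjTranspose (κ : Gam) : (X κ)ᴴ = sg (dot κ.1 κ.2) • X κ := by
  ext a b
  rw [Matrix.conjTranspose_apply, Matrix.smul_apply, X_apply, X_apply, smul_eq_mul]
  by_cases h : b = a + κ.1
  · have h2 : a = b + κ.1 := by rw [h, add_assoc, t2_add_self, add_zero]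
    rw [if_pos h, if_pos h2, star_sg, h, dot_add_right, sg_add, dot_comm κ.1 κ.2]
    have := sg_mul_self (dot κ.2 κ.1)
    linear_combination (-(sg (dot κ.2 a))) * this
  · have h2 : ¬ a = b + κ.1 := by
      intro h2
      apply h
      rw [h2, add_assoc, t2_add_self, add_zero]
    rw [if_neg h, if_neg h2, star_zero, mul_zero]

theorem X_transpose (κ : Gam) : (X κ)ᵀ = sg (dot κ.1 κ.2) • X κ := by
  rw [← X_conjTranspose]
  ext a b
  rw [Matrix.conjTranspose_apply, Matrix.transpose_apply, X_apply]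
  by_cases h : b = a + κ.1
  · rw [if_pos h, star_sg]
  · rw [if_neg h, star_zero]

theorem X_mul_conjTranspose (κ : Gam) : X κ * (X κ)ᴴ = 1 := by
  rw [X_conjTranspose, Matrix.mul_smul, X_mul, gam_add_self, X_zero, smul_smul, dot_comm,
    sg_mul_self, one_smul]

theorem X_conjTranspose_mul (κ : Gam) : (X κ)ᴴ * X κ = 1 := by
  rw [X_conjTranspose, Matrix.smul_mul, X_mul, gam_add_self, X_zero, smul_smul, dot_comm,
    sg_mul_self, one_smul]

/-- commutation rule -/
theorem X_comm (κ η : Gam) : X κ * X η = sg (om κ η) • (X η * X κ) := by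
  rw [X_mul, X_mul, smul_smul, add_comm η κ]
  congr 1
  rw [om, sg_add, mul_assoc, dot_comm κ.1 η.2, sg_mul_self, mul_one]

theorem X_conj (κ η : Gam) : X η * X κ * (X η)ᴴ = sg (om η κ) • X κ := by
  rw [X_comm, Matrix.smul_mul, Matrix.mul_assoc, X_mul_conjTranspose, Matrix.mul_one]

theorem X_trace (κ : Gam) : (X κ).trace = if κ = 0 then 4 else 0 := by
  simp only [Matrix.trace, Matrix.diag_apply, X_apply]
  by_cases h1 : κ.1 = 0
  · have : ∀ a : T2, (if a = a + κ.1 then sg (dot κ.2 a) else 0) = sg (dot a κ.2) := by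
      intro a
      rw [h1, add_zero, if_pos rfl, dot_comm]
    simp only [this]
    rw [sum_sg_dot]
    by_cases h2 : κ.2 = 0
    · have : κ = 0 := Prod.ext h1 h2
      rw [if_pos h2, if_pos this]
    · have : κ ≠ 0 := fun h => h2 (by rw [h]; rfl)
      rw [if_neg h2, if_neg this]
  · have : ∀ a : T2, ¬ (a = a + κ.1) := by
      intro a h
      exact h1 (by simpa using h.symm)
    have h2 : κ ≠ 0 := fun h => h1 (by rw [h]; rfl)
    simp [this, h2]

/-- index set of the 16 by 16 matrices -/
abbrev I16 : Type := T2 × T2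

/-- The matrices `X κ ⊗ X κ'`. -/
noncomputable def W (κ κ' : Gam) : Matrix I16 I16 ℂ := X κ ⊗ₖ X κ'

theorem W_zero : W 0 0 = 1 := by rw [W, X_zero, Matrix.one_kronecker_one]

theorem W_mul (κ κ' η η' : Gam) : W κ κ' * W η η' =
    (sg (dot κ.2 η.1) * sg (dot κ'.2 η'.1)) • W (κ + η) (κ' + η') := by
  rw [W, W, ← Matrix.mul_kronecker_mul, X_mul, X_mul, Matrix.smul_kronecker,
    Matrix.kronecker_smul, smul_smul, W]

theorem W_conjTranspose (κ κ' : Gam) : (W κ κ')ᴴ =
    (sg (dot κ.1 κ.2) * sg (dot κ'.1 κ'.2)) • W κ κ' := by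
  rw [W, Matrix.conjTranspose_kronecker, X_conjTranspose, X_conjTranspose, Matrix.smul_kronecker,
    Matrix.kronecker_smul, smul_smul]

theorem W_transpose (κ κ' : Gam) : (W κ κ')ᵀ =
    (sg (dot κ.1 κ.2) * sg (dot κ'.1 κ'.2)) • W κ κ' := by
  rw [W, ← Matrix.kroneckerMap_transpose, X_transpose, X_transpose]
  change ((sg (dot κ.1 κ.2) • X κ) ⊗ₖ (sg (dot κ'.1 κ'.2) • X κ')) = _
  rw [Matrix.smul_kronecker,
    Matrix.kronecker_smul, smul_smul]

theorem W_mul_conjTranspose (κ κ' : Gam) : W κ κ' * (W κ κ')ᴴ = 1 := by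
  rw [W, Matrix.conjTranspose_kronecker, ← Matrix.mul_kronecker_mul, X_mul_conjTranspose,
    X_mul_conjTranspose, Matrix.one_kronecker_one]

theorem W_conjTranspose_mul (κ κ' : Gam) : (W κ κ')ᴴ * W κ κ' = 1 := by
  rw [W, Matrix.conjTranspose_kronecker, ← Matrix.mul_kronecker_mul, X_conjTranspose_mul,
    X_conjTranspose_mul, Matrix.one_kronecker_one]

theorem W_conj (κ κ' η η' : Gam) : W η η' * W κ κ' * (W η η')ᴴ =
    (sg (om η κ) * sg (om η' κ')) • W κ κ' := by
  rw [W, W, Matrix.conjTranspose_kronecker, ← Matrix.mul_kronecker_mul, ← Matrix.mul_kronecker_mul,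
    X_conj, X_conj, Matrix.smul_kronecker, Matrix.kronecker_smul, smul_smul]

theorem W_ne_zero (κ κ' : Gam) : W κ κ' ≠ 0 := by
  intro h
  have := W_mul_conjTranspose κ κ'
  rw [h, Matrix.zero_mul] at this
  have h2 := congr_fun (congr_fun this 0) 0
  simp at h2

theorem W_diag_mul (κ η : Gam) : W κ κ * W η η = W (κ + η) (κ + η) := by
  rw [W_mul, sg_mul_self, one_smul]

theorem W_diag_conjTranspose (κ : Gam) : (W κ κ)ᴴ = W κ κ := by
  rw [W_conjTranspose, sg_mul_self, one_smul]

theorem W_diag_transpose (κ : Gam) : (W κ κ)ᵀ = W κ κ := by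
  rw [W_transpose, sg_mul_self, one_smul]

/-- The rank one projections. -/
noncomputable def E (k : Gam) : Matrix I16 I16 ℂ := (1 / 16 : ℂ) • ∑ κ : Gam, sg (om k κ) • W κ κ

theorem W_mul_E (η k : Gam) : W η η * E k = sg (om k η) • E k := by
  have h : W η η * (∑ κ : Gam, sg (om k κ) • W κ κ) =
      sg (om k η) • ∑ κ : Gam, sg (om k κ) • W κ κ := by
    rw [Finset.mul_sum, Finset.smul_sum]
    refine Fintype.sum_equiv (Equiv.addLeft η) _ _ fun κ => ?_
    rw [Equiv.coe_addLeft, Matrix.mul_smul, W_diag_mul, smul_smul, om_add_right, sg_add,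
      ← mul_assoc, sg_mul_self, one_mul]
  rw [E, Matrix.mul_smul, h, smul_comm]

theorem E_conjTranspose (k : Gam) : (E k)ᴴ = E k := by
  rw [E, Matrix.conjTranspose_smul, Matrix.conjTranspose_sum]
  congr 1
  · simp
  · refine Finset.sum_congr rfl fun κ _ => ?_
    rw [Matrix.conjTranspose_smul, W_diag_conjTranspose, star_sg]

theorem E_transpose (k : Gam) : (E k)ᵀ = E k := by
  rw [E, Matrix.transpose_smul, Matrix.transpose_sum]
  congr 1
  refine Finset.sum_congr rfl fun κ _ => ?_
  rw [Matrix.transpose_smul, W_diag_transpose]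

theorem E_mul_W (η k : Gam) : E k * W η η = sg (om k η) • E k := by
  have h := congr_arg Matrix.conjTranspose (W_mul_E η k)
  rw [Matrix.conjTranspose_mul, E_conjTranspose, W_diag_conjTranspose,
    Matrix.conjTranspose_smul, star_sg, E_conjTranspose] at h
  exact h

theorem E_mul_E (k l : Gam) : E k * E l = if k = l then E l else 0 := by
  conv_lhs => rw [E]
  rw [Matrix.smul_mul, Finset.sum_mul]
  have h1 : ∀ κ : Gam, (sg (om k κ) • W κ κ) * E l = sg (om κ (k + l)) • E l := by
    intro κ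
    rw [Matrix.smul_mul, W_mul_E, smul_smul, ← sg_add, om_comm k κ, om_comm l κ, ← om_add_right]
  simp only [h1]
  rw [← Finset.sum_smul, sum_sg_om, smul_smul]
  by_cases hkl : k = l
  · subst hkl
    rw [gam_add_self, if_pos rfl, if_pos rfl]
    norm_num
  · have : k + l ≠ 0 := by
      intro h
      apply hkl
      calc k = k + (l + l) := by rw [gam_add_self, add_zero]
        _ = l := by rw [← add_assoc, h, zero_add]
    rw [if_neg this, if_neg hkl, mul_zero, zero_smul]

theorem sum_sg_E (η : Gam) : ∑ k : Gam, sg (om k η) • E k = W η η := by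
  have h1 : ∀ k : Gam, sg (om k η) • E k =
      (1 / 16 : ℂ) • ∑ κ : Gam, (sg (om k (η + κ))) • W κ κ := by
    intro k
    rw [E, smul_comm, Finset.smul_sum]
    congr 1
    refine Finset.sum_congr rfl fun κ _ => ?_
    rw [smul_smul, ← sg_add, ← om_add_right]
  simp only [h1]
  rw [← Finset.smul_sum, Finset.sum_comm]
  have h2 : ∀ κ : Gam, ∑ k : Gam, sg (om k (η + κ)) • W κ κ =
      (if η + κ = 0 then (16 : ℂ) else 0) • W κ κ := by
    intro κ
    rw [← Finset.sum_smul, sum_sg_om]
  simp only [h2]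
  rw [Finset.sum_eq_single η]
  · rw [gam_add_self, if_pos rfl, smul_smul]; norm_num
  · intro κ _ hκ
    have : η + κ ≠ 0 := by
      intro h
      apply hκ
      calc κ = (η + η) + κ := by rw [gam_add_self, zero_add]
        _ = η := by rw [add_assoc, h, add_zero]
    rw [if_neg this, zero_smul]
  · intro h; exact absurd (Finset.mem_univ _) h

theorem sum_E : ∑ k : Gam, E k = 1 := by
  have := sum_sg_E 0
  simpa [om_zero_right, sg_zero, W_zero] using this

theorem W_trace (κ κ' : Gam) : (W κ κ').trace = (if κ = 0 then 4 else 0) *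
    (if κ' = 0 then 4 else 0) := by
  rw [W, Matrix.trace_kronecker, X_trace, X_trace]

theorem E_trace (k : Gam) : (E k).trace = 1 := by
  rw [E, Matrix.trace_smul, Matrix.trace_sum, Finset.sum_eq_single 0]
  · rw [om_zero_right, sg_zero, one_smul, W_trace, if_pos rfl]; norm_num
  · intro κ _ h
    rw [Matrix.trace_smul, W_trace, if_neg h]; simp
  · intro h; exact absurd (Finset.mem_univ _) h

theorem E_ne_zero (k : Gam) : E k ≠ 0 := by
  intro h
  have := E_trace k
  rw [h] at this
  simp at this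

/-- Twirling over the 4 by 4 Heisenberg matrices. -/
theorem X_twirl (M : Matrix T2 T2 ℂ) (a b : T2) :
    ∑ η : Gam, (X η * M * (X η)ᴴ) a b = if a = b then 4 * M.trace else 0 := by
  have h1 : ∀ η : Gam, (X η * M * (X η)ᴴ) a b =
      sg (dot η.2 (a + b)) * M (a + η.1) (b + η.1) := by
    intro η
    rw [Matrix.mul_apply]
    have h2 : ∀ c, (X η * M) a c = sg (dot η.2 (a + η.1)) * M (a + η.1) c := by
      intro c
      rw [Matrix.mul_apply, Finset.sum_eq_single (a + η.1)]
      · rw [X_apply, if_pos]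
        rw [add_assoc, t2_add_self, add_zero]
      · intro d _ hd
        rw [X_apply, if_neg, zero_mul]
        intro h
        apply hd
        rw [h, add_assoc, t2_add_self, add_zero]
      · intro h; exact absurd (Finset.mem_univ _) h
    rw [Finset.sum_eq_single (b + η.1)]
    · rw [h2, Matrix.conjTranspose_apply, X_apply, if_pos, star_sg]
      · have h3 : sg (dot η.2 (a + b)) = sg (dot η.2 (a + η.1)) * sg (dot η.2 (b + η.1)) := by
          rw [← sg_add, ← dot_add_right]
          congr 2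
          calc a + b = a + b + (η.1 + η.1) := by rw [t2_add_self, add_zero]
            _ = a + η.1 + (b + η.1) := by abel
        rw [h3]; ring
      · rw [add_assoc, t2_add_self, add_zero]
    · intro d _ hd
      rw [Matrix.conjTranspose_apply, X_apply, if_neg, star_zero, mul_zero]
      intro h
      apply hd
      rw [h, add_assoc, t2_add_self, add_zero]
    · intro h; exact absurd (Finset.mem_univ _) h
  simp only [h1]
  rw [Fintype.sum_prod_type]
  have h4 : ∀ p : T2, ∑ q : T2, sg (dot q (a + b)) * M (a + p) (b + p) =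
      if a = b then 4 * M (a + p) (a + p) else 0 := by
    intro p
    rw [← Finset.sum_mul, sum_sg_dot]
    by_cases hab : a = b
    · subst hab
      rw [t2_add_self, if_pos rfl, if_pos rfl]
    · rw [if_neg hab, if_neg, zero_mul]
      intro h
      apply hab
      calc a = a + (b + b) := by rw [t2_add_self, add_zero]
        _ = b := by rw [← add_assoc, h, zero_add]
  simp only [h4]
  by_cases hab : a = b
  · simp only [if_pos hab]
    rw [← Finset.mul_sum, Matrix.trace]
    congr 1
    exact Equiv.sum_comp (Equiv.addLeft a) (fun c => M c c)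
  · simp [if_neg hab]

theorem t2_add_add (a p : T2) : a + p + p = a := by rw [add_assoc, t2_add_self, add_zero]

theorem X_apply_self (η : Gam) (a : T2) : X η a (a + η.1) = sg (dot η.2 (a + η.1)) := by
  rw [X_apply, if_pos (t2_add_add a η.1).symm]

theorem X_apply_ne (η : Gam) (a c : T2) (h : c ≠ a + η.1) : X η a c = 0 := by
  rw [X_apply, if_neg]
  intro h2
  exact h (by rw [h2, t2_add_add])

theorem W_apply_self (η η' : Gam) (p : I16) : W η η' p (p.1 + η.1, p.2 + η'.1) =
    sg (dot η.2 (p.1 + η.1)) * sg (dot η'.2 (p.2 + η'.1)) := by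
  rw [W, Matrix.kroneckerMap_apply, X_apply_self, X_apply_self]

theorem W_apply_ne (η η' : Gam) (p c : I16) (h : c ≠ (p.1 + η.1, p.2 + η'.1)) :
    W η η' p c = 0 := by
  rw [W, Matrix.kroneckerMap_apply]
  by_cases h1 : c.1 = p.1 + η.1
  · have h2 : c.2 ≠ p.2 + η'.1 := fun h2 => h (Prod.ext h1 h2)
    rw [X_apply_ne η' _ _ h2, mul_zero]
  · rw [X_apply_ne η _ _ h1, zero_mul]

theorem W_conj_apply (M : Matrix I16 I16 ℂ) (η η' : Gam) (p r : I16) :
    (W η η' * M * (W η η')ᴴ) p r =
      sg (dot η.2 (p.1 + r.1)) * sg (dot η'.2 (p.2 + r.2)) *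
        M (p.1 + η.1, p.2 + η'.1) (r.1 + η.1, r.2 + η'.1) := by
  rw [Matrix.mul_apply, Finset.sum_eq_single (r.1 + η.1, r.2 + η'.1)]
  · rw [Matrix.mul_apply, Finset.sum_eq_single (p.1 + η.1, p.2 + η'.1),
      Matrix.conjTranspose_apply, W_apply_self, W_apply_self, star_mul', star_sg, star_sg]
    · have h3 : sg (dot η.2 (p.1 + r.1)) = sg (dot η.2 (p.1 + η.1)) * sg (dot η.2 (r.1 + η.1)) := by
        rw [← sg_add, ← dot_add_right]
        congr 2
        calc p.1 + r.1 = p.1 + r.1 + (η.1 + η.1) := by rw [t2_add_self, add_zero]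
          _ = p.1 + η.1 + (r.1 + η.1) := by abel
      have h4 : sg (dot η'.2 (p.2 + r.2)) =
          sg (dot η'.2 (p.2 + η'.1)) * sg (dot η'.2 (r.2 + η'.1)) := by
        rw [← sg_add, ← dot_add_right]
        congr 2
        calc p.2 + r.2 = p.2 + r.2 + (η'.1 + η'.1) := by rw [t2_add_self, add_zero]
          _ = p.2 + η'.1 + (r.2 + η'.1) := by abel
      rw [h3, h4]; ring
    · intro c _ hc
      rw [W_apply_ne _ _ _ _ hc, zero_mul]
    · intro h; exact absurd (Finset.mem_univ _) h
  · intro c _ hc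
    rw [Matrix.conjTranspose_apply, W_apply_ne _ _ _ _ hc, star_zero, mul_zero]
  · intro h; exact absurd (Finset.mem_univ _) h

theorem sum_pair (f : T2 × T2 → ℂ) : ∑ η, f η = ∑ x : T2, ∑ q : T2, f (x, q) :=
  Fintype.sum_prod_type f

/-- Twirling over the 16 by 16 matrices `W`. -/
theorem W_twirl (M : Matrix I16 I16 ℂ) :
    ∑ η : Gam, ∑ η' : Gam, W η η' * M * (W η η')ᴴ = (16 * M.trace) • (1 : Matrix I16 I16 ℂ) := by
  ext p r
  rw [Matrix.sum_apply]
  simp only [Matrix.sum_apply, W_conj_apply]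
  rw [Matrix.smul_apply, smul_eq_mul]
  -- sum over the sign parts first
  have key : ∀ x y : T2, ∑ q : T2, ∑ q' : T2,
      sg (dot q (p.1 + r.1)) * sg (dot q' (p.2 + r.2)) * M (p.1 + x, p.2 + y) (r.1 + x, r.2 + y) =
      if p = r then 16 * M (p.1 + x, p.2 + y) (p.1 + x, p.2 + y) else 0 := by
    intro x y
    have h1 : ∀ q : T2, ∑ q' : T2,
        sg (dot q (p.1 + r.1)) * sg (dot q' (p.2 + r.2)) * M (p.1 + x, p.2 + y) (r.1 + x, r.2 + y) =
        sg (dot q (p.1 + r.1)) * ((if p.2 + r.2 = 0 then 4 else 0) *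
          M (p.1 + x, p.2 + y) (r.1 + x, r.2 + y)) := by
      intro q
      rw [← sum_sg_dot, Finset.sum_mul, Finset.mul_sum]
      refine Finset.sum_congr rfl fun q' _ => ?_
      ring
    simp only [h1]
    rw [← Finset.sum_mul, sum_sg_dot]
    by_cases hpr : p = r
    · subst hpr
      rw [t2_add_self, t2_add_self, if_pos rfl, if_pos rfl]; ring
    · rw [if_neg hpr]
      by_cases h1 : p.1 + r.1 = 0
      · have h2 : p.2 + r.2 ≠ 0 := by
          intro h2
          apply hpr
          apply Prod.ext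
          · calc p.1 = p.1 + (r.1 + r.1) := by rw [t2_add_self, add_zero]
              _ = r.1 := by rw [← add_assoc, h1, zero_add]
          · calc p.2 = p.2 + (r.2 + r.2) := by rw [t2_add_self, add_zero]
              _ = r.2 := by rw [← add_assoc, h2, zero_add]
        rw [if_neg h2]; ring
      · rw [if_neg h1]; ring
  have h2 : ∑ η : Gam, ∑ η' : Gam, sg (dot η.2 (p.1 + r.1)) * sg (dot η'.2 (p.2 + r.2)) *
      M (p.1 + η.1, p.2 + η'.1) (r.1 + η.1, r.2 + η'.1) =
      ∑ x : T2, ∑ y : T2, ∑ q : T2, ∑ q' : T2,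
      sg (dot q (p.1 + r.1)) * sg (dot q' (p.2 + r.2)) *
        M (p.1 + x, p.2 + y) (r.1 + x, r.2 + y) := by
    rw [sum_pair]
    refine Finset.sum_congr rfl fun x _ => ?_
    have h3 : ∀ q : T2, ∑ η' : Gam, sg (dot (x, q).2 (p.1 + r.1)) * sg (dot η'.2 (p.2 + r.2)) *
        M (p.1 + (x, q).1, p.2 + η'.1) (r.1 + (x, q).1, r.2 + η'.1) =
        ∑ y : T2, ∑ q' : T2, sg (dot q (p.1 + r.1)) * sg (dot q' (p.2 + r.2)) *
        M (p.1 + x, p.2 + y) (r.1 + x, r.2 + y) := fun q => sum_pair _
    rw [Finset.sum_congr rfl fun q _ => h3 q, Finset.sum_comm]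
  rw [h2]
  simp only [key]
  by_cases hpr : p = r
  · subst hpr
    rw [Matrix.one_apply_eq, mul_one]
    simp only [if_true]
    simp only [← Finset.mul_sum]
    congr 1
    have h4 : M.trace = ∑ x : T2, ∑ y : T2, M (x, y) (x, y) := sum_pair _
    rw [h4, ← Equiv.sum_comp (Equiv.addLeft p.1) (fun x => ∑ y : T2, M (x, y) (x, y))]
    refine Finset.sum_congr rfl fun x _ => ?_
    exact Equiv.sum_comp (Equiv.addLeft p.2) (fun y => M (p.1 + x, y) (p.1 + x, y))
  · rw [Matrix.one_apply_ne hpr, mul_zero]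
    simp [if_neg hpr]

end Pool.Agent.Heis
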