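import Mathlib
import Pool.Agent.helper50.CQGDefs
import Pool.Agent.helper50.Heis

/-!
The cocycle twist of a compact matrix group by the Heisenberg cocycle of `F₂⁴`, realised inside
`C(X, M₁₆(ℂ))`.
-/

set_option autoImplicit false

namespace Pool.Agent.CQG

open scoped Matrix.Norms.L2Operator Kronecker TensorProduct
open Matrix Pool.Agent.Heis

/-- 16 by 16 matrices -/
abbrev M16 : Type := Matrix I16 I16 ℂ

/-- 256 by 256 matrices -/
abbrev M256 : Type := Matrix (I16 × I16) (I16 × I16) ℂ

/-- A compact matrix group with real orthogonal fundamental representation, all of whose basis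
vectors have a degree in `F₂⁴`, such that the dual group `F₂⁴` sits in it as diagonal matrices. -/
structure Data (X : Type) [Group X] [TopologicalSpace X] (N : ℕ) where
  U : X → Matrix (Fin N) (Fin N) ℂ
  cont : Continuous U
  map_mul : ∀ x y, U (x * y) = U x * U y
  real : ∀ x i j, star (U x i j) = U x i j
  orth : ∀ x, U x * (U x)ᵀ = 1
  inj : Function.Injective U
  κ : Fin N → Gam
  k : Gam → X
  U_k : ∀ η, U (k η) = Matrix.diagonal fun i => sg (om η (κ i))

theorem cm_algebraMap_apply {Y : Type} [TopologicalSpace Y] {n : Type} [Fintype n] [DecidableEq n]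
    (r : ℂ) (y : Y) : (algebraMap ℂ C(Y, Matrix n n ℂ) r) y = r • (1 : Matrix n n ℂ) := by
  rw [Algebra.algebraMap_eq_smul_one]
  rfl

namespace Data

variable {X : Type} [Group X] [TopologicalSpace X] {N : ℕ} (D : Data X N)

theorem U_one : D.U 1 = 1 := by
  have h := D.map_mul 1 1
  rw [mul_one] at h
  have h2 := D.orth 1
  calc D.U 1 = D.U 1 * (D.U 1 * (D.U 1)ᵀ) := by rw [h2, Matrix.mul_one]
    _ = (D.U 1 * D.U 1) * (D.U 1)ᵀ := by rw [Matrix.mul_assoc]
    _ = 1 := by rw [← h, h2]

theorem U_inv (x : X) : D.U x⁻¹ = (D.U x)ᵀ := by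
  have h := D.map_mul x⁻¹ x
  rw [inv_mul_cancel, D.U_one] at h
  have h2 := D.orth x
  calc D.U x⁻¹ = D.U x⁻¹ * (D.U x * (D.U x)ᵀ) := by rw [h2, Matrix.mul_one]
    _ = (D.U x⁻¹ * D.U x) * (D.U x)ᵀ := by rw [Matrix.mul_assoc]
    _ = _ := by rw [← h, Matrix.one_mul]

theorem orth' (x : X) : (D.U x)ᵀ * D.U x = 1 := by
  rw [← D.U_inv, ← D.map_mul, inv_mul_cancel, D.U_one]

theorem k_zero : D.k 0 = 1 := by
  apply D.inj
  rw [D.U_k, D.U_one, ← Matrix.diagonal_one]
  congr 1
  ext i
  rw [om_zero_left, sg_zero]

theorem k_add (η η' : Gam) : D.k (η + η') = D.k η * D.k η' := by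
  apply D.inj
  rw [D.U_k, D.map_mul, D.U_k, D.U_k, Matrix.diagonal_mul_diagonal]
  congr 1
  ext i
  rw [om_add_left, sg_add]

theorem U_k_mul (η : Gam) (x : X) (i j : Fin N) :
    D.U (D.k η * x) i j = sg (om η (D.κ i)) * D.U x i j := by
  rw [D.map_mul, D.U_k, Matrix.diagonal_mul]

theorem U_mul_k (η : Gam) (x : X) (i j : Fin N) :
    D.U (x * D.k η) i j = sg (om η (D.κ j)) * D.U x i j := by
  rw [D.map_mul, D.U_k, Matrix.mul_diagonal, mul_comm]

theorem continuous_entry (i j : Fin N) : Continuous fun x => D.U x i j :=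
  (continuous_apply j).comp ((continuous_apply i).comp D.cont)

/-- The generators. -/
noncomputable def w (i j : Fin N) : C(X, M16) :=
  ⟨fun x => D.U x i j • W (D.κ i) (D.κ j), (D.continuous_entry i j).smul continuous_const⟩

theorem w_apply (i j : Fin N) (x : X) : D.w i j x = D.U x i j • W (D.κ i) (D.κ j) := rfl

variable [CompactSpace X]

/-- The algebra `C(G)` of the twist. -/
noncomputable def alg : StarSubalgebra ℂ C(X, M16) :=
  (StarAlgebra.adjoin ℂ {a : C(X, M16) | ∃ i j, a = D.w i j}).topologicalClosure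

theorem w_mem (i j : Fin N) : D.w i j ∈ D.alg :=
  StarSubalgebra.le_topologicalClosure _ (StarAlgebra.subset_adjoin ℂ _ ⟨i, j, rfl⟩)

theorem alg_le (T : StarSubalgebra ℂ C(X, M16)) (hT : IsClosed (T : Set C(X, M16)))
    (h : ∀ i j, D.w i j ∈ T) : D.alg ≤ T := by
  refine StarSubalgebra.topologicalClosure_minimal (StarAlgebra.adjoin_le ?_) hT
  rintro _ ⟨i, j, rfl⟩
  exact h i j

instance alg_closed : IsClosed (D.alg : Set C(X, M16)) :=
  StarSubalgebra.isClosed_topologicalClosure _

noncomputable instance : CStarAlgebra D.alg := StarSubalgebra.cstarAlgebra D.alg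

theorem star_w_apply (i j : Fin N) (x : X) :
    (star (D.w i j)) x = D.U x i j • (W (D.κ i) (D.κ j))ᴴ := by
  rw [ContinuousMap.star_apply, Matrix.star_eq_conjTranspose, w_apply,
    Matrix.conjTranspose_smul, D.real]

/-! ### Equivariance -/

theorem continuous_eval (x : X) : Continuous fun a : C(X, M16) => a x := continuous_eval_const x

theorem equivariance {a : C(X, M16)} (ha : a ∈ D.alg) (η η' : Gam) (x : X) :
    a (D.k η * x * D.k η') = W η η' * a x * (W η η')ᴴ := by
  let T : StarSubalgebra ℂ C(X, M16) :=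
    { carrier := {a | ∀ x, a (D.k η * x * D.k η') = W η η' * a x * (W η η')ᴴ}
      mul_mem' := by
        intro a b ha hb x
        simp only [Set.mem_ofPred_eq] at ha hb
        rw [ContinuousMap.mul_apply, ContinuousMap.mul_apply, ha, hb]
        calc W η η' * a x * (W η η')ᴴ * (W η η' * b x * (W η η')ᴴ)
            = W η η' * a x * ((W η η')ᴴ * W η η') * b x * (W η η')ᴴ := by
              simp only [Matrix.mul_assoc]
          _ = _ := by rw [W_conjTranspose_mul]; simp only [Matrix.mul_assoc, Matrix.one_mul]
      one_mem' := by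
        intro x
        rw [ContinuousMap.one_apply, ContinuousMap.one_apply, Matrix.mul_one, W_mul_conjTranspose]
      add_mem' := by
        intro a b ha hb x
        simp only [Set.mem_ofPred_eq] at ha hb
        rw [ContinuousMap.add_apply, ContinuousMap.add_apply, ha, hb, Matrix.mul_add,
          Matrix.add_mul]
      zero_mem' := by
        intro x
        rw [ContinuousMap.zero_apply, ContinuousMap.zero_apply, Matrix.mul_zero, Matrix.zero_mul]
      algebraMap_mem' := by
        intro r x
        rw [cm_algebraMap_apply, cm_algebraMap_apply, Matrix.mul_smul,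
          Matrix.mul_one, Matrix.smul_mul, W_mul_conjTranspose]
      star_mem' := by
        intro a ha x
        simp only [Set.mem_ofPred_eq] at ha
        rw [ContinuousMap.star_apply, ContinuousMap.star_apply, ha, Matrix.star_eq_conjTranspose,
          Matrix.star_eq_conjTranspose, Matrix.conjTranspose_mul, Matrix.conjTranspose_mul,
          Matrix.conjTranspose_conjTranspose, Matrix.mul_assoc] }
  have hT : IsClosed (T : Set C(X, M16)) := by
    have : (T : Set C(X, M16)) =
        ⋂ x, {a | a (D.k η * x * D.k η') = W η η' * a x * (W η η')ᴴ} := by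
      ext a
      simp only [Set.mem_iInter]
      rfl
    rw [this]
    refine isClosed_iInter fun x => isClosed_eq (continuous_eval _) ?_
    exact (continuous_const.mul (continuous_eval _)).mul continuous_const
  refine D.alg_le T hT ?_ ha x
  intro i j x
  rw [w_apply, w_apply, U_mul_k, U_k_mul, Matrix.mul_smul, Matrix.smul_mul, W_conj, smul_smul]
  congr 1
  ring

/-! ### The counit -/

theorem diag_aux (η : Gam) {a : C(X, M16)} (ha : a ∈ D.alg) :
    a 1 * E η = (a 1 * E η).trace • E η ∧ E η * a 1 = (a 1 * E η).trace • E η := by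
  let T : StarSubalgebra ℂ C(X, M16) :=
    { carrier := {a | a 1 * E η = (a 1 * E η).trace • E η ∧ E η * a 1 = (a 1 * E η).trace • E η}
      mul_mem' := by
        rintro a b ⟨h1, h2⟩ ⟨h3, h4⟩
        have h5 : (a * b) 1 * E η = ((b 1 * E η).trace * (a 1 * E η).trace) • E η := by
          rw [ContinuousMap.mul_apply, Matrix.mul_assoc, h3, Matrix.mul_smul, h1, smul_smul]
          simp only [Matrix.trace_smul, E_trace, smul_eq_mul, mul_one]
        have h6 : E η * (a * b) 1 = ((b 1 * E η).trace * (a 1 * E η).trace) • E η := by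
          rw [ContinuousMap.mul_apply, ← Matrix.mul_assoc, h2, Matrix.smul_mul, h4, smul_smul,
            mul_comm]
        rw [Set.mem_ofPred_eq, h5, h6, Matrix.trace_smul, E_trace, smul_eq_mul, mul_one]
        exact ⟨rfl, rfl⟩
      one_mem' := by
        rw [Set.mem_ofPred_eq, ContinuousMap.one_apply, Matrix.one_mul, Matrix.mul_one, E_trace,
          one_smul]
        exact ⟨rfl, rfl⟩
      add_mem' := by
        rintro a b ⟨h1, h2⟩ ⟨h3, h4⟩
        rw [Set.mem_ofPred_eq, ContinuousMap.add_apply, Matrix.add_mul, Matrix.mul_add,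
          Matrix.trace_add, add_smul, ← h1, ← h3, h2, h4, ← h1, ← h3]
        exact ⟨rfl, rfl⟩
      zero_mem' := by
        rw [Set.mem_ofPred_eq, ContinuousMap.zero_apply, Matrix.zero_mul, Matrix.mul_zero,
          Matrix.trace_zero, zero_smul]
        exact ⟨rfl, rfl⟩
      algebraMap_mem' := by
        intro r
        rw [Set.mem_ofPred_eq, cm_algebraMap_apply, Matrix.smul_mul, Matrix.one_mul,
          Matrix.mul_smul, Matrix.mul_one, Matrix.trace_smul, E_trace, smul_eq_mul, mul_one]
        exact ⟨rfl, rfl⟩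
      star_mem' := by
        rintro a ⟨h1, h2⟩
        have h3 : (star a) 1 * E η = star (a 1 * E η).trace • E η := by
          rw [ContinuousMap.star_apply, Matrix.star_eq_conjTranspose]
          have := congr_arg Matrix.conjTranspose h2
          rw [Matrix.conjTranspose_mul, Matrix.conjTranspose_smul, E_conjTranspose] at this
          exact this
        have h4 : E η * (star a) 1 = star (a 1 * E η).trace • E η := by
          rw [ContinuousMap.star_apply, Matrix.star_eq_conjTranspose]
          have := congr_arg Matrix.conjTranspose h1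
          rw [Matrix.conjTranspose_mul, Matrix.conjTranspose_smul, E_conjTranspose] at this
          exact this
        rw [Set.mem_ofPred_eq, h3, h4, Matrix.trace_smul, E_trace, smul_eq_mul, mul_one]
        exact ⟨rfl, rfl⟩ }
  have hT : IsClosed (T : Set C(X, M16)) := by
    have hc : Continuous fun a : C(X, M16) => (a 1 * E η).trace • E η :=
      (Continuous.matrix_trace ((continuous_eval (1 : X)).mul continuous_const)).smul
        continuous_const
    exact (isClosed_eq ((continuous_eval _).mul continuous_const) hc).inter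
      (isClosed_eq (continuous_const.mul (continuous_eval _)) hc)
  refine D.alg_le T hT ?_ ha
  intro i j
  change D.w i j 1 * E η = (D.w i j 1 * E η).trace • E η ∧
    E η * D.w i j 1 = (D.w i j 1 * E η).trace • E η
  rw [w_apply, U_one, Matrix.one_apply]
  by_cases h : i = j
  · subst h
    rw [if_pos rfl, one_smul, W_mul_E, E_mul_W, Matrix.trace_smul, E_trace, smul_eq_mul, mul_one]
    exact ⟨rfl, rfl⟩
  · rw [if_neg h, zero_smul, Matrix.zero_mul, Matrix.mul_zero, Matrix.trace_zero, zero_smul]
    exact ⟨rfl, rfl⟩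

theorem counit_aux {a : C(X, M16)} (ha : a ∈ D.alg) :
    a 1 * E 0 = (a 1 * E 0).trace • E 0 ∧ E 0 * a 1 = (a 1 * E 0).trace • E 0 := D.diag_aux 0 ha

/-- The counit. -/
noncomputable def counit : D.alg →⋆ₐ[ℂ] ℂ where
  toFun a := (a.1 1 * E 0).trace
  map_one' := by
    change ((1 : C(X, M16)) 1 * E 0).trace = 1
    rw [ContinuousMap.one_apply, Matrix.one_mul, E_trace]
  map_mul' a b := by
    change ((a.1 * b.1) 1 * E 0).trace = _
    rw [ContinuousMap.mul_apply, Matrix.mul_assoc, (D.counit_aux b.2).1, Matrix.mul_smul,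
      (D.counit_aux a.2).1, smul_smul]
    simp only [Matrix.trace_smul, E_trace, smul_eq_mul, mul_one]
    ring
  map_zero' := by
    change ((0 : C(X, M16)) 1 * E 0).trace = 0
    rw [ContinuousMap.zero_apply, Matrix.zero_mul, Matrix.trace_zero]
  map_add' a b := by
    change ((a.1 + b.1) 1 * E 0).trace = _
    rw [ContinuousMap.add_apply, Matrix.add_mul, Matrix.trace_add]
  commutes' r := by
    change ((algebraMap ℂ C(X, M16) r) 1 * E 0).trace = r
    rw [cm_algebraMap_apply, Matrix.smul_mul, Matrix.one_mul, Matrix.trace_smul,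
      E_trace, smul_eq_mul, mul_one]
  map_star' a := by
    change ((star a.1) 1 * E 0).trace = star (a.1 1 * E 0).trace
    rw [ContinuousMap.star_apply, ← Matrix.trace_conjTranspose, Matrix.conjTranspose_mul,
      E_conjTranspose, Matrix.trace_mul_comm]
    rfl

theorem counit_w (i j : Fin N) : D.counit ⟨D.w i j, D.w_mem i j⟩ = if i = j then 1 else 0 := by
  change (D.w i j 1 * E 0).trace = _
  rw [w_apply, U_one, Matrix.one_apply]
  by_cases h : i = j
  · subst h
    rw [if_pos rfl, one_smul, W_mul_E, om_zero_left, sg_zero, one_smul, E_trace]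
  · rw [if_neg h, zero_smul, Matrix.zero_mul, Matrix.trace_zero]

/-! ### The antipode -/

/-- The tensor flip on the index set. -/
def swp : I16 ≃ I16 := Equiv.prodComm T2 T2

/-- Transpose followed by the tensor flip. -/
noncomputable def gAnti : C(M16, M16) :=
  ⟨fun m => (mᵀ).submatrix swp swp, (continuous_id.matrix_transpose).matrix_submatrix _ _⟩

theorem W_gAnti (κ κ' : Gam) : gAnti (W κ κ') = (W κ' κ)ᴴ := by
  change ((W κ κ')ᵀ).submatrix swp swp = _
  rw [W_transpose, W_conjTranspose]
  ext p q
  simp only [Matrix.submatrix_apply, Matrix.smul_apply, W, Matrix.kroneckerMap_apply, swp,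
    Equiv.prodComm_apply, Prod.fst_swap, Prod.snd_swap, smul_eq_mul]
  ring

variable [IsTopologicalGroup X]

/-- The antipode on the ambient algebra. -/
noncomputable def antiFun (a : C(X, M16)) : C(X, M16) :=
  gAnti.comp (a.comp ⟨fun x => x⁻¹, continuous_inv⟩)

theorem antiFun_apply (a : C(X, M16)) (x : X) :
    antiFun a x = ((a x⁻¹)ᵀ).submatrix swp swp := rfl

theorem continuous_antiFun : Continuous (antiFun : C(X, M16) → C(X, M16)) :=
  (ContinuousMap.continuous_postcomp _).comp (ContinuousMap.continuous_precomp _)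

theorem antiFun_mul (a b : C(X, M16)) : antiFun (a * b) = antiFun b * antiFun a := by
  ext1 x
  rw [ContinuousMap.mul_apply, antiFun_apply, antiFun_apply, antiFun_apply,
    ContinuousMap.mul_apply, Matrix.transpose_mul, Matrix.submatrix_mul_equiv]

theorem antiFun_one : antiFun (1 : C(X, M16)) = 1 := by
  ext1 x
  rw [antiFun_apply, ContinuousMap.one_apply, ContinuousMap.one_apply, Matrix.transpose_one,
    Matrix.submatrix_one_equiv]

theorem antiFun_add (a b : C(X, M16)) : antiFun (a + b) = antiFun a + antiFun b := by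
  ext1 x
  rw [ContinuousMap.add_apply, antiFun_apply, antiFun_apply, antiFun_apply,
    ContinuousMap.add_apply, Matrix.transpose_add, Matrix.submatrix_add]
  rfl

theorem antiFun_zero : antiFun (0 : C(X, M16)) = 0 := by
  ext1 x
  rw [antiFun_apply, ContinuousMap.zero_apply, ContinuousMap.zero_apply, Matrix.transpose_zero,
    Matrix.submatrix_zero]
  rfl

theorem antiFun_algebraMap (r : ℂ) : antiFun (algebraMap ℂ C(X, M16) r) = algebraMap ℂ _ r := by
  ext1 x
  rw [antiFun_apply, cm_algebraMap_apply, cm_algebraMap_apply, Matrix.transpose_smul,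
    Matrix.transpose_one]
  ext p q
  simp only [Matrix.submatrix_apply, Matrix.smul_apply, Matrix.one_apply,
    EmbeddingLike.apply_eq_iff_eq]

theorem antiFun_star (a : C(X, M16)) : antiFun (star a) = star (antiFun a) := by
  ext1 x
  rw [ContinuousMap.star_apply, antiFun_apply, antiFun_apply, ContinuousMap.star_apply,
    Matrix.star_eq_conjTranspose, Matrix.star_eq_conjTranspose, Matrix.conjTranspose_submatrix]
  rfl

theorem antiFun_w (i j : Fin N) : antiFun (D.w i j) = star (D.w j i) := by
  ext1 x
  rw [star_w_apply, ← W_gAnti]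
  change gAnti (D.w i j x⁻¹) = _
  rw [w_apply, U_inv, Matrix.transpose_apply]
  change ((D.U x j i • W (D.κ i) (D.κ j))ᵀ).submatrix swp swp = _
  rw [Matrix.transpose_smul, Matrix.submatrix_smul]
  rfl

theorem antiFun_mem {a : C(X, M16)} (ha : a ∈ D.alg) : antiFun a ∈ D.alg := by
  let T : StarSubalgebra ℂ C(X, M16) :=
    { carrier := {a | antiFun a ∈ D.alg}
      mul_mem' := fun {a b} ha hb => by
        rw [Set.mem_ofPred_eq, antiFun_mul]; exact mul_mem hb ha
      one_mem' := by rw [Set.mem_ofPred_eq, antiFun_one]; exact one_mem _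
      add_mem' := fun {a b} ha hb => by
        rw [Set.mem_ofPred_eq, antiFun_add]; exact add_mem ha hb
      zero_mem' := by rw [Set.mem_ofPred_eq, antiFun_zero]; exact zero_mem _
      algebraMap_mem' := fun r => by
        rw [Set.mem_ofPred_eq, antiFun_algebraMap]; exact algebraMap_mem _ _
      star_mem' := fun {a} ha => by
        rw [Set.mem_ofPred_eq, antiFun_star]; exact star_mem ha }
  have hT : IsClosed (T : Set C(X, M16)) := D.alg_closed.preimage continuous_antiFun
  refine D.alg_le T hT ?_ ha
  intro i j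
  change antiFun (D.w i j) ∈ D.alg
  rw [antiFun_w]
  exact star_mem (D.w_mem j i)

/-- The antipode. -/
noncomputable def antipode : D.alg →⋆ₐ[ℂ] (D.alg)ᵐᵒᵖ where
  toFun a := MulOpposite.op ⟨antiFun a.1, D.antiFun_mem a.2⟩
  map_one' := congr_arg MulOpposite.op (Subtype.ext antiFun_one)
  map_mul' a b := congr_arg MulOpposite.op (Subtype.ext (antiFun_mul a.1 b.1))
  map_zero' := congr_arg MulOpposite.op (Subtype.ext antiFun_zero)
  map_add' a b := congr_arg MulOpposite.op (Subtype.ext (antiFun_add a.1 b.1))
  commutes' r := congr_arg MulOpposite.op (Subtype.ext (antiFun_algebraMap r))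
  map_star' a := congr_arg MulOpposite.op (Subtype.ext (antiFun_star a.1))

theorem antipode_w (i j : Fin N) : D.antipode ⟨D.w i j, D.w_mem i j⟩ =
    MulOpposite.op (star ⟨D.w j i, D.w_mem j i⟩) := by
  change MulOpposite.op _ = _
  congr 1
  exact Subtype.ext (D.antiFun_w i j)

end Data

end Pool.Agent.CQG
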