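import Mathlib
import Pool.Agent.helper50.TwistAlg

/-!
The tensor square and the comultiplication of the twist.
-/

set_option autoImplicit false

namespace Pool.Agent.CQG

open scoped Matrix.Norms.L2Operator Kronecker TensorProduct
open Matrix Pool.Agent.Heis

theorem continuous_starHom {A B : Type} [CStarAlgebra A] [CStarAlgebra B] (φ : A →⋆ₐ[ℂ] B) :
    Continuous φ :=
  AddMonoidHomClass.continuous_of_bound φ 1
    (fun a => by simpa using NonUnitalStarAlgHom.norm_apply_le φ a)

theorem continuous_kron {Y : Type} [TopologicalSpace Y] {f g : Y → M16} (hf : Continuous f)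
    (hg : Continuous g) : Continuous fun y => f y ⊗ₖ g y := by
  refine continuous_matrix fun i j => ?_
  simp only [Matrix.kroneckerMap_apply]
  exact (hf.matrix_elem _ _).mul (hg.matrix_elem _ _)

section general

variable {X : Type} [TopologicalSpace X] 

/-- The function `(x, y) ↦ a x ⊗ b y`. -/
noncomputable def kr (a b : C(X, M16)) : C(X × X, M256) :=
  ⟨fun p => a p.1 ⊗ₖ b p.2, continuous_kron (a.continuous.comp continuous_fst)
    (b.continuous.comp continuous_snd)⟩

theorem kr_apply (a b : C(X, M16)) (p : X × X) : kr a b p = a p.1 ⊗ₖ b p.2 := rfl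

theorem kr_mul (a b a' b' : C(X, M16)) : kr a b * kr a' b' = kr (a * a') (b * b') := by
  ext1 p
  rw [ContinuousMap.mul_apply, kr_apply, kr_apply, kr_apply, ← Matrix.mul_kronecker_mul]
  rfl

theorem kr_star (a b : C(X, M16)) : star (kr a b) = kr (star a) (star b) := by
  ext1 p
  rw [ContinuousMap.star_apply, kr_apply, kr_apply, Matrix.star_eq_conjTranspose,
    Matrix.conjTranspose_kronecker]
  rfl

theorem kr_one : kr (1 : C(X, M16)) 1 = 1 := by
  ext1 p
  rw [kr_apply, ContinuousMap.one_apply, ContinuousMap.one_apply, ContinuousMap.one_apply,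
    Matrix.one_kronecker_one]

theorem kr_add_left (a a' b : C(X, M16)) : kr (a + a') b = kr a b + kr a' b := by
  ext1 p
  rw [kr_apply, ContinuousMap.add_apply, ContinuousMap.add_apply, Matrix.add_kronecker]
  rfl

theorem kr_add_right (a b b' : C(X, M16)) : kr a (b + b') = kr a b + kr a b' := by
  ext1 p
  rw [kr_apply, ContinuousMap.add_apply, ContinuousMap.add_apply, Matrix.kronecker_add]
  rfl

theorem kr_smul_left (r : ℂ) (a b : C(X, M16)) : kr (r • a) b = r • kr a b := by
  ext1 p
  rw [kr_apply, ContinuousMap.smul_apply, ContinuousMap.smul_apply, Matrix.smul_kronecker]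
  rfl

theorem kr_smul_right (r : ℂ) (a b : C(X, M16)) : kr a (r • b) = r • kr a b := by
  ext1 p
  rw [kr_apply, ContinuousMap.smul_apply, ContinuousMap.smul_apply, Matrix.kronecker_smul]
  rfl

theorem kr_zero_left (b : C(X, M16)) : kr 0 b = 0 := by
  ext1 p
  rw [kr_apply, ContinuousMap.zero_apply, Matrix.zero_kronecker]
  rfl

theorem kr_zero_right (a : C(X, M16)) : kr a 0 = 0 := by
  ext1 p
  rw [kr_apply, ContinuousMap.zero_apply, Matrix.kronecker_zero]
  rfl

/-- `a ↦ a ⊗ 1` -/
noncomputable def j₁ : C(X, M16) →⋆ₐ[ℂ] C(X × X, M256) where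
  toFun a := kr a 1
  map_one' := kr_one
  map_mul' a b := by rw [kr_mul, mul_one]
  map_zero' := kr_zero_left 1
  map_add' a b := kr_add_left a b 1
  commutes' r := by
    rw [Algebra.algebraMap_eq_smul_one, Algebra.algebraMap_eq_smul_one, kr_smul_left, kr_one]
  map_star' a := by rw [kr_star, star_one]

/-- `a ↦ 1 ⊗ a` -/
noncomputable def j₂ : C(X, M16) →⋆ₐ[ℂ] C(X × X, M256) where
  toFun a := kr 1 a
  map_one' := kr_one
  map_mul' a b := by rw [kr_mul, mul_one]
  map_zero' := kr_zero_right 1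
  map_add' a b := kr_add_right 1 a b
  commutes' r := by
    rw [Algebra.algebraMap_eq_smul_one, Algebra.algebraMap_eq_smul_one, kr_smul_right, kr_one]
  map_star' a := by rw [kr_star, star_one]

theorem j₁_apply (a : C(X, M16)) : j₁ a = kr a 1 := rfl

theorem j₂_apply (a : C(X, M16)) : j₂ a = kr 1 a := rfl

theorem j_mul (a b : C(X, M16)) : j₁ a * j₂ b = kr a b := by
  rw [j₁_apply, j₂_apply, kr_mul, mul_one, one_mul]

theorem j_comm (a b : C(X, M16)) : Commute (j₁ a) (j₂ b) := by
  rw [Commute, SemiconjBy, j₁_apply, j₂_apply, kr_mul, kr_mul, mul_one, one_mul, mul_one,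
    one_mul]

/-- Flip on matrices. -/
noncomputable def gFlip : C(M256, M256) :=
  ⟨fun m => m.submatrix Prod.swap Prod.swap, continuous_id.matrix_submatrix _ _⟩

theorem gFlip_kron (a b : M16) : (a ⊗ₖ b).submatrix Prod.swap Prod.swap = b ⊗ₖ a := by
  ext p q
  simp only [Matrix.submatrix_apply, Matrix.kroneckerMap_apply, Prod.fst_swap, Prod.snd_swap]
  ring

/-- Flip on the ambient algebra. -/
noncomputable def flipHom : C(X × X, M256) →⋆ₐ[ℂ] C(X × X, M256) where
  toFun b := gFlip.comp (b.comp ⟨Prod.swap, continuous_swap⟩)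
  map_one' := by
    ext1 p
    change (1 : M256).submatrix (Equiv.prodComm I16 I16) (Equiv.prodComm I16 I16) = 1
    rw [Matrix.submatrix_one_equiv]
  map_mul' a b := by
    ext1 p
    change (a p.swap * b p.swap).submatrix (Equiv.prodComm I16 I16) (Equiv.prodComm I16 I16) =
      (a p.swap).submatrix (Equiv.prodComm I16 I16) (Equiv.prodComm I16 I16) *
        (b p.swap).submatrix (Equiv.prodComm I16 I16) (Equiv.prodComm I16 I16)
    rw [Matrix.submatrix_mul_equiv]
  map_zero' := by
    ext1 p
    rfl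
  map_add' a b := by
    ext1 p
    rfl
  commutes' r := by
    ext1 p
    change ((algebraMap ℂ C(X × X, M256) r) p.swap).submatrix Prod.swap Prod.swap = _
    rw [cm_algebraMap_apply, cm_algebraMap_apply]
    ext i j
    simp only [Matrix.submatrix_apply, Matrix.smul_apply, Matrix.one_apply, Prod.swap_inj]
  map_star' a := by
    ext1 p
    rfl

theorem flipHom_apply (b : C(X × X, M256)) (p : X × X) :
    flipHom b p = (b p.swap).submatrix Prod.swap Prod.swap := rfl

theorem flipHom_kr (a b : C(X, M16)) : flipHom (kr a b) = kr b a := by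
  ext1 p
  rw [flipHom_apply, kr_apply, gFlip_kron]
  rfl

end general

namespace Data

variable {X : Type} [Group X] [TopologicalSpace X] {N : ℕ} (D : Data X N) [CompactSpace X]

/-- The map `A ⊗ A → C(X × X, M₂₅₆)`. -/
noncomputable def lft : D.alg ⊗[ℂ] D.alg →ₐ[ℂ] C(X × X, M256) :=
  Algebra.TensorProduct.lift ((j₁.comp D.alg.subtype : D.alg →⋆ₐ[ℂ] _) : D.alg →ₐ[ℂ] _)
    ((j₂.comp D.alg.subtype : D.alg →⋆ₐ[ℂ] _) : D.alg →ₐ[ℂ] _) (fun a b => j_comm a.1 b.1)

theorem lft_tmul (a b : D.alg) : D.lft (a ⊗ₜ b) = kr a.1 b.1 := by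
  rw [lft, Algebra.TensorProduct.lift_tmul]
  exact j_mul a.1 b.1

/-- The algebraic tensor square. -/
noncomputable def algTensor : StarSubalgebra ℂ C(X × X, M256) where
  toSubalgebra := D.lft.range
  star_mem' := by
    rintro _ ⟨t, rfl⟩
    change star (D.lft t) ∈ D.lft.range
    induction t using TensorProduct.induction_on with
    | zero => rw [map_zero, star_zero]; exact zero_mem _
    | tmul a b =>
      refine ⟨star a ⊗ₜ star b, ?_⟩
      change D.lft (star a ⊗ₜ star b) = star (D.lft (a ⊗ₜ b))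
      rw [lft_tmul, lft_tmul, kr_star]
      rfl
    | add x y hx hy => rw [map_add, star_add]; exact add_mem hx hy

theorem kr_mem_algTensor {a b : C(X, M16)} (ha : a ∈ D.alg) (hb : b ∈ D.alg) :
    kr a b ∈ D.algTensor := ⟨⟨a, ha⟩ ⊗ₜ ⟨b, hb⟩, D.lft_tmul _ _⟩

/-- The tensor square. -/
noncomputable def tsq : StarSubalgebra ℂ C(X × X, M256) := D.algTensor.topologicalClosure

instance tsq_closed : IsClosed (D.tsq : Set C(X × X, M256)) :=
  StarSubalgebra.isClosed_topologicalClosure _

noncomputable instance : CStarAlgebra D.tsq := StarSubalgebra.cstarAlgebra D.tsq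

theorem kr_mem {a b : C(X, M16)} (ha : a ∈ D.alg) (hb : b ∈ D.alg) : kr a b ∈ D.tsq :=
  StarSubalgebra.le_topologicalClosure _ (D.kr_mem_algTensor ha hb)

theorem tsq_le (T : StarSubalgebra ℂ C(X × X, M256)) (hT : IsClosed (T : Set C(X × X, M256)))
    (h : ∀ a ∈ D.alg, ∀ b ∈ D.alg, kr a b ∈ T) : D.tsq ≤ T := by
  refine StarSubalgebra.topologicalClosure_minimal ?_ hT
  rintro _ ⟨t, rfl⟩
  change D.lft t ∈ T
  induction t using TensorProduct.induction_on with
  | zero => rw [map_zero]; exact zero_mem _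
  | tmul a b => rw [lft_tmul]; exact h a.1 a.2 b.1 b.2
  | add x y hx hy => rw [map_add]; exact add_mem hx hy

/-- `ι₁` -/
noncomputable def i₁ : D.alg →⋆ₐ[ℂ] D.tsq :=
  (j₁.comp D.alg.subtype).codRestrict D.tsq (fun a => D.kr_mem a.2 (one_mem _))

/-- `ι₂` -/
noncomputable def i₂ : D.alg →⋆ₐ[ℂ] D.tsq :=
  (j₂.comp D.alg.subtype).codRestrict D.tsq (fun a => D.kr_mem (one_mem _) a.2)

theorem i₁_coe (a : D.alg) : (D.i₁ a : C(X × X, M256)) = kr a.1 1 := rfl

theorem i₂_coe (a : D.alg) : (D.i₂ a : C(X × X, M256)) = kr 1 a.1 := rfl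

theorem i_comm (a b : D.alg) : Commute (D.i₁ a) (D.i₂ b) := Subtype.ext (j_comm a.1 b.1)

theorem i_mul_coe (a b : D.alg) : ((D.i₁ a * D.i₂ b : D.tsq) : C(X × X, M256)) = kr a.1 b.1 :=
  j_mul a.1 b.1

theorem lft_coe (t : D.alg ⊗[ℂ] D.alg) :
    ((Algebra.TensorProduct.lift (D.i₁ : D.alg →ₐ[ℂ] D.tsq) (D.i₂ : D.alg →ₐ[ℂ] D.tsq) D.i_comm t :
      D.tsq) : C(X × X, M256)) = D.lft t := by
  induction t using TensorProduct.induction_on with
  | zero => rw [map_zero, map_zero]; rfl
  | tmul a b =>
    rw [lft_tmul, Algebra.TensorProduct.lift_tmul]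
    exact D.i_mul_coe a b
  | add x y hx hy => rw [map_add, map_add, ← hx, ← hy]; rfl

/-- Entry evaluation. -/
noncomputable def ent (x : X) (p q : I16) : D.alg →L[ℂ] ℂ where
  toFun a := a.1 x p q
  map_add' a b := rfl
  map_smul' r a := rfl
  cont := ((continuous_eval x).comp continuous_subtype_val).matrix_elem p q

theorem ent_apply (x : X) (p q : I16) (a : D.alg) : D.ent x p q a = a.1 x p q := rfl

theorem lft_inj : Function.Injective D.lft := by
  rw [injective_iff_map_eq_zero]
  intro t ht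
  classical
  let ℬ := Module.Basis.ofVectorSpace ℂ D.alg
  let S : X → I16 → I16 → (D.alg ⊗[ℂ] D.alg →ₗ[ℂ] D.alg) := fun x p q =>
    (TensorProduct.lid ℂ D.alg).toLinearMap ∘ₗ
      (LinearMap.rTensor D.alg (D.ent x p q : D.alg →ₗ[ℂ] ℂ))
  have hS : ∀ x p q a b, S x p q (a ⊗ₜ b) = a.1 x p q • b := by
    intro x p q a b
    simp only [S, LinearMap.comp_apply, LinearMap.rTensor_tmul, LinearEquiv.coe_coe,
      TensorProduct.lid_tmul]
    rfl
  have h1 : ∀ x p q (t : D.alg ⊗[ℂ] D.alg) y p' q',
      (S x p q t).1 y p' q' = (D.lft t) (x, y) (p, p') (q, q') := by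
    intro x p q t y p' q'
    induction t using TensorProduct.induction_on with
    | zero => rw [map_zero, map_zero]; rfl
    | tmul a b =>
      rw [hS, lft_tmul, kr_apply, Matrix.kroneckerMap_apply]
      rfl
    | add s s' hs hs' =>
      rw [map_add, map_add, ContinuousMap.add_apply, Matrix.add_apply, ← hs, ← hs']
      rfl
  have h2 : ∀ x p q, S x p q t = 0 := by
    intro x p q
    apply Subtype.ext
    ext1 y
    ext p' q'
    rw [h1, ht]
    rfl
  have h3 : ∀ i x p q (t : D.alg ⊗[ℂ] D.alg),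
      ((TensorProduct.equivFinsuppOfBasisRight ℬ t) i).1 x p q = ℬ.repr (S x p q t) i := by
    intro i x p q t
    induction t using TensorProduct.induction_on with
    | zero => simp only [map_zero, Finsupp.coe_zero, Pi.zero_apply]; rfl
    | tmul a b =>
      rw [TensorProduct.equivFinsuppOfBasisRight_apply_tmul_apply, hS, map_smul,
        Finsupp.smul_apply, smul_eq_mul, mul_comm]
      rfl
    | add s s' hs hs' =>
      simp only [map_add, Finsupp.coe_add, Pi.add_apply]
      rw [← hs, ← hs']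
      rfl
  have h4 : TensorProduct.equivFinsuppOfBasisRight ℬ t = 0 := by
    ext1 i
    apply Subtype.ext
    ext1 x
    ext p q
    rw [h3, h2, map_zero]
    rfl
  exact (LinearEquiv.map_eq_zero_iff _).1 h4

theorem flipHom_mem {b : C(X × X, M256)} (hb : b ∈ D.tsq) : flipHom b ∈ D.tsq := by
  have : D.tsq ≤ D.tsq.comap flipHom := by
    have hc : Continuous (flipHom : C(X × X, M256) → C(X × X, M256)) :=
      continuous_starHom (flipHom : C(X × X, M256) →⋆ₐ[ℂ] C(X × X, M256))
    refine D.tsq_le _ (D.tsq_closed.preimage hc) ?_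
    intro a ha b hb
    change flipHom (kr a b) ∈ D.tsq
    rw [flipHom_kr]
    exact D.kr_mem hb ha
  exact this hb

theorem tmLin_coe (t : D.alg ⊗[ℂ] D.alg) :
    ((tmLin D.i₁ D.i₂ t : D.tsq) : C(X × X, M256)) = D.lft t := by
  induction t using TensorProduct.induction_on with
  | zero => rw [map_zero, map_zero]; rfl
  | tmul a b =>
    rw [lft_tmul]
    exact D.i_mul_coe a b
  | add x y hx hy => rw [map_add, map_add, ← hx, ← hy]; rfl

/-- The minimal tensor square of `D.alg`. -/
noncomputable def tensorSquare : TensorSquare D.alg where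
  B := D.tsq
  ι₁ := D.i₁
  ι₂ := D.i₂
  comm := D.i_comm
  embeds := by
    intro s t h
    apply D.lft_inj
    rw [← tmLin_coe, ← tmLin_coe, h]
  denseImage := by
    change DenseRange (tmLin D.i₁ D.i₂)
    rw [DenseRange, dense_iff_closure_eq, Set.eq_univ_iff_forall]
    intro b
    rw [Topology.IsInducing.subtypeVal.closure_eq_preimage_closure_image, Set.mem_preimage]
    have h1 : (b : C(X × X, M256)) ∈ closure (D.algTensor : Set C(X × X, M256)) := b.2
    refine closure_mono ?_ h1
    rintro _ ⟨t, rfl⟩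
    exact ⟨_, ⟨t, rfl⟩, D.tmLin_coe t⟩
  prodSep := by
    intro b hb
    apply Subtype.ext
    ext1 x
    ext p q
    let θ : D.tsq →L[ℂ] ℂ :=
      { toFun := fun b => b.1 x p q
        map_add' := fun a b => rfl
        map_smul' := fun r a => rfl
        cont := ((continuous_eval_const x).comp continuous_subtype_val).matrix_elem p q }
    refine hb θ (D.ent x.1 p.1 q.1) (D.ent x.2 p.2 q.2) ?_
    intro a a'
    change (D.i₁ a * D.i₂ a' : D.tsq).1 x p q = _
    rw [i_mul_coe]
    rfl
  flip := (flipHom.comp D.tsq.subtype).codRestrict D.tsq (fun b => D.flipHom_mem b.2)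
  isFlip := fun a => ⟨Subtype.ext (flipHom_kr a.1 1), Subtype.ext (flipHom_kr 1 a.1)⟩

end Data

end Pool.Agent.CQG
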