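import Mathlib
import Pool.Agent.helper50.TwistTensor

/-!
The comultiplication of the twist, and the compact matrix quantum group.
-/

set_option autoImplicit false

namespace Pool.Agent.CQG

open scoped Matrix.Norms.L2Operator Kronecker TensorProduct
open Matrix Pool.Agent.Heis

/-- Rearrangement of the tensor legs. -/
def reA : I16 × I16 ≃ I16 × I16 where
  toFun p := ((p.1.1, p.2.2), (p.1.2, p.2.1))
  invFun p := ((p.1.1, p.2.1), (p.2.2, p.1.2))
  left_inv p := rfl
  right_inv p := rfl

/-- Insertion of a matrix into the legs 2 and 3. -/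
noncomputable def ins (a b : M16) : M256 := (a ⊗ₖ b).submatrix reA reA

theorem ins_mul (a b a' b' : M16) : ins a b * ins a' b' = ins (a * a') (b * b') := by
  rw [ins, ins, Matrix.submatrix_mul_equiv, ← Matrix.mul_kronecker_mul, ins]

theorem ins_one : ins 1 1 = 1 := by
  rw [ins, Matrix.one_kronecker_one, Matrix.submatrix_one_equiv]

theorem ins_conjTranspose (a b : M16) : (ins a b)ᴴ = ins aᴴ bᴴ := by
  rw [ins, Matrix.conjTranspose_submatrix, Matrix.conjTranspose_kronecker, ins]

theorem ins_apply (a b : M16) (p q : I16 × I16) :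
    ins a b p q = a (p.1.1, p.2.2) (q.1.1, q.2.2) * b (p.1.2, p.2.1) (q.1.2, q.2.1) := rfl

theorem ins_add_left (a a' b : M16) : ins (a + a') b = ins a b + ins a' b := by
  ext p q
  simp only [ins_apply, Matrix.add_apply]
  ring

theorem ins_sum_right {ι : Type} (s : Finset ι) (a : M16) (f : ι → M16) :
    ins a (∑ i ∈ s, f i) = ∑ i ∈ s, ins a (f i) := by
  ext p q
  simp only [ins_apply, Matrix.sum_apply, Finset.mul_sum]

theorem ins_smul_left (r : ℂ) (a b : M16) : ins (r • a) b = r • ins a b := by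
  ext p q
  simp only [ins_apply, Matrix.smul_apply, smul_eq_mul]
  ring

theorem ins_smul_right (r : ℂ) (a b : M16) : ins a (r • b) = r • ins a b := by
  ext p q
  simp only [ins_apply, Matrix.smul_apply, smul_eq_mul]
  ring

theorem ins_zero_left (b : M16) : ins 0 b = 0 := by
  ext p q
  simp only [ins_apply, Matrix.zero_apply, zero_mul]

theorem ins_zero_right (b : M16) : ins b 0 = 0 := by
  ext p q
  simp only [ins_apply, Matrix.zero_apply, mul_zero]

theorem ins_W (κ κ' μ : Gam) : ins (W κ κ') (W μ μ) = W κ μ ⊗ₖ W μ κ' := by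
  ext p q
  simp only [ins_apply, W, Matrix.kroneckerMap_apply]
  ring

theorem continuous_ins {Y : Type} [TopologicalSpace Y] {f : Y → M16} (hf : Continuous f)
    (b : M16) : Continuous fun y => ins (f y) b :=
  (continuous_kron hf continuous_const).matrix_submatrix _ _

namespace Data

variable {X : Type} [Group X] [TopologicalSpace X] {N : ℕ} (D : Data X N)

section

variable [IsTopologicalGroup X]

/-- The comultiplication on the ambient algebra. -/
noncomputable def comulHom : C(X, M16) →⋆ₐ[ℂ] C(X × X, M256) where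
  toFun a := ⟨fun p => ∑ k, ins (a (p.1 * D.k k * p.2)) (E k), by
    refine continuous_finsetSum _ fun k _ => continuous_ins ?_ _
    exact a.continuous.comp ((continuous_fst.mul continuous_const).mul continuous_snd)⟩
  map_one' := by
    ext1 p
    change ∑ k, ins (1 : M16) (E k) = 1
    rw [← ins_sum_right, sum_E, ins_one]
  map_mul' a b := by
    ext1 p
    change ∑ k, ins (a (p.1 * D.k k * p.2) * b (p.1 * D.k k * p.2)) (E k) =
      (∑ k, ins (a (p.1 * D.k k * p.2)) (E k)) * (∑ k, ins (b (p.1 * D.k k * p.2)) (E k))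
    rw [Finset.sum_mul_sum]
    refine Finset.sum_congr rfl fun k _ => ?_
    rw [Finset.sum_eq_single k]
    · rw [ins_mul, E_mul_E, if_pos rfl]
    · intro l _ hl
      rw [ins_mul, E_mul_E, if_neg (Ne.symm hl), ins_zero_right]
    · intro h; exact absurd (Finset.mem_univ _) h
  map_zero' := by
    ext1 p
    change ∑ k, ins (0 : M16) (E k) = 0
    exact Finset.sum_eq_zero fun k _ => ins_zero_left _
  map_add' a b := by
    ext1 p
    change ∑ k, ins (a (p.1 * D.k k * p.2) + b (p.1 * D.k k * p.2)) (E k) =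
      (∑ k, ins (a (p.1 * D.k k * p.2)) (E k)) + (∑ k, ins (b (p.1 * D.k k * p.2)) (E k))
    rw [← Finset.sum_add_distrib]
    exact Finset.sum_congr rfl fun k _ => ins_add_left _ _ _
  commutes' r := by
    ext1 p
    change ∑ k, ins ((algebraMap ℂ C(X, M16) r) (p.1 * D.k k * p.2)) (E k) = _
    rw [cm_algebraMap_apply]
    have : ∀ k, ins ((algebraMap ℂ C(X, M16) r) (p.1 * D.k k * p.2)) (E k) =
        r • ins 1 (E k) := fun k => by rw [cm_algebraMap_apply, ins_smul_left]
    rw [Finset.sum_congr rfl fun k _ => this k, ← Finset.smul_sum, ← ins_sum_right, sum_E,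
      ins_one]
  map_star' a := by
    ext1 p
    change ∑ k, ins (star a (p.1 * D.k k * p.2)) (E k) =
      (∑ k, ins (a (p.1 * D.k k * p.2)) (E k))ᴴ
    rw [Matrix.conjTranspose_sum]
    refine Finset.sum_congr rfl fun k _ => ?_
    rw [ins_conjTranspose, E_conjTranspose, ContinuousMap.star_apply]
    rfl

theorem comulHom_apply (a : C(X, M16)) (p : X × X) :
    D.comulHom a p = ∑ k, ins (a (p.1 * D.k k * p.2)) (E k) := rfl

theorem comulHom_w (i j : Fin N) : D.comulHom (D.w i j) = ∑ l, kr (D.w i l) (D.w l j) := by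
  ext1 p
  rw [comulHom_apply, ContinuousMap.coe_sum, Finset.sum_apply]
  have h1 : ∀ η, ins (D.w i j (p.1 * D.k η * p.2)) (E η) =
      ∑ l, (D.U p.1 i l * D.U p.2 l j) • (ins (W (D.κ i) (D.κ j)) (sg (om η (D.κ l)) • E η)) := by
    intro η
    rw [w_apply, D.map_mul, Matrix.mul_apply, ins_smul_left, Finset.sum_smul]
    refine Finset.sum_congr rfl fun l _ => ?_
    rw [U_mul_k, ins_smul_right, smul_smul]
    congr 1
    ring
  rw [Finset.sum_congr rfl fun η _ => h1 η, Finset.sum_comm]
  refine Finset.sum_congr rfl fun l _ => ?_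
  rw [← Finset.smul_sum, ← ins_sum_right, sum_sg_E, ins_W, kr_apply, w_apply, w_apply,
    Matrix.smul_kronecker, Matrix.kronecker_smul, smul_smul]

variable [CompactSpace X]

theorem comulHom_mem {a : C(X, M16)} (ha : a ∈ D.alg) : D.comulHom a ∈ D.tsq := by
  have hc : Continuous (D.comulHom : C(X, M16) → C(X × X, M256)) :=
    continuous_starHom D.comulHom
  have : D.alg ≤ D.tsq.comap D.comulHom := by
    refine D.alg_le _ (D.tsq_closed.preimage hc) ?_
    intro i j
    change D.comulHom (D.w i j) ∈ D.tsq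
    rw [comulHom_w]
    exact sum_mem fun l _ => D.kr_mem (D.w_mem _ _) (D.w_mem _ _)
  exact this ha

/-- The comultiplication. -/
noncomputable def comul : D.alg →⋆ₐ[ℂ] D.tsq :=
  (D.comulHom.comp D.alg.subtype).codRestrict D.tsq (fun a => D.comulHom_mem a.2)

theorem comul_coe (a : D.alg) : (D.comul a : C(X × X, M256)) = D.comulHom a.1 := rfl

/-- The fundamental representation. -/
noncomputable def u : Matrix (Fin N) (Fin N) D.alg := Matrix.of fun i j => ⟨D.w i j, D.w_mem i j⟩

theorem u_coe (i j : Fin N) : (D.u i j : C(X, M16)) = D.w i j := rfl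

theorem u_mul_star : D.u * star D.u = 1 := by
  refine Matrix.ext fun i j => ?_
  apply Subtype.ext
  rw [Matrix.mul_apply]
  ext1 x
  have h1 : ((∑ l, D.u i l * (star D.u) l j : D.alg) : C(X, M16)) x =
      ∑ l, D.w i l x * (star (D.w j l)) x := by
    rw [AddSubmonoidClass.coe_finset_sum, ContinuousMap.coe_sum, Finset.sum_apply]
    rfl
  rw [h1]
  have h2 : ∀ l, D.w i l x * (star (D.w j l)) x =
      (D.U x i l * D.U x j l) • ((Heis.X (D.κ i) * (Heis.X (D.κ j))ᴴ) ⊗ₖ (1 : Matrix T2 T2 ℂ)) := by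
    intro l
    rw [w_apply, star_w_apply, Matrix.smul_mul, Matrix.mul_smul, smul_smul, W, W,
      Matrix.conjTranspose_kronecker, ← Matrix.mul_kronecker_mul, X_mul_conjTranspose]
  rw [Finset.sum_congr rfl fun l _ => h2 l, ← Finset.sum_smul]
  have h3 : ∑ l, D.U x i l * D.U x j l = (1 : Matrix (Fin N) (Fin N) ℂ) i j := by
    rw [← D.orth x, Matrix.mul_apply]
    rfl
  rw [h3, Matrix.one_apply, Matrix.one_apply]
  by_cases h : i = j
  · subst h
    rw [if_pos rfl, if_pos rfl, one_smul, X_mul_conjTranspose, Matrix.one_kronecker_one]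
    rfl
  · rw [if_neg h, if_neg h, zero_smul]
    rfl

theorem star_mul_u : star D.u * D.u = 1 := by
  refine Matrix.ext fun i j => ?_
  apply Subtype.ext
  rw [Matrix.mul_apply]
  ext1 x
  have h1 : ((∑ l, (star D.u) i l * D.u l j : D.alg) : C(X, M16)) x =
      ∑ l, (star (D.w l i)) x * D.w l j x := by
    rw [AddSubmonoidClass.coe_finset_sum, ContinuousMap.coe_sum, Finset.sum_apply]
    rfl
  rw [h1]
  have h2 : ∀ l, (star (D.w l i)) x * D.w l j x =
      (D.U x l i * D.U x l j) • ((1 : Matrix T2 T2 ℂ) ⊗ₖ ((Heis.X (D.κ i))ᴴ * Heis.X (D.κ j))) := by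
    intro l
    rw [w_apply, star_w_apply, Matrix.smul_mul, Matrix.mul_smul, smul_smul, W, W,
      Matrix.conjTranspose_kronecker, ← Matrix.mul_kronecker_mul, X_conjTranspose_mul]
  rw [Finset.sum_congr rfl fun l _ => h2 l, ← Finset.sum_smul]
  have h3 : ∑ l, D.U x l i * D.U x l j = (1 : Matrix (Fin N) (Fin N) ℂ) i j := by
    rw [← D.orth' x, Matrix.mul_apply]
    rfl
  rw [h3, Matrix.one_apply, Matrix.one_apply]
  by_cases h : i = j
  · subst h
    rw [if_pos rfl, if_pos rfl, one_smul, X_conjTranspose_mul, Matrix.one_kronecker_one]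
    rfl
  · rw [if_neg h, if_neg h, zero_smul]
    rfl

theorem generates : Generates D.u := by
  intro b
  change b ∈ closure (StarAlgebra.adjoin ℂ {a : D.alg | ∃ i j, a = D.u i j} : Set D.alg)
  rw [Topology.IsInducing.subtypeVal.closure_eq_preimage_closure_image, Set.mem_preimage]
  have h1 : (b : C(X, M16)) ∈ closure (StarAlgebra.adjoin ℂ {a : C(X, M16) | ∃ i j, a = D.w i j} :
    Set C(X, M16)) := b.2
  refine closure_mono ?_ h1
  have h2 : StarAlgebra.adjoin ℂ {a : C(X, M16) | ∃ i j, a = D.w i j} =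
      (StarAlgebra.adjoin ℂ {a : D.alg | ∃ i j, a = D.u i j}).map D.alg.subtype := by
    rw [StarAlgHom.map_adjoin]
    congr 1
    ext a
    constructor
    · rintro ⟨i, j, rfl⟩
      exact ⟨D.u i j, ⟨i, j, rfl⟩, rfl⟩
    · rintro ⟨_, ⟨i, j, rfl⟩, rfl⟩
      exact ⟨i, j, rfl⟩
  rw [h2]
  rintro _ ⟨a, ha, rfl⟩
  exact ⟨a, ha, rfl⟩

theorem comul_u (i j : Fin N) : D.comul (D.u i j) = ∑ l, D.i₁ (D.u i l) * D.i₂ (D.u l j) := by
  apply Subtype.ext
  rw [comul_coe, u_coe, comulHom_w, AddSubmonoidClass.coe_finset_sum]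
  exact Finset.sum_congr rfl fun l _ => (D.i_mul_coe (D.u i l) (D.u l j)).symm

/-- The compact matrix quantum group. -/
noncomputable def cqg : CMQG N where
  A := D.alg
  u := D.u
  T := D.tensorSquare
  Δ := D.comul
  ε := D.counit
  S := D.antipode
  unitary_u := ⟨D.u_mul_star, D.star_mul_u⟩
  generates := D.generates
  comatrix_u := D.comul_u
  counit_u := D.counit_w
  antipode_u := D.antipode_w

end

end Data

end Pool.Agent.CQG
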