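import Mathlib
import Pool.Agent.helper50.TwistCQG

/-!
The algebra of the twist contains all homogeneous functions.
-/

set_option autoImplicit false

namespace Pool.Agent.CQG

open scoped Matrix.Norms.L2Operator Kronecker TensorProduct
open Matrix Pool.Agent.Heis

/-- pairs of degrees -/
abbrev Gam2 : Type := Gam × Gam

/-- the characters of `F₂⁸` -/
noncomputable def ch (p q : Gam2) : ℂ := sg (om p.1 q.1) * sg (om p.2 q.2)

theorem ch_zero_left (q : Gam2) : ch 0 q = 1 := by
  simp [ch, om_zero_left, sg_zero]

theorem ch_zero_right (q : Gam2) : ch q 0 = 1 := by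
  simp [ch, om_zero_right, sg_zero]

theorem ch_add_left (p p' q : Gam2) : ch (p + p') q = ch p q * ch p' q := by
  simp only [ch, Prod.fst_add, Prod.snd_add, om_add_left, sg_add]; ring

theorem ch_add_right (p q q' : Gam2) : ch p (q + q') = ch p q * ch p q' := by
  simp only [ch, Prod.fst_add, Prod.snd_add, om_add_right, sg_add]; ring

theorem ch_mul_self (p q : Gam2) : ch p q * ch p q = 1 := by
  have h1 := sg_mul_self (om p.1 q.1)
  have h2 := sg_mul_self (om p.2 q.2)
  calc ch p q * ch p q = (sg (om p.1 q.1) * sg (om p.1 q.1)) * (sg (om p.2 q.2) * sg (om p.2 q.2)) := by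
        simp only [ch]; ring
    _ = 1 := by rw [h1, h2, one_mul]

theorem star_ch (p q : Gam2) : star (ch p q) = ch p q := by
  rw [ch, star_mul', star_sg, star_sg]

theorem gam2_add_self (p : Gam2) : p + p = 0 := by
  ext1
  · exact gam_add_self p.1
  · exact gam_add_self p.2

theorem sum_ch (p : Gam2) : ∑ q : Gam2, ch p q = if p = 0 then 256 else 0 := by
  have h1 : ∀ κ : Gam, ∑ η : Gam, sg (om κ η) = if κ = 0 then 16 else 0 := by
    intro κ
    rw [← sum_sg_om]
    exact Finset.sum_congr rfl fun η _ => by rw [om_comm]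
  rw [Fintype.sum_prod_type]
  simp only [ch]
  simp only [← Finset.mul_sum, h1, ← Finset.sum_mul]
  by_cases hp1 : p.1 = 0
  · by_cases hp2 : p.2 = 0
    · have : p = 0 := Prod.ext hp1 hp2
      rw [if_pos hp1, if_pos hp2, if_pos this]; norm_num
    · have : p ≠ 0 := fun h => hp2 (by rw [h]; rfl)
      rw [if_neg hp2, if_neg this, mul_zero]
  · have : p ≠ 0 := fun h => hp1 (by rw [h]; rfl)
    rw [if_neg hp1, if_neg this, zero_mul]

theorem ch_comm (p q : Gam2) : ch p q = ch q p := by
  rw [ch, ch, om_comm p.1, om_comm p.2]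

/-- `W` with a pair of degrees. -/
noncomputable def W2 (q : Gam2) : M16 := W q.1 q.2

theorem W2_zero : W2 0 = 1 := W_zero

theorem W2_mul (q r : Gam2) : ∃ c : ℂ, c * c = 1 ∧ W2 q * W2 r = c • W2 (q + r) := by
  refine ⟨_, ?_, W_mul q.1 q.2 r.1 r.2⟩
  have h1 := sg_mul_self (dot q.1.2 r.1.1)
  have h2 := sg_mul_self (dot q.2.2 r.2.1)
  linear_combination h1 * sg (dot q.2.2 r.2.1) * sg (dot q.2.2 r.2.1) + h2

theorem W2_conjTranspose (q : Gam2) : ∃ c : ℂ, c * c = 1 ∧ (W2 q)ᴴ = c • W2 q := by
  refine ⟨_, ?_, W_conjTranspose q.1 q.2⟩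
  have h1 := sg_mul_self (dot q.1.1 q.1.2)
  have h2 := sg_mul_self (dot q.2.1 q.2.2)
  linear_combination h1 * sg (dot q.2.1 q.2.2) * sg (dot q.2.1 q.2.2) + h2

/-- `x ↦ f x • m` -/
noncomputable def sm {Y : Type} [TopologicalSpace Y] (m : M16) (f : C(Y, ℂ)) : C(Y, M16) :=
  (⟨fun c : ℂ => c • m, continuous_id.smul continuous_const⟩ : C(ℂ, M16)).comp f

theorem sm_apply {Y : Type} [TopologicalSpace Y] (m : M16) (f : C(Y, ℂ)) (y : Y) :
    sm m f y = f y • m := rfl

theorem continuous_sm {Y : Type} [TopologicalSpace Y] (m : M16) :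
    Continuous (sm m : C(Y, ℂ) → C(Y, M16)) := ContinuousMap.continuous_postcomp _

namespace Data

variable {X : Type} [Group X] [TopologicalSpace X] {N : ℕ} (D : Data X N)

/-- The two-sided action. -/
def act (p : Gam2) (x : X) : X := D.k p.1 * x * D.k p.2

theorem act_zero (x : X) : D.act 0 x = x := by
  change D.k 0 * x * D.k 0 = x
  rw [k_zero, one_mul, mul_one]

theorem k_comm (η η' : Gam) : D.k η * D.k η' = D.k η' * D.k η := by
  rw [← k_add, ← k_add, add_comm]

theorem act_act (p q : Gam2) (x : X) : D.act p (D.act q x) = D.act (p + q) x := by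
  change D.k p.1 * (D.k q.1 * x * D.k q.2) * D.k p.2 = D.k (p.1 + q.1) * x * D.k (p.2 + q.2)
  rw [k_add, k_add, D.k_comm p.2]
  simp only [mul_assoc]

theorem U_act (p : Gam2) (x : X) (i j : Fin N) :
    D.U (D.act p x) i j = ch p (D.κ i, D.κ j) * D.U x i j := by
  rw [act, U_mul_k, U_k_mul, ch]
  ring

variable [IsTopologicalGroup X]

theorem continuous_act (p : Gam2) : Continuous (D.act p) :=
  (continuous_const.mul continuous_id).mul continuous_const

/-- The action as a continuous map -/
def actC (p : Gam2) : C(X, X) := ⟨D.act p, D.continuous_act p⟩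

/-- The projection onto the functions of degree `q`. -/
noncomputable def proj (q : Gam2) (f : C(X, ℂ)) : C(X, ℂ) :=
  (1 / 256 : ℂ) • ∑ p, ch p q • f.comp (D.actC p)

theorem proj_apply (q : Gam2) (f : C(X, ℂ)) (x : X) :
    D.proj q f x = (1 / 256 : ℂ) * ∑ p, ch p q * f (D.act p x) := by
  rw [proj, ContinuousMap.smul_apply, ContinuousMap.coe_sum, Finset.sum_apply, smul_eq_mul]
  rfl

theorem proj_act (q : Gam2) (f : C(X, ℂ)) (p : Gam2) (x : X) :
    D.proj q f (D.act p x) = ch p q * D.proj q f x := by
  rw [proj_apply, proj_apply, mul_left_comm]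
  congr 1
  rw [Finset.mul_sum]
  refine Fintype.sum_equiv (Equiv.addRight p) _ _ fun r => ?_
  rw [Equiv.coe_addRight, act_act, ch_add_left]
  linear_combination -(ch r q * f (D.act (r + p) x)) * ch_mul_self p q

theorem sum_proj (f : C(X, ℂ)) (x : X) : ∑ q, D.proj q f x = f x := by
  simp only [proj_apply]
  rw [← Finset.mul_sum, Finset.sum_comm]
  simp only [← Finset.sum_mul]
  have : ∀ p, ∑ q, ch p q * f (D.act p x) = if p = 0 then 256 * f x else 0 := by
    intro p
    rw [← Finset.sum_mul, sum_ch]
    by_cases h : p = 0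
    · subst h
      rw [if_pos rfl, if_pos rfl, act_zero]
    · rw [if_neg h, if_neg h, zero_mul]
  simp only [sum_ch]
  rw [Finset.sum_eq_single 0]
  · rw [if_pos rfl, act_zero]; ring
  · intro p _ h; rw [if_neg h, zero_mul]
  · intro h; exact absurd (Finset.mem_univ _) h

theorem proj_of_homog (f : C(X, ℂ)) (q r : Gam2) (hf : ∀ p x, f (D.act p x) = ch p r * f x) :
    D.proj q f = if q = r then f else 0 := by
  ext1 x
  rw [proj_apply]
  have : ∀ p, ch p q * f (D.act p x) = ch (q + r) p * f x := by
    intro p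
    rw [hf, ← mul_assoc, ch_comm (q + r) p, ch_add_right]
  simp only [this]
  rw [← Finset.sum_mul, sum_ch]
  by_cases h : q = r
  · subst h
    rw [gam2_add_self, if_pos rfl, if_pos rfl]; ring
  · have h2 : q + r ≠ 0 := by
      intro h3
      apply h
      calc q = q + (r + r) := by rw [gam2_add_self, add_zero]
        _ = (q + r) + r := by rw [add_assoc]
        _ = r := by rw [h3, zero_add]
    rw [if_neg h, if_neg h2, zero_mul, mul_zero]
    rfl

theorem proj_mul (f g : C(X, ℂ)) (q : Gam2) (x : X) :
    D.proj q (f * g) x = ∑ r, D.proj r f x * D.proj (q + r) g x := by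
  rw [proj_apply]
  have h1 : ∀ p, ch p q * (f * g) (D.act p x) =
      ∑ r, D.proj r f x * (ch p (q + r) * g (D.act p x)) := by
    intro p
    rw [ContinuousMap.mul_apply, ← D.sum_proj f, Finset.sum_mul, Finset.mul_sum]
    refine Finset.sum_congr rfl fun r _ => ?_
    rw [proj_act, ch_add_right]
    ring
  simp only [h1]
  rw [Finset.sum_comm, Finset.mul_sum]
  refine Finset.sum_congr rfl fun r _ => ?_
  rw [proj_apply D (q + r), ← Finset.mul_sum]
  ring

theorem proj_star (f : C(X, ℂ)) (q : Gam2) : D.proj q (star f) = star (D.proj q f) := by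
  ext1 x
  rw [ContinuousMap.star_apply, proj_apply, proj_apply, star_mul', star_sum]
  congr 1
  · simp
  · refine Finset.sum_congr rfl fun p _ => ?_
    rw [star_mul', star_ch, ContinuousMap.star_apply]

theorem proj_add (f g : C(X, ℂ)) (q : Gam2) : D.proj q (f + g) = D.proj q f + D.proj q g := by
  ext1 x
  rw [ContinuousMap.add_apply, proj_apply, proj_apply, proj_apply, ← mul_add,
    ← Finset.sum_add_distrib]
  congr 1
  refine Finset.sum_congr rfl fun p _ => ?_
  rw [ContinuousMap.add_apply]
  ring

theorem continuous_proj (q : Gam2) : Continuous (D.proj q) := by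
  have h0 : ∀ p, Continuous fun f : C(X, ℂ) => ch p q • f.comp (D.actC p) := by
    intro p
    have h1 : Continuous fun f : C(X, ℂ) => f.comp (D.actC p) :=
      ContinuousMap.continuous_precomp (D.actC p)
    exact h1.const_smul (ch p q)
  have h : Continuous fun f : C(X, ℂ) => ∑ p, ch p q • f.comp (D.actC p) :=
    continuous_finsetSum _ fun p _ => h0 p
  have h2 : D.proj q = fun f : C(X, ℂ) => (1 / 256 : ℂ) • ∑ p, ch p q • f.comp (D.actC p) := by
    funext f
    rw [proj]
  rw [h2]
  have h3 : Continuous fun g : C(X, ℂ) => (1 / 256 : ℂ) • g :=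
    continuous_id.const_smul (1 / 256 : ℂ)
  exact h3.comp h

variable [CompactSpace X]

/-- The functions all of whose homogeneous components come from the algebra of the twist. -/
noncomputable def good : StarSubalgebra ℂ C(X, ℂ) where
  carrier := {f | ∀ q, sm (W2 q) (D.proj q f) ∈ D.alg}
  mul_mem' := by
    intro f g hf hg q
    have h1 : sm (W2 q) (D.proj q (f * g)) =
        ∑ r, sm (W2 q) (D.proj r f * D.proj (q + r) g) := by
      ext1 x
      rw [sm_apply, proj_mul, ContinuousMap.coe_sum, Finset.sum_apply, Finset.sum_smul]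
      rfl
    rw [h1]
    refine sum_mem fun r _ => ?_
    obtain ⟨c, hc, hW⟩ := W2_mul r (q + r)
    have hqr : r + (q + r) = q := by
      rw [add_comm, add_assoc, gam2_add_self, add_zero]
    have h2 : sm (W2 q) (D.proj r f * D.proj (q + r) g) =
        c • (sm (W2 r) (D.proj r f) * sm (W2 (q + r)) (D.proj (q + r) g)) := by
      ext1 x
      rw [ContinuousMap.smul_apply, ContinuousMap.mul_apply, sm_apply, sm_apply, sm_apply,
        ContinuousMap.mul_apply, Matrix.smul_mul, Matrix.mul_smul, hW, hqr]
      simp only [smul_smul]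
      congr 1
      linear_combination -(D.proj r f x * D.proj (q + r) g x) * hc
    rw [h2]
    exact SMulMemClass.smul_mem _ (mul_mem (hf r) (hg (q + r)))
  add_mem' := by
    intro f g hf hg q
    have h1 : sm (W2 q) (D.proj q (f + g)) =
        sm (W2 q) (D.proj q f) + sm (W2 q) (D.proj q g) := by
      ext1 x
      rw [ContinuousMap.add_apply, sm_apply, sm_apply, sm_apply, proj_add,
        ContinuousMap.add_apply, add_smul]
    rw [h1]
    exact add_mem (hf q) (hg q)
  algebraMap_mem' := by
    intro c q
    rw [D.proj_of_homog _ q 0 (fun p x => by rw [ch_zero_right, one_mul]; rfl)]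
    by_cases h : q = 0
    · subst h
      rw [if_pos rfl, W2_zero]
      have : sm 1 (algebraMap ℂ C(X, ℂ) c) = algebraMap ℂ C(X, M16) c := by
        ext1 x
        rw [cm_algebraMap_apply]
        rfl
      rw [this]
      exact algebraMap_mem _ _
    · rw [if_neg h]
      have : sm (W2 q) (0 : C(X, ℂ)) = 0 := by
        ext1 x
        rw [sm_apply, ContinuousMap.zero_apply, zero_smul]
        rfl
      rw [this]
      exact zero_mem _
  star_mem' := by
    intro f hf q
    obtain ⟨c, hc, hW⟩ := W2_conjTranspose q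
    have h1 : sm (W2 q) (D.proj q (star f)) = c • star (sm (W2 q) (D.proj q f)) := by
      ext1 x
      rw [ContinuousMap.smul_apply, ContinuousMap.star_apply, sm_apply, sm_apply, proj_star,
        ContinuousMap.star_apply, Matrix.star_eq_conjTranspose, Matrix.conjTranspose_smul, hW,
        smul_smul, smul_smul]
      congr 1
      linear_combination -(star (D.proj q f x)) * hc
    rw [h1]
    exact SMulMemClass.smul_mem _ (star_mem (hf q))

theorem good_closed : IsClosed (D.good : Set C(X, ℂ)) := by
  have : (D.good : Set C(X, ℂ)) = ⋂ q, {f | sm (W2 q) (D.proj q f) ∈ D.alg} := by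
    ext f
    simp only [Set.mem_iInter]
    rfl
  rw [this]
  exact isClosed_iInter fun q =>
    D.alg_closed.preimage ((continuous_sm _).comp (D.continuous_proj q))

/-- The entries as continuous functions -/
def entry (i j : Fin N) : C(X, ℂ) := ⟨fun x => D.U x i j, D.continuous_entry i j⟩

theorem entry_mem (i j : Fin N) : D.entry i j ∈ D.good := by
  intro q
  rw [D.proj_of_homog (D.entry i j) q (D.κ i, D.κ j) (fun p x => D.U_act p x i j)]
  by_cases h : q = (D.κ i, D.κ j)
  · subst h
    rw [if_pos rfl]
    exact D.w_mem i j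
  · rw [if_neg h]
    have : sm (W2 q) (0 : C(X, ℂ)) = 0 := by
      ext1 x
      rw [sm_apply, ContinuousMap.zero_apply, zero_smul]
      rfl
    rw [this]
    exact zero_mem _

theorem good_eq_top : D.good = ⊤ := by
  have h1 : D.good.topologicalClosure = ⊤ := by
    refine ContinuousMap.starSubalgebra_topologicalClosure_eq_top_of_separatesPoints _ ?_
    intro x y hxy
    by_contra hcon
    apply hxy
    apply D.inj
    ext i j
    by_contra hne
    apply hcon
    exact ⟨D.entry i j, ⟨D.entry i j, D.entry_mem i j, rfl⟩, hne⟩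
  have h2 : D.good.topologicalClosure = D.good := by
    refine le_antisymm (StarSubalgebra.topologicalClosure_minimal le_rfl D.good_closed)
      (StarSubalgebra.le_topologicalClosure _)
  rw [← h2, h1]

/-- Every homogeneous function comes from the algebra of the twist. -/
theorem full (f : C(X, ℂ)) (q : Gam2) (hf : ∀ p x, f (D.act p x) = ch p q * f x) :
    sm (W2 q) f ∈ D.alg := by
  have h1 : f ∈ D.good := by rw [good_eq_top]; trivial
  have h2 := h1 q
  rwa [D.proj_of_homog f q q hf, if_pos rfl] at h2

/-- Every invariant function comes from the algebra of the twist. -/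
theorem full_inv (f : C(X, ℂ)) (hf : ∀ p x, f (D.act p x) = f x) : sm 1 f ∈ D.alg := by
  have := D.full f 0 (fun p x => by rw [ch_zero_right, one_mul, hf])
  rwa [W2_zero] at this

end Data

end Pool.Agent.CQG
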