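import Mathlib
import Pool.Agent.helper50.TwistFull

/-!
The twist of a connected group is connected.
-/

set_option autoImplicit false

namespace Pool.Agent.CQG

open scoped Matrix.Norms.L2Operator Kronecker TensorProduct
open Matrix Pool.Agent.Heis

theorem kron_cancel_left {e a b : M16} (he : e ≠ 0) (h : e ⊗ₖ a = e ⊗ₖ b) : a = b := by
  have : ∃ p q, e p q ≠ 0 := by
    by_contra hcon
    push Not at hcon
    exact he (Matrix.ext fun p q => hcon p q)
  obtain ⟨p, q, hpq⟩ := this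
  ext r s
  have h2 := congr_fun (congr_fun h (p, r)) (q, s)
  rw [Matrix.kroneckerMap_apply, Matrix.kroneckerMap_apply] at h2
  exact mul_left_cancel₀ hpq h2

theorem kron_cancel_right {e a b : M16} (he : e ≠ 0) (h : a ⊗ₖ e = b ⊗ₖ e) : a = b := by
  have : ∃ p q, e p q ≠ 0 := by
    by_contra hcon
    push Not at hcon
    exact he (Matrix.ext fun p q => hcon p q)
  obtain ⟨p, q, hpq⟩ := this
  ext r s
  have h2 := congr_fun (congr_fun h (r, p)) (s, q)
  rw [Matrix.kroneckerMap_apply, Matrix.kroneckerMap_apply] at h2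
  exact mul_right_cancel₀ hpq h2

theorem W2_mul_conjTranspose (q : Gam2) : W2 q * (W2 q)ᴴ = 1 := W_mul_conjTranspose _ _

theorem W2_conjTranspose_mul (q : Gam2) : (W2 q)ᴴ * W2 q = 1 := W_conjTranspose_mul _ _

theorem W2_conj (p q : Gam2) : W2 p * W2 q * (W2 p)ᴴ = ch p q • W2 q := W_conj _ _ _ _

theorem W2_twirl (M : M16) :
    ∑ p : Gam2, W2 p * M * (W2 p)ᴴ = (16 * M.trace) • (1 : M16) := by
  rw [Fintype.sum_prod_type]
  exact W_twirl M

/-- The coefficient of `W2 q` -/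
noncomputable def cf (q : Gam2) (M : M16) : ℂ := (1 / 16 : ℂ) * (M * (W2 q)ᴴ).trace

theorem W2_conj' (p q : Gam2) : (W2 q)ᴴ * (W2 p)ᴴ = ch p q • ((W2 p)ᴴ * (W2 q)ᴴ) := by
  have h := congr_arg Matrix.conjTranspose (W2_conj p q)
  rw [Matrix.conjTranspose_mul, Matrix.conjTranspose_mul, Matrix.conjTranspose_conjTranspose,
    Matrix.conjTranspose_smul, star_ch] at h
  -- W2 p * ((W2 q)ᴴ * (W2 p)ᴴ) = ch • (W2 q)ᴴ
  calc (W2 q)ᴴ * (W2 p)ᴴ = ((W2 p)ᴴ * W2 p) * ((W2 q)ᴴ * (W2 p)ᴴ) := by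
        rw [W2_conjTranspose_mul, Matrix.one_mul]
    _ = (W2 p)ᴴ * (W2 p * ((W2 q)ᴴ * (W2 p)ᴴ)) := by rw [Matrix.mul_assoc]
    _ = _ := by rw [h, Matrix.mul_smul]

theorem avg_eq (q : Gam2) (M : M16) :
    (1 / 256 : ℂ) • ∑ p, ch p q • (W2 p * M * (W2 p)ᴴ) = cf q M • W2 q := by
  have h1 := W2_twirl (M * (W2 q)ᴴ)
  have h2 : ∀ p, W2 p * (M * (W2 q)ᴴ) * (W2 p)ᴴ = (ch p q • (W2 p * M * (W2 p)ᴴ)) * (W2 q)ᴴ := by
    intro p
    calc W2 p * (M * (W2 q)ᴴ) * (W2 p)ᴴ = W2 p * M * ((W2 q)ᴴ * (W2 p)ᴴ) := by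
          simp only [Matrix.mul_assoc]
      _ = ch p q • (W2 p * M * ((W2 p)ᴴ * (W2 q)ᴴ)) := by rw [W2_conj', Matrix.mul_smul]
      _ = _ := by simp only [Matrix.mul_assoc, Matrix.smul_mul]
  simp only [h2] at h1
  rw [← Finset.sum_mul] at h1
  have h3 : ∑ p, ch p q • (W2 p * M * (W2 p)ᴴ) = (16 * (M * (W2 q)ᴴ).trace) • W2 q := by
    calc ∑ p, ch p q • (W2 p * M * (W2 p)ᴴ)
        = (∑ p, ch p q • (W2 p * M * (W2 p)ᴴ)) * ((W2 q)ᴴ * W2 q) := by
          rw [W2_conjTranspose_mul, Matrix.mul_one]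
      _ = ((∑ p, ch p q • (W2 p * M * (W2 p)ᴴ)) * (W2 q)ᴴ) * W2 q := by rw [Matrix.mul_assoc]
      _ = _ := by rw [h1, Matrix.smul_mul, Matrix.one_mul]
  rw [h3, smul_smul, cf]
  congr 1
  ring

theorem sum_cf (M : M16) : ∑ q, cf q M • W2 q = M := by
  have h1 : ∀ q, cf q M • W2 q = (1 / 256 : ℂ) • ∑ p, ch p q • (W2 p * M * (W2 p)ᴴ) :=
    fun q => (avg_eq q M).symm
  simp only [h1]
  rw [← Finset.smul_sum, Finset.sum_comm]
  simp only [← Finset.sum_smul, sum_ch]
  rw [Finset.sum_eq_single 0]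
  · rw [if_pos rfl, smul_smul, W2_zero, Matrix.one_mul, Matrix.conjTranspose_one, Matrix.mul_one]
    norm_num
  · intro p _ h; rw [if_neg h, zero_smul]
  · intro h; exact absurd (Finset.mem_univ _) h

theorem cf_conj (p q : Gam2) (M : M16) : cf q (W2 p * M * (W2 p)ᴴ) = ch p q * cf q M := by
  rw [cf, cf]
  have : W2 p * M * (W2 p)ᴴ * (W2 q)ᴴ = ch p q • (W2 p * (M * (W2 q)ᴴ) * (W2 p)ᴴ) := by
    have h := W2_conj' p q
    have h2 : (W2 p)ᴴ * (W2 q)ᴴ = ch p q • ((W2 q)ᴴ * (W2 p)ᴴ) := by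
      rw [h, smul_smul, ch_mul_self, one_smul]
    calc W2 p * M * (W2 p)ᴴ * (W2 q)ᴴ = W2 p * M * ((W2 p)ᴴ * (W2 q)ᴴ) := by
          simp only [Matrix.mul_assoc]
      _ = ch p q • (W2 p * M * ((W2 q)ᴴ * (W2 p)ᴴ)) := by rw [h2, Matrix.mul_smul]
      _ = _ := by simp only [Matrix.mul_assoc]
  rw [this, Matrix.trace_smul, Matrix.trace_mul_comm, ← Matrix.mul_assoc, W2_conjTranspose_mul,
    Matrix.one_mul, smul_eq_mul]
  ring

theorem continuous_cf (q : Gam2) : Continuous (cf q) := by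
  unfold cf
  exact continuous_const.mul
    (Continuous.matrix_trace (continuous_id.mul continuous_const))

theorem cf_smul_W2 (q : Gam2) (r : ℂ) : cf q (r • W2 q) = r := by
  rw [cf, Matrix.smul_mul, W2_mul_conjTranspose, Matrix.trace_smul, Matrix.trace_one, smul_eq_mul]
  have : (Fintype.card I16 : ℂ) = 16 := by
    simp only [Fintype.card_prod, ZMod.card]
    norm_num
  rw [this]
  ring

theorem exists_ch_ne (q : Gam2) (h : q ≠ 0) : ∃ p, ch p q ≠ 1 := by
  by_cases h1 : q.1 = 0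
  · have h2 : q.2 ≠ 0 := fun h2 => h (Prod.ext h1 h2)
    obtain ⟨η, hη⟩ := exists_om_ne _ h2
    refine ⟨(0, η), ?_⟩
    rw [ch, om_zero_left, sg_zero, one_mul, hη, sg_one]
    norm_num
  · obtain ⟨η, hη⟩ := exists_om_ne _ h1
    refine ⟨(η, 0), ?_⟩
    rw [ch, om_zero_left, sg_zero, mul_one, hη, sg_one]
    norm_num

namespace Data

variable {X : Type} [Group X] [TopologicalSpace X] {N : ℕ} (D : Data X N) [CompactSpace X]

theorem hom_aux (φ ψ : C(X, M16) →⋆ₐ[ℂ] M256) (hφ : Continuous φ) (hψ : Continuous ψ) (e : M256)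
    (he : eᴴ = e) (hc : ∀ a, e * ψ a = ψ a * e)
    (hg : ∀ i j, e * φ (D.w i j) = e * ψ (D.w i j))
    (hg' : ∀ i j, φ (D.w i j) * e = ψ (D.w i j) * e) {a : C(X, M16)} (ha : a ∈ D.alg) :
    e * φ a = e * ψ a ∧ φ a * e = ψ a * e := by
  let T : StarSubalgebra ℂ C(X, M16) :=
    { carrier := {a | e * φ a = e * ψ a ∧ φ a * e = ψ a * e}
      mul_mem' := by
        rintro a b ⟨h1, h2⟩ ⟨h3, h4⟩
        refine ⟨?_, ?_⟩
        · calc e * φ (a * b) = (e * φ a) * φ b := by rw [_root_.map_mul, Matrix.mul_assoc]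
            _ = ψ a * (e * φ b) := by rw [h1, hc, Matrix.mul_assoc]
            _ = (e * ψ a) * ψ b := by rw [h3, hc a, Matrix.mul_assoc]
            _ = _ := by rw [_root_.map_mul, Matrix.mul_assoc]
        · calc φ (a * b) * e = φ a * (φ b * e) := by rw [_root_.map_mul, Matrix.mul_assoc]
            _ = (φ a * e) * ψ b := by rw [h4, ← hc, Matrix.mul_assoc]
            _ = ψ a * (ψ b * e) := by rw [h2, Matrix.mul_assoc, hc]
            _ = _ := by rw [_root_.map_mul, Matrix.mul_assoc]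
      one_mem' := by
        refine ⟨?_, ?_⟩ <;> rw [map_one, map_one]
      add_mem' := by
        rintro a b ⟨h1, h2⟩ ⟨h3, h4⟩
        refine ⟨?_, ?_⟩
        · rw [map_add, map_add, Matrix.mul_add, Matrix.mul_add, h1, h3]
        · rw [map_add, map_add, Matrix.add_mul, Matrix.add_mul, h2, h4]
      zero_mem' := by
        refine ⟨?_, ?_⟩ <;> rw [map_zero, map_zero]
      algebraMap_mem' := by
        intro r
        refine ⟨?_, ?_⟩ <;> rw [AlgHomClass.commutes, AlgHomClass.commutes]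
      star_mem' := by
        rintro a ⟨h1, h2⟩
        refine ⟨?_, ?_⟩
        · have := congr_arg Matrix.conjTranspose h2
          rw [Matrix.conjTranspose_mul, Matrix.conjTranspose_mul, he] at this
          rw [map_star, map_star]
          exact this
        · have := congr_arg Matrix.conjTranspose h1
          rw [Matrix.conjTranspose_mul, Matrix.conjTranspose_mul, he] at this
          rw [map_star, map_star]
          exact this }
  have hT : IsClosed (T : Set C(X, M16)) :=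
    (isClosed_eq (continuous_const.mul hφ) (continuous_const.mul hψ)).inter
      (isClosed_eq (hφ.mul continuous_const) (hψ.mul continuous_const))
  exact D.alg_le T hT (fun i j => ⟨hg i j, hg' i j⟩) ha

/-- evaluation as a star homomorphism -/
noncomputable def ev2 (p : X × X) : C(X × X, M256) →⋆ₐ[ℂ] M256 where
  toFun f := f p
  map_one' := rfl
  map_mul' _ _ := rfl
  map_zero' := rfl
  map_add' _ _ := rfl
  commutes' r := by
    rw [cm_algebraMap_apply, Algebra.algebraMap_eq_smul_one]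
  map_star' _ := rfl

theorem ev2_apply (p : X × X) (f : C(X × X, M256)) : ev2 p f = f p := rfl

theorem w_one (i j : Fin N) : D.w i j 1 = if i = j then W (D.κ i) (D.κ i) else 0 := by
  rw [w_apply, U_one, Matrix.one_apply]
  by_cases h : i = j
  · subst h
    rw [if_pos rfl, if_pos rfl, one_smul]
  · rw [if_neg h, if_neg h, zero_smul]

variable [IsTopologicalGroup X]

theorem comul_left (η : Gam) {a : C(X, M16)} (ha : a ∈ D.alg) (y : X) :
    (E η ⊗ₖ (1 : M16)) * D.comulHom a (1, y) = E η ⊗ₖ a (D.k η * y) := by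
  have h := D.hom_aux ((ev2 (1, y)).comp D.comulHom) ((ev2 (1, D.k η * y)).comp j₂)
    (continuous_starHom _) (continuous_starHom _) (E η ⊗ₖ (1 : M16))
    (by rw [Matrix.conjTranspose_kronecker, E_conjTranspose, Matrix.conjTranspose_one])
    (by
      intro a
      change (E η ⊗ₖ (1 : M16)) * ((1 : M16) ⊗ₖ a (D.k η * y)) =
        ((1 : M16) ⊗ₖ a (D.k η * y)) * (E η ⊗ₖ (1 : M16))
      rw [← Matrix.mul_kronecker_mul, ← Matrix.mul_kronecker_mul, Matrix.one_mul, Matrix.mul_one,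
        Matrix.one_mul, Matrix.mul_one])
    (by
      intro i j
      change (E η ⊗ₖ (1 : M16)) * D.comulHom (D.w i j) (1, y) =
        (E η ⊗ₖ (1 : M16)) * ((1 : M16) ⊗ₖ D.w i j (D.k η * y))
      rw [comulHom_w, ContinuousMap.coe_sum, Finset.sum_apply, Finset.sum_eq_single i]
      · rw [kr_apply, w_one, if_pos rfl, ← Matrix.mul_kronecker_mul, ← Matrix.mul_kronecker_mul,
          Matrix.one_mul, Matrix.one_mul, Matrix.mul_one, E_mul_W, w_apply, w_apply, U_k_mul,
          Matrix.smul_kronecker, Matrix.kronecker_smul, Matrix.kronecker_smul, smul_smul]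
      · intro l _ hl
        rw [kr_apply, w_one, if_neg (Ne.symm hl), Matrix.zero_kronecker]
      · intro h; exact absurd (Finset.mem_univ _) h)
    (by
      intro i j
      change D.comulHom (D.w i j) (1, y) * (E η ⊗ₖ (1 : M16)) =
        ((1 : M16) ⊗ₖ D.w i j (D.k η * y)) * (E η ⊗ₖ (1 : M16))
      rw [comulHom_w, ContinuousMap.coe_sum, Finset.sum_apply, Finset.sum_eq_single i]
      · rw [kr_apply, w_one, if_pos rfl, ← Matrix.mul_kronecker_mul, ← Matrix.mul_kronecker_mul,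
          Matrix.one_mul, Matrix.mul_one, Matrix.mul_one, W_mul_E, w_apply, w_apply, U_k_mul,
          Matrix.smul_kronecker, Matrix.kronecker_smul, Matrix.kronecker_smul, smul_smul,
          om_comm]
      · intro l _ hl
        rw [kr_apply, w_one, if_neg (Ne.symm hl), Matrix.zero_kronecker]
      · intro h; exact absurd (Finset.mem_univ _) h) ha
  have h1 := h.1
  change (E η ⊗ₖ (1 : M16)) * D.comulHom a (1, y) =
    (E η ⊗ₖ (1 : M16)) * ((1 : M16) ⊗ₖ a (D.k η * y)) at h1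
  rw [h1, ← Matrix.mul_kronecker_mul, Matrix.one_mul, Matrix.mul_one]

theorem comul_right (η : Gam) {a : C(X, M16)} (ha : a ∈ D.alg) (x : X) :
    ((1 : M16) ⊗ₖ E η) * D.comulHom a (x, 1) = a (x * D.k η) ⊗ₖ E η := by
  have h := D.hom_aux ((ev2 (x, 1)).comp D.comulHom) ((ev2 (x * D.k η, 1)).comp j₁)
    (continuous_starHom _) (continuous_starHom _) ((1 : M16) ⊗ₖ E η)
    (by rw [Matrix.conjTranspose_kronecker, E_conjTranspose, Matrix.conjTranspose_one])
    (by
      intro a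
      change ((1 : M16) ⊗ₖ E η) * (a (x * D.k η) ⊗ₖ (1 : M16)) =
        (a (x * D.k η) ⊗ₖ (1 : M16)) * ((1 : M16) ⊗ₖ E η)
      rw [← Matrix.mul_kronecker_mul, ← Matrix.mul_kronecker_mul, Matrix.one_mul, Matrix.mul_one,
        Matrix.one_mul, Matrix.mul_one])
    (by
      intro i j
      change ((1 : M16) ⊗ₖ E η) * D.comulHom (D.w i j) (x, 1) =
        ((1 : M16) ⊗ₖ E η) * (D.w i j (x * D.k η) ⊗ₖ (1 : M16))
      rw [comulHom_w, ContinuousMap.coe_sum, Finset.sum_apply, Finset.sum_eq_single j]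
      · rw [kr_apply, w_one, if_pos rfl, ← Matrix.mul_kronecker_mul, ← Matrix.mul_kronecker_mul,
          Matrix.one_mul, Matrix.one_mul, Matrix.mul_one, E_mul_W, w_apply, w_apply, U_mul_k,
          Matrix.smul_kronecker, Matrix.kronecker_smul, Matrix.smul_kronecker, smul_smul, mul_comm]
      · intro l _ hl
        rw [kr_apply, w_one, if_neg hl, Matrix.kronecker_zero]
      · intro h; exact absurd (Finset.mem_univ _) h)
    (by
      intro i j
      change D.comulHom (D.w i j) (x, 1) * ((1 : M16) ⊗ₖ E η) =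
        (D.w i j (x * D.k η) ⊗ₖ (1 : M16)) * ((1 : M16) ⊗ₖ E η)
      rw [comulHom_w, ContinuousMap.coe_sum, Finset.sum_apply, Finset.sum_eq_single j]
      · rw [kr_apply, w_one, if_pos rfl, ← Matrix.mul_kronecker_mul, ← Matrix.mul_kronecker_mul,
          Matrix.one_mul, Matrix.mul_one, Matrix.mul_one, W_mul_E, w_apply, w_apply, U_mul_k,
          Matrix.smul_kronecker, Matrix.kronecker_smul, Matrix.smul_kronecker, smul_smul,
          om_comm, mul_comm]
      · intro l _ hl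
        rw [kr_apply, w_one, if_neg hl, Matrix.kronecker_zero]
      · intro h; exact absurd (Finset.mem_univ _) h) ha
  have h1 := h.1
  change ((1 : M16) ⊗ₖ E η) * D.comulHom a (x, 1) =
    ((1 : M16) ⊗ₖ E η) * (a (x * D.k η) ⊗ₖ (1 : M16)) at h1
  rw [h1, ← Matrix.mul_kronecker_mul, Matrix.one_mul, Matrix.mul_one]

section finite

variable (F : StarSubalgebra ℂ D.alg)
  (hF : ∀ a ∈ F, D.comul a ∈
    Submodule.span ℂ {z : D.tsq | ∃ b ∈ F, ∃ c ∈ F, z = D.i₁ b * D.i₂ c})

include hF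

theorem translate_left (a : D.alg) (ha : a ∈ F) (η : Gam) :
    ∃ c ∈ F, ∀ y, c.1 y = a.1 (D.k η * y) := by
  have key : ∀ z ∈ Submodule.span ℂ {z : D.tsq | ∃ b ∈ F, ∃ c ∈ F, z = D.i₁ b * D.i₂ c},
      ∃ c ∈ F, ∀ y, (E η ⊗ₖ (1 : M16)) * z.1 (1, y) = E η ⊗ₖ (c.1 y) := by
    intro z hz
    induction hz using Submodule.span_induction with
    | mem z hz =>
      obtain ⟨b, hb, c, hc, rfl⟩ := hz
      refine ⟨(b.1 1 * E η).trace • c, SMulMemClass.smul_mem _ hc, fun y => ?_⟩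
      rw [i_mul_coe, kr_apply, ← Matrix.mul_kronecker_mul, Matrix.one_mul,
        (D.diag_aux η b.2).2, Matrix.smul_kronecker]
      change _ = E η ⊗ₖ ((b.1 1 * E η).trace • c.1 y)
      rw [Matrix.kronecker_smul]
    | zero =>
      refine ⟨0, zero_mem _, fun y => ?_⟩
      change (E η ⊗ₖ (1 : M16)) * (0 : M256) = E η ⊗ₖ (0 : M16)
      rw [Matrix.mul_zero, Matrix.kronecker_zero]
    | add z z' _ _ hz hz' =>
      obtain ⟨c, hc, h⟩ := hz
      obtain ⟨c', hc', h'⟩ := hz'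
      refine ⟨c + c', add_mem hc hc', fun y => ?_⟩
      change (E η ⊗ₖ (1 : M16)) * (z.1 (1, y) + z'.1 (1, y)) = E η ⊗ₖ (c.1 y + c'.1 y)
      rw [Matrix.mul_add, Matrix.kronecker_add, h, h']
    | smul r z _ hz =>
      obtain ⟨c, hc, h⟩ := hz
      refine ⟨r • c, SMulMemClass.smul_mem _ hc, fun y => ?_⟩
      change (E η ⊗ₖ (1 : M16)) * (r • z.1 (1, y)) = E η ⊗ₖ (r • c.1 y)
      rw [Matrix.mul_smul, Matrix.kronecker_smul, h]
  obtain ⟨c, hc, h⟩ := key _ (hF a ha)
  refine ⟨c, hc, fun y => ?_⟩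
  have h2 := h y
  rw [comul_coe, D.comul_left η a.2] at h2
  exact (kron_cancel_left (E_ne_zero η) h2).symm

theorem translate_right (a : D.alg) (ha : a ∈ F) (η : Gam) :
    ∃ c ∈ F, ∀ x, c.1 x = a.1 (x * D.k η) := by
  have key : ∀ z ∈ Submodule.span ℂ {z : D.tsq | ∃ b ∈ F, ∃ c ∈ F, z = D.i₁ b * D.i₂ c},
      ∃ c ∈ F, ∀ x, ((1 : M16) ⊗ₖ E η) * z.1 (x, 1) = (c.1 x) ⊗ₖ E η := by
    intro z hz
    induction hz using Submodule.span_induction with
    | mem z hz =>
      obtain ⟨c, hc, b, hb, rfl⟩ := hz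
      refine ⟨(b.1 1 * E η).trace • c, SMulMemClass.smul_mem _ hc, fun y => ?_⟩
      rw [i_mul_coe, kr_apply, ← Matrix.mul_kronecker_mul, Matrix.one_mul,
        (D.diag_aux η b.2).2, Matrix.kronecker_smul]
      change _ = ((b.1 1 * E η).trace • c.1 y) ⊗ₖ E η
      rw [Matrix.smul_kronecker]
    | zero =>
      refine ⟨0, zero_mem _, fun y => ?_⟩
      change ((1 : M16) ⊗ₖ E η) * (0 : M256) = (0 : M16) ⊗ₖ E η
      rw [Matrix.mul_zero, Matrix.zero_kronecker]
    | add z z' _ _ hz hz' =>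
      obtain ⟨c, hc, h⟩ := hz
      obtain ⟨c', hc', h'⟩ := hz'
      refine ⟨c + c', add_mem hc hc', fun y => ?_⟩
      change ((1 : M16) ⊗ₖ E η) * (z.1 (y, 1) + z'.1 (y, 1)) = (c.1 y + c'.1 y) ⊗ₖ E η
      rw [Matrix.mul_add, Matrix.add_kronecker, h, h']
    | smul r z _ hz =>
      obtain ⟨c, hc, h⟩ := hz
      refine ⟨r • c, SMulMemClass.smul_mem _ hc, fun y => ?_⟩
      change ((1 : M16) ⊗ₖ E η) * (r • z.1 (y, 1)) = (r • c.1 y) ⊗ₖ E η
      rw [Matrix.mul_smul, Matrix.smul_kronecker, h]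
  obtain ⟨c, hc, h⟩ := key _ (hF a ha)
  refine ⟨c, hc, fun y => ?_⟩
  have h2 := h y
  rw [comul_coe, D.comul_right η a.2] at h2
  exact (kron_cancel_right (E_ne_zero η) h2).symm

theorem translate (a : D.alg) (ha : a ∈ F) (p : Gam2) :
    ∃ c ∈ F, ∀ x, c.1 x = a.1 (D.act p x) := by
  obtain ⟨b, hb, h⟩ := D.translate_left F hF a ha p.1
  obtain ⟨c, hc, h'⟩ := D.translate_right F hF b hb p.2
  refine ⟨c, hc, fun x => ?_⟩
  rw [h', h, act, mul_assoc]

theorem component (a : D.alg) (ha : a ∈ F) (q : Gam2) :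
    ∃ b ∈ F, ∀ x, b.1 x = cf q (a.1 x) • W2 q := by
  choose c hc h using fun p => D.translate F hF a ha p
  refine ⟨(1 / 256 : ℂ) • ∑ p, ch p q • c p, SMulMemClass.smul_mem _
    (sum_mem fun p _ => SMulMemClass.smul_mem _ (hc p)), fun x => ?_⟩
  have h1 : ((1 / 256 : ℂ) • ∑ p, ch p q • c p : D.alg).1 x =
      (1 / 256 : ℂ) • ∑ p, ch p q • (c p).1 x := by
    change (1 / 256 : ℂ) • ((∑ p, ch p q • c p : D.alg) : C(X, M16)) x = _
    rw [AddSubmonoidClass.coe_finsetSum, ContinuousMap.coe_sum, Finset.sum_apply]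
    rfl
  rw [h1, ← avg_eq]
  congr 1
  refine Finset.sum_congr rfl fun p _ => ?_
  rw [h, act, D.equivariance a.2]
  rfl

end finite

section conn

variable [PreconnectedSpace X] (F : StarSubalgebra ℂ D.alg) [FiniteDimensional ℂ F]

theorem component_const (b : D.alg) (hb : b ∈ F) (q : Gam2) (f : X → ℂ) (hf : Continuous f)
    (h : ∀ x, b.1 x = f x • W2 q) (x y : X) : f x = f y := by
  obtain ⟨c, hc, hW⟩ := W2_mul q q
  rw [gam2_add_self, W2_zero] at hW
  have hc0 : c ≠ 0 := by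
    intro h0; rw [h0] at hc; norm_num at hc
  let g : F := ⟨b, hb⟩ * ⟨b, hb⟩
  have hg : ∀ x, (g : D.alg).1 x = algebraMap ℂ M16 (c * f x ^ 2) := by
    intro x
    change b.1 x * b.1 x = _
    rw [h, Matrix.smul_mul, Matrix.mul_smul, hW, Algebra.algebraMap_eq_smul_one]
    simp only [smul_smul]
    congr 1
    ring
  obtain ⟨p, hp, hp2⟩ := (Algebra.IsIntegral.of_finite ℂ F).isIntegral g
  have h1 : Polynomial.aeval g p = 0 := hp2
  have h2 : ∀ x, Polynomial.eval (c * f x ^ 2) p = 0 := by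
    intro x
    let φ : F →ₐ[ℂ] M16 :=
      { toFun := fun a => (a : D.alg).1 x
        map_one' := rfl
        map_mul' := fun _ _ => rfl
        map_zero' := rfl
        map_add' := fun _ _ => rfl
        commutes' := fun r => by
          change (algebraMap ℂ C(X, M16) r) x = _
          rw [cm_algebraMap_apply, Algebra.algebraMap_eq_smul_one] }
    have h3 : Polynomial.aeval (φ g) p = 0 := by
      rw [Polynomial.aeval_algHom_apply, h1, _root_.map_zero]
    have h4 : φ g = algebraMap ℂ M16 (c * f x ^ 2) := hg x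
    rw [h4, Polynomial.aeval_algebraMap_apply_eq_algebraMap_eval] at h3
    exact (map_eq_zero_iff _ (algebraMap ℂ M16).injective).1 h3
  let p' : Polynomial ℂ := p.comp (Polynomial.C c * Polynomial.X ^ 2)
  have hp' : p' ≠ 0 := by
    intro h0
    rcases Polynomial.comp_eq_zero_iff.1 h0 with h3 | ⟨-, h3⟩
    · exact hp.ne_zero h3
    · have := congr_arg (fun r => Polynomial.coeff r 2) h3
      simp [Polynomial.coeff_C] at this
      exact hc0 this
  have h5 : ∀ x, p'.eval (f x) = 0 := by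
    intro x
    rw [Polynomial.eval_comp]
    simpa using h2 x
  have hfin : ({z : ℂ | z ∈ p'.roots} : Set ℂ).Finite := by
    refine (p'.roots.toFinset.finite_toSet).subset ?_
    intro z hz
    simpa using hz
  refine isPreconnected_univ.constant_of_mapsTo (T := {z : ℂ | z ∈ p'.roots}) ?_
    hf.continuousOn (fun x _ => ?_) (Set.mem_univ x) (Set.mem_univ y)
  · exact hfin.isDiscrete
  · exact (Polynomial.mem_roots hp').2 (h5 x)

end conn

theorem isConnected [PreconnectedSpace X] : D.cqg.IsConnected := by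
  intro F' hF'fin hF'
  let F : StarSubalgebra ℂ D.alg := F'
  have hfd : FiniteDimensional ℂ F := hF'fin
  have hF : ∀ a ∈ F, D.comul a ∈
    Submodule.span ℂ {z : D.tsq | ∃ b ∈ F, ∃ c ∈ F, z = D.i₁ b * D.i₂ c} := hF'
  change F = ⊥
  rw [eq_bot_iff]
  intro a ha
  have hcont : ∀ q, Continuous fun x => cf q (a.1 x) := fun q =>
    (continuous_cf q).comp a.1.continuous
  have hconst : ∀ q x y, cf q (a.1 x) = cf q (a.1 y) := by
    intro q x y
    obtain ⟨b, hb, h⟩ := D.component F hF a ha q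
    exact D.component_const F b hb q (fun x => cf q (a.1 x)) (hcont q) h x y
  have hzero : ∀ q, q ≠ 0 → ∀ x, cf q (a.1 x) = 0 := by
    intro q hq x
    obtain ⟨p, hp⟩ := exists_ch_ne q hq
    have h1 : cf q (a.1 (D.act p x)) = ch p q * cf q (a.1 x) := by
      rw [act, D.equivariance a.2]
      exact cf_conj p q _
    rw [hconst q (D.act p x) x] at h1
    by_contra h0
    apply hp
    have h2 : ch p q * cf q (a.1 x) = 1 * cf q (a.1 x) := by rw [← h1, one_mul]
    exact mul_right_cancel₀ h0 h2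
  have h3 : a = algebraMap ℂ D.alg (cf 0 (a.1 1)) := by
    apply Subtype.ext
    ext1 x
    change a.1 x = (algebraMap ℂ C(X, M16) (cf 0 (a.1 1))) x
    rw [cm_algebraMap_apply, ← sum_cf (a.1 x), Finset.sum_eq_single 0, W2_zero, hconst 0 x 1]
    · intro q _ hq
      rw [hzero q hq, zero_smul]
    · intro h; exact absurd (Finset.mem_univ _) h
  rw [h3]
  exact algebraMap_mem _ _

end Data

end Pool.Agent.CQG
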