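import Mathlib
import Pool.Agent.helper50.TwistConn
import Pool.Agent.helper50.CQGGeneral

/-!
A central element of the twist supported in a small set.
-/

set_option autoImplicit false

namespace Pool.Agent.CQG

open scoped Matrix.Norms.L2Operator Kronecker TensorProduct
open Matrix Pool.Agent.Heis

namespace Data

variable {X : Type} [Group X] [TopologicalSpace X] {N : ℕ} (D : Data X N)

section lam

variable [IsTopologicalGroup X]

/-- `g ↦ ∑ g(k x) E_k` -/
noncomputable def lam : C(X, ℂ) →⋆ₐ[ℂ] C(X, M16) where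
  toFun g := ⟨fun x => ∑ k, g (D.k k * x) • E k, by
    refine continuous_finsetSum _ fun k _ => ?_
    exact (g.continuous.comp (continuous_const.mul continuous_id)).smul continuous_const⟩
  map_one' := by
    ext1 x
    change ∑ k, (1 : ℂ) • E k = 1
    simp only [one_smul]
    exact sum_E
  map_mul' f g := by
    ext1 x
    change ∑ k, (f (D.k k * x) * g (D.k k * x)) • E k =
      (∑ k, f (D.k k * x) • E k) * (∑ k, g (D.k k * x) • E k)
    rw [Finset.sum_mul_sum]
    refine Finset.sum_congr rfl fun k _ => ?_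
    rw [Finset.sum_eq_single k]
    · rw [Matrix.smul_mul, Matrix.mul_smul, E_mul_E, if_pos rfl, smul_smul]
    · intro l _ hl
      rw [Matrix.smul_mul, Matrix.mul_smul, E_mul_E, if_neg (Ne.symm hl), smul_zero, smul_zero]
    · intro h; exact absurd (Finset.mem_univ _) h
  map_zero' := by
    ext1 x
    change ∑ k, (0 : ℂ) • E k = 0
    simp only [zero_smul, Finset.sum_const_zero]
  map_add' f g := by
    ext1 x
    change ∑ k, (f (D.k k * x) + g (D.k k * x)) • E k =
      (∑ k, f (D.k k * x) • E k) + (∑ k, g (D.k k * x) • E k)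
    rw [← Finset.sum_add_distrib]
    exact Finset.sum_congr rfl fun k _ => add_smul _ _ _
  commutes' r := by
    ext1 x
    rw [cm_algebraMap_apply]
    change ∑ k, (algebraMap ℂ C(X, ℂ) r) (D.k k * x) • E k = _
    have : ∀ k, (algebraMap ℂ C(X, ℂ) r) (D.k k * x) • E k = r • E k := fun k => rfl
    rw [Finset.sum_congr rfl fun k _ => this k, ← Finset.smul_sum, sum_E]
  map_star' f := by
    ext1 x
    change ∑ k, (star f) (D.k k * x) • E k = (∑ k, f (D.k k * x) • E k)ᴴ
    rw [Matrix.conjTranspose_sum]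
    refine Finset.sum_congr rfl fun k _ => ?_
    rw [Matrix.conjTranspose_smul, E_conjTranspose, ContinuousMap.star_apply]

theorem lam_apply (g : C(X, ℂ)) (x : X) : D.lam g x = ∑ k, g (D.k k * x) • E k := rfl

theorem lam_mul_E (g : C(X, ℂ)) (x : X) : D.lam g x * E 0 = g x • E 0 := by
  rw [lam_apply, Finset.sum_mul, Finset.sum_eq_single 0]
  · rw [Matrix.smul_mul, E_mul_E, if_pos rfl, k_zero, one_mul]
  · intro k _ hk
    rw [Matrix.smul_mul, E_mul_E, if_neg hk, smul_zero]
  · intro h; exact absurd (Finset.mem_univ _) h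

theorem lam_entry (i : Fin N) : D.lam (D.entry i i) = D.w i i := by
  ext1 x
  rw [lam_apply, w_apply, ← sum_sg_E, Finset.smul_sum]
  refine Finset.sum_congr rfl fun k _ => ?_
  change D.U (D.k k * x) i i • E k = _
  rw [U_k_mul, smul_smul, mul_comm]

end lam

/-- the span of the characters -/
noncomputable def chars [IsTopologicalGroup X] [CompactSpace X] : Subalgebra ℂ D.alg :=
  D.cqg.charAlg

theorem central_eq' [IsTopologicalGroup X] [CompactSpace X] :
    D.cqg.central = closure (D.chars : Set D.alg) := rfl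

/-- Three blocks, with the properties of the standard representation of `SO(3)^3` that we need. -/
structure Tri where
  blk : Fin N → Fin 3
  off : ∀ x i j, blk i ≠ blk j → D.U x i j = 0
  small : ∀ x p, 1 < (∑ i with blk i = p, D.U x i i).re → (∑ i with blk i = p, D.U x i i).re < 3 →
    (∀ i, blk i = p → D.U x i i ≠ 0) ∧ ∃ i j, blk i = p ∧ blk j = p ∧ i ≠ j ∧ D.U x i j ≠ 0
  left : ∀ p : T2, p ≠ 0 → ∃ i, D.κ i = (p, 0)
  right : ∀ q : T2, q ≠ 0 → ∃ i, D.κ i = (0, q)
  deg : ∀ i₀ j₀ i₁ j₁ i₂ j₂, blk i₀ = 0 → blk j₀ = 0 → i₀ ≠ j₀ → blk i₁ = 1 → blk j₁ = 1 →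
    i₁ ≠ j₁ → blk i₂ = 2 → blk j₂ = 2 → i₂ ≠ j₂ →
    om (D.κ i₀ + D.κ j₀) (D.κ i₁ + D.κ j₁) = 0 → om (D.κ i₀ + D.κ j₀) (D.κ i₂ + D.κ j₂) = 0 →
    om (D.κ i₁ + D.κ j₁) (D.κ i₂ + D.κ j₂) = 0 → False
  ex : ∃ x, ∀ p, 1 < (∑ i with blk i = p, D.U x i i).re ∧ (∑ i with blk i = p, D.U x i i).re < 3

/-- cutoff function -/
noncomputable def cut (t : ℝ) : ℝ := max 0 ((t - 1) * (3 - t))

theorem continuous_cut : Continuous cut := by
  unfold cut
  fun_prop

theorem cut_ne_zero {t : ℝ} (h : cut t ≠ 0) : 1 < t ∧ t < 3 := by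
  unfold cut at h
  by_contra hcon
  apply h
  apply max_eq_left
  rw [not_and_or, not_lt, not_lt] at hcon
  rcases hcon with h1 | h1
  · nlinarith
  · nlinarith

theorem cut_of_mem {t : ℝ} (h1 : 1 < t) (h2 : t < 3) : cut t ≠ 0 := by
  unfold cut
  have : 0 < (t - 1) * (3 - t) := mul_pos (by linarith) (by linarith)
  rw [max_eq_right this.le]
  exact this.ne'

namespace Tri

variable {D} (T : D.Tri)

/-- block traces -/
noncomputable def tr (p : Fin 3) : C(X, ℂ) := ∑ i with T.blk i = p, D.entry i i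

theorem tr_apply (p : Fin 3) (x : X) : T.tr p x = ∑ i with T.blk i = p, D.U x i i := by
  rw [tr, ContinuousMap.coe_sum, Finset.sum_apply]
  rfl

theorem tr_real (p : Fin 3) (x : X) : T.tr p x = (((T.tr p x).re : ℝ) : ℂ) := by
  have : star (T.tr p x) = T.tr p x := by
    rw [tr_apply, star_sum]
    exact Finset.sum_congr rfl fun i _ => D.real x i i
  exact (Complex.conj_eq_iff_re.1 this).symm

variable [CompactSpace X] [IsTopologicalGroup X]

/-- block characters -/
noncomputable def chi (p : Fin 3) : D.alg := ∑ i with T.blk i = p, D.u i i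

theorem chi_coe (p : Fin 3) : (T.chi p : C(X, M16)) = D.lam (T.tr p) := by
  rw [chi, AddSubmonoidClass.coe_finsetSum, tr, map_sum]
  exact Finset.sum_congr rfl fun i _ => (D.lam_entry i).symm

theorem chi_mem (p : Fin 3) : T.chi p ∈ D.chars := by
  have h0 : ∀ i j, T.blk i ≠ T.blk j → D.u i j = 0 := by
    intro i j h
    apply Subtype.ext
    ext1 x
    change D.w i j x = 0
    rw [w_apply, T.off x i j h, zero_smul]
  have h1 := (D.cqg.isURep_u).block (fun i => T.blk i = p)
    (fun i j hi hj => h0 i j (by rw [hi]; exact fun h => hj h.symm))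
    (fun i j hi hj => h0 i j (by rw [hj]; exact hi))
  have h2 := h1.trace_mem
  change T.chi p ∈ Submodule.span ℂ D.cqg.irrCharacters
  have h3 : (D.cqg.u.submatrix (Subtype.val : {i // T.blk i = p} → Fin N)
      (Subtype.val : {i // T.blk i = p} → Fin N)).trace = T.chi p := by
    rw [Matrix.trace, chi]
    exact (Finset.sum_subtype _ (by simp) (fun i => D.u i i)).symm
  rw [h3] at h2
  exact h2

/-- cut off block traces -/
noncomputable def ct (p : Fin 3) : C(X, ℂ) :=
  ⟨fun x => ((cut (T.tr p x).re : ℝ) : ℂ), by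
    have h1 : Continuous fun x => (T.tr p x).re := Complex.continuous_re.comp (T.tr p).continuous
    exact Complex.continuous_ofReal.comp (continuous_cut.comp h1)⟩

theorem ct_apply (p : Fin 3) (x : X) : T.ct p x = ((cut (T.tr p x).re : ℝ) : ℂ) := rfl

theorem aeval_apply (g : C(X, ℂ)) (q : Polynomial ℂ) (x : X) :
    (Polynomial.aeval g q) x = q.eval (g x) := by
  induction q using Polynomial.induction_on' with
  | add p q hp hq => rw [_root_.map_add, ContinuousMap.add_apply, hp, hq, Polynomial.eval_add]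
  | monomial n a =>
    rw [Polynomial.aeval_monomial, Polynomial.eval_monomial, ContinuousMap.mul_apply,
      ContinuousMap.pow_apply]
    rfl

theorem lam_ct_mem (p : Fin 3) :
    D.lam (T.ct p) ∈ closure ((Subtype.val : D.alg → C(X, M16)) '' (D.chars : Set D.alg)) := by
  rw [Metric.mem_closure_iff]
  intro ε hε
  obtain ⟨q, hq⟩ := exists_polynomial_near_of_continuousOn (-‖T.tr p‖) ‖T.tr p‖ cut
    continuous_cut.continuousOn (ε / 2) (by linarith)
  let q' : Polynomial ℂ := q.map (algebraMap ℝ ℂ)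
  have hmem : Polynomial.aeval (T.chi p) q' ∈ D.chars := by
    have h1 : Polynomial.aeval (T.chi p) q' ∈ Algebra.adjoin ℂ {T.chi p} :=
      Polynomial.aeval_mem_adjoin_singleton ℂ (T.chi p)
    have h2 : Algebra.adjoin ℂ {T.chi p} ≤ D.chars := by
      apply Algebra.adjoin_le
      rintro _ rfl
      exact T.chi_mem p
    exact h2 h1
  refine ⟨_, ⟨_, hmem, rfl⟩, ?_⟩
  have h1 : ((Polynomial.aeval (T.chi p) q' : D.alg) : C(X, M16)) =
      D.lam (Polynomial.aeval (T.tr p) q') := by
    have h2 : ((Polynomial.aeval (T.chi p) q' : D.alg) : C(X, M16)) =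
      Polynomial.aeval (T.chi p : C(X, M16)) q' :=
      (Polynomial.aeval_algHom_apply (D.alg.subtype : D.alg →ₐ[ℂ] C(X, M16)) (T.chi p) q').symm
    have h3 : Polynomial.aeval (D.lam (T.tr p)) q' = D.lam (Polynomial.aeval (T.tr p) q') :=
      (Polynomial.aeval_algHom_apply (D.lam : C(X, ℂ) →ₐ[ℂ] C(X, M16)) (T.tr p) q')
    rw [h2, chi_coe, h3]
  rw [h1, dist_eq_norm, ← map_sub]
  have h4 : ‖D.lam (T.ct p - Polynomial.aeval (T.tr p) q')‖ ≤
      ‖T.ct p - Polynomial.aeval (T.tr p) q'‖ := NonUnitalStarAlgHom.norm_apply_le D.lam _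
  refine lt_of_le_of_lt h4 (lt_of_le_of_lt ?_ (half_lt_self hε))
  rw [ContinuousMap.norm_le _ (by linarith)]
  intro x
  rw [ContinuousMap.sub_apply, aeval_apply, ct_apply]
  have h5 : q'.eval (T.tr p x) = ((q.eval (T.tr p x).re : ℝ) : ℂ) := by
    conv_lhs => rw [T.tr_real p x]
    change (q.map (algebraMap ℝ ℂ)).eval (algebraMap ℝ ℂ (T.tr p x).re) =
      algebraMap ℝ ℂ (q.eval (T.tr p x).re)
    rw [Polynomial.eval_map, Polynomial.eval₂_at_apply]
  have h6 : |(T.tr p x).re| ≤ ‖T.tr p‖ :=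
    (Complex.abs_re_le_norm _).trans ((T.tr p).norm_coe_le_norm x)
  have h7 := hq (T.tr p x).re ⟨(abs_le.1 h6).1, (abs_le.1 h6).2⟩
  rw [h5, ← Complex.ofReal_sub, Complex.norm_real, Real.norm_eq_abs, abs_sub_comm]
  exact h7.le

theorem exists_ct (p : Fin 3) : ∃ a : D.alg, a ∈ D.chars.topologicalClosure ∧
    (a : C(X, M16)) = D.lam (T.ct p) := by
  have h1 := T.lam_ct_mem p
  have h2 : D.lam (T.ct p) ∈ D.alg := by
    have h3 : closure ((Subtype.val : D.alg → C(X, M16)) '' (D.chars : Set D.alg)) ⊆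
        (D.alg : Set C(X, M16)) := by
      refine closure_minimal ?_ D.alg_closed
      rintro _ ⟨a, -, rfl⟩
      exact a.2
    exact h3 h1
  refine ⟨⟨D.lam (T.ct p), h2⟩, ?_, rfl⟩
  change (⟨D.lam (T.ct p), h2⟩ : D.alg) ∈ closure (D.chars : Set D.alg)
  rw [Topology.IsInducing.subtypeVal.closure_eq_preimage_closure_image]
  exact h1

theorem exists_central : ∃ P : D.alg, P ∈ D.cqg.central ∧ P ≠ 0 ∧ ∃ F : C(X, ℂ),
    (P : C(X, M16)) = D.lam F ∧ ∀ x, F x ≠ 0 → ∀ p, 1 < (∑ i with T.blk i = p, D.U x i i).re ∧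
      (∑ i with T.blk i = p, D.U x i i).re < 3 := by
  choose a ha h using T.exists_ct
  refine ⟨a 0 * a 1 * a 2, ?_, ?_, T.ct 0 * T.ct 1 * T.ct 2, ?_, ?_⟩
  · rw [central_eq']
    exact mul_mem (mul_mem (ha 0) (ha 1)) (ha 2)
  · intro h0
    obtain ⟨x, hx⟩ := T.ex
    have h1 : ((a 0 * a 1 * a 2 : D.alg) : C(X, M16)) = D.lam (T.ct 0 * T.ct 1 * T.ct 2) := by
      rw [_root_.map_mul, _root_.map_mul, ← h, ← h, ← h]
      rfl
    rw [h0] at h1
    have h2 := D.lam_mul_E (T.ct 0 * T.ct 1 * T.ct 2) x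
    rw [← h1] at h2
    change (0 : M16) * E 0 = _ at h2
    rw [Matrix.zero_mul] at h2
    have h3 : (T.ct 0 * T.ct 1 * T.ct 2) x ≠ 0 := by
      rw [ContinuousMap.mul_apply, ContinuousMap.mul_apply]
      have h4 : ∀ p, T.ct p x ≠ 0 := by
        intro p
        rw [ct_apply, tr_apply]
        exact_mod_cast cut_of_mem (hx p).1 (hx p).2
      exact mul_ne_zero (mul_ne_zero (h4 0) (h4 1)) (h4 2)
    exact smul_ne_zero h3 (E_ne_zero 0) h2.symm
  · rw [_root_.map_mul, _root_.map_mul, ← h, ← h, ← h]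
    rfl
  · intro x hx p
    rw [ContinuousMap.mul_apply, ContinuousMap.mul_apply] at hx
    have h4 : T.ct p x ≠ 0 := by
      intro h0
      apply hx
      fin_cases p
      · change T.ct 0 x = 0 at h0
        rw [h0, zero_mul, zero_mul]
      · change T.ct 1 x = 0 at h0
        rw [h0, mul_zero, zero_mul]
      · change T.ct 2 x = 0 at h0
        rw [h0, mul_zero]
    rw [ct_apply, tr_apply] at h4
    exact cut_ne_zero (by exact_mod_cast h4)

end Tri

end Data

end Pool.Agent.CQG
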