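import Mathlib
import Pool.Agent.helper50.TwistCentral

/-!
The central element vanishes on every spun torus.
-/

set_option autoImplicit false

namespace Pool.Agent.CQG

open scoped Matrix.Norms.L2Operator Kronecker TensorProduct
open Matrix Pool.Agent.Heis

theorem norm_W2_conj (p : Gam2) (M : M16) : ‖W2 p * M * (W2 p)ᴴ‖ = ‖M‖ := by
  have hU : W2 p ∈ unitary M16 := by
    rw [Unitary.mem_iff]
    exact ⟨W2_conjTranspose_mul p, W2_mul_conjTranspose p⟩
  have h1 := CStarRing.norm_mem_unitary_mul (W2 p * M * (W2 p)ᴴ) (U := star (W2 p)) (Unitary.star_mem hU)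
  rw [← h1]
  have h2 := CStarRing.norm_mul_mem_unitary (star (W2 p) * (W2 p * M * (W2 p)ᴴ)) hU
  rw [← h2]
  congr 1
  rw [Matrix.star_eq_conjTranspose]
  calc (W2 p)ᴴ * (W2 p * M * (W2 p)ᴴ) * W2 p = ((W2 p)ᴴ * W2 p) * M * ((W2 p)ᴴ * W2 p) := by
        simp only [Matrix.mul_assoc]
    _ = M := by rw [W2_conjTranspose_mul, Matrix.one_mul, Matrix.mul_one]

namespace Data

variable {X : Type} [Group X] [TopologicalSpace X] {N : ℕ} (D : Data X N) [CompactSpace X]
  [IsTopologicalGroup X]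

/-- local to global -/
theorem local_global (J : TwoSidedIdeal D.alg) (a : D.alg)
    (h : ∀ x, ∃ j ∈ J, j.1 x = a.1 x) : a ∈ closure (J : Set D.alg) := by
  rw [Metric.mem_closure_iff]
  intro ε hε
  choose j hj hjx using h
  let g : X → X → ℝ := fun x y => max 0 (ε / 2 - ‖(a.1 - (j x).1) y‖)
  have hgc : ∀ x, Continuous (g x) := fun x =>
    continuous_const.max (continuous_const.sub (a.1 - (j x).1).continuous.norm)
  have hg0 : ∀ x y, 0 ≤ g x y := fun x y => le_max_left _ _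
  have hgx : ∀ x, 0 < g x x := by
    intro x
    apply lt_max_of_lt_right
    rw [ContinuousMap.sub_apply, hjx, sub_self, norm_zero]
    linarith
  have hginv : ∀ x p y, g x (D.act p y) = g x y := by
    intro x p y
    simp only [g]
    have h1 : (a.1 - (j x).1) (D.act p y) = W2 p * (a.1 - (j x).1) y * (W2 p)ᴴ :=
      D.equivariance (sub_mem a.2 (j x).2) p.1 p.2 y
    rw [h1, norm_W2_conj]
  obtain ⟨t, ht⟩ := CompactSpace.elim_nhds_subcover (fun x => {y | 0 < g x y})
    (fun x => (isOpen_lt continuous_const (hgc x)).mem_nhds (hgx x))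
  have ht' : ∀ y, ∃ x ∈ t, 0 < g x y := by
    intro y
    have : y ∈ (⊤ : Set X) := trivial
    rw [← ht] at this
    simpa using this
  let G : X → ℝ := fun y => ∑ x ∈ t, g x y
  have hG : ∀ y, 0 < G y := by
    intro y
    obtain ⟨x, hx, hxy⟩ := ht' y
    exact Finset.sum_pos' (fun x _ => hg0 x y) ⟨x, hx, hxy⟩
  have hGc : Continuous G := continuous_finsetSum _ fun x _ => hgc x
  let φ : X → C(X, ℂ) := fun x => ⟨fun y => ((g x y / G y : ℝ) : ℂ),
    Complex.continuous_ofReal.comp ((hgc x).div hGc fun y => (hG y).ne')⟩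
  have hφ : ∀ x, sm 1 (φ x) ∈ D.alg := by
    intro x
    refine D.full_inv (φ x) ?_
    intro p y
    change ((g x (D.act p y) / G (D.act p y) : ℝ) : ℂ) = ((g x y / G y : ℝ) : ℂ)
    simp only [G, hginv]
  let b : D.alg := ∑ x ∈ t, ⟨sm 1 (φ x), hφ x⟩ * j x
  have hb : b ∈ J := sum_mem fun x _ => J.mul_mem_left _ _ (hj x)
  refine ⟨b, hb, ?_⟩
  have hle : ‖a.1 - b.1‖ ≤ ε / 2 := by
    rw [ContinuousMap.norm_le _ (by linarith)]
    intro y
    have h1 : (a.1 - b.1) y = ∑ x ∈ t, ((g x y / G y : ℝ) : ℂ) • (a.1 - (j x).1) y := by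
      have h2 : b.1 y = ∑ x ∈ t, ((g x y / G y : ℝ) : ℂ) • (j x).1 y := by
        change ((∑ x ∈ t, ⟨sm 1 (φ x), hφ x⟩ * j x : D.alg) : C(X, M16)) y = _
        rw [AddSubmonoidClass.coe_finsetSum, ContinuousMap.coe_sum, Finset.sum_apply]
        refine Finset.sum_congr rfl fun x _ => ?_
        change (sm 1 (φ x)) y * (j x).1 y = _
        rw [sm_apply, Matrix.smul_mul, Matrix.one_mul]
        rfl
      have h3 : ∑ x ∈ t, ((g x y / G y : ℝ) : ℂ) = 1 := by
        rw [← Complex.ofReal_sum, ← Finset.sum_div]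
        have : (∑ x ∈ t, g x y) / G y = 1 := div_self (hG y).ne'
        rw [this, Complex.ofReal_one]
      calc (a.1 - b.1) y = (1 : ℂ) • a.1 y - b.1 y := by rw [one_smul]; rfl
        _ = ∑ x ∈ t, ((g x y / G y : ℝ) : ℂ) • a.1 y -
            ∑ x ∈ t, ((g x y / G y : ℝ) : ℂ) • (j x).1 y := by
            rw [h2, ← h3, Finset.sum_smul]
        _ = _ := by
            rw [← Finset.sum_sub_distrib]
            refine Finset.sum_congr rfl fun x _ => ?_
            rw [← smul_sub]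
            rfl
    rw [h1]
    refine (norm_sum_le _ _).trans ?_
    have h4 : ∀ x ∈ t, ‖((g x y / G y : ℝ) : ℂ) • (a.1 - (j x).1) y‖ ≤ (g x y / G y) * (ε / 2) := by
      intro x _
      rw [norm_smul, Complex.norm_real, Real.norm_eq_abs,
        abs_of_nonneg (div_nonneg (hg0 x y) (hG y).le)]
      by_cases hpos : 0 < g x y
      · have : 0 < ε / 2 - ‖(a.1 - (j x).1) y‖ := by
          by_contra hcon
          have : g x y = 0 := max_eq_left (not_lt.1 hcon)
          linarith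
        exact mul_le_mul_of_nonneg_left (by linarith) (div_nonneg (hg0 x y) (hG y).le)
      · have : g x y = 0 := le_antisymm (not_lt.1 hpos) (hg0 x y)
        rw [this]; simp
    refine (Finset.sum_le_sum h4).trans ?_
    rw [← Finset.sum_mul, ← Finset.sum_div]
    have : (∑ x ∈ t, g x y) / G y = 1 := div_self (hG y).ne'
    rw [this, one_mul]
  have hlt : dist a b < ε := by
    change dist a.1 b.1 < ε
    rw [dist_eq_norm]
    linarith
  exact hlt

end Data

/-! ### Linear algebra in a fibre -/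

open scoped ComplexOrder

theorem herm_pow {n : Type} [Fintype n] [DecidableEq n] {Y : Matrix n n ℂ} (hY : Yᴴ = Y)
    (Z : Matrix n n ℂ) (m : ℕ) (h : Y ^ m * Z = 0) : Y * Z = 0 := by
  induction m with
  | zero => rw [pow_zero, Matrix.one_mul] at h; rw [h, Matrix.mul_zero]
  | succ m ih =>
    rcases m with _ | m
    · rwa [zero_add, pow_one] at h
    · apply ih
      have h1 : Yᴴ * Y * (Y ^ m * Z) = 0 := by
        rw [hY, ← h, pow_succ', pow_succ']
        simp only [Matrix.mul_assoc]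
      have h2 := (Matrix.conjTranspose_mul_self_mul_eq_zero Y (Y ^ m * Z)).1 h1
      rw [pow_succ', Matrix.mul_assoc, h2]

theorem herm_poly {n : Type} [Fintype n] [DecidableEq n] {Y : Matrix n n ℂ} (hY : Yᴴ = Y) :
    ∃ s : Polynomial ℂ, Y * (1 - Polynomial.aeval Y s * Y) = 0 := by
  have hp0 : Y.charpoly ≠ 0 := (Matrix.charpoly_monic Y).ne_zero
  obtain ⟨r, hr, hr2⟩ := Polynomial.exists_eq_pow_rootMultiplicity_mul_and_not_dvd _ hp0 0
  rw [Polynomial.C_0, sub_zero] at hr hr2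
  have hr0 : r.coeff 0 ≠ 0 := fun h => hr2 (Polynomial.X_dvd_iff.2 h)
  have h1 := Matrix.aeval_self_charpoly Y
  rw [hr, _root_.map_mul, map_pow, Polynomial.aeval_X] at h1
  have h2 := herm_pow hY _ _ h1
  refine ⟨-(Polynomial.C (r.coeff 0)⁻¹ * r.divX), ?_⟩
  have h3 : Polynomial.aeval Y r = Polynomial.aeval Y r.divX * Y + r.coeff 0 • 1 := by
    conv_lhs => rw [← Polynomial.divX_mul_X_add r]
    rw [_root_.map_add, _root_.map_mul, Polynomial.aeval_X, Polynomial.aeval_C,
      Algebra.algebraMap_eq_smul_one]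
  have h4 : 1 - Polynomial.aeval Y (-(Polynomial.C (r.coeff 0)⁻¹ * r.divX)) * Y =
      (r.coeff 0)⁻¹ • Polynomial.aeval Y r := by
    rw [h3, _root_.map_neg, _root_.map_mul, Polynomial.aeval_C, Algebra.algebraMap_eq_smul_one,
      smul_add, smul_smul, inv_mul_cancel₀ hr0, one_smul, Matrix.neg_mul, sub_neg_eq_add,
      Matrix.smul_mul, Matrix.one_mul, Matrix.smul_mul, add_comm]
  rw [h4, Matrix.mul_smul, h2, smul_zero]

namespace Data

variable {X : Type} [Group X] [TopologicalSpace X] {N : ℕ} (D : Data X N) [CompactSpace X]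

/-- evaluation at a point, as an algebra homomorphism -/
noncomputable def ev (x : X) : D.alg →ₐ[ℂ] M16 where
  toFun f := f.1 x
  map_one' := rfl
  map_mul' _ _ := rfl
  map_zero' := rfl
  map_add' _ _ := rfl
  commutes' r := by
    change (algebraMap ℂ C(X, M16) r) x = _
    rw [cm_algebraMap_apply, Algebra.algebraMap_eq_smul_one]

theorem ev_apply (x : X) (f : D.alg) : D.ev x f = f.1 x := rfl

theorem fibre (J : TwoSidedIdeal D.alg) (P : D.alg) (x : X)
    (h : ∀ ξ : I16 → ℂ, (∀ j ∈ J, (j.1 x) *ᵥ ξ = 0) → (P.1 x) *ᵥ ξ = 0) :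
    ∃ j ∈ J, j.1 x = P.1 x := by
  classical
  let L : Submodule ℂ M16 :=
    { carrier := {m | ∃ j ∈ J, j.1 x = m}
      add_mem' := by
        rintro _ _ ⟨j, hj, rfl⟩ ⟨j', hj', rfl⟩
        exact ⟨j + j', J.add_mem hj hj', rfl⟩
      zero_mem' := ⟨0, J.zero_mem, rfl⟩
      smul_mem' := by
        rintro c _ ⟨j, hj, rfl⟩
        refine ⟨c • j, ?_, rfl⟩
        have : c • j = (c • (1 : D.alg)) * j := by rw [smul_mul_assoc, one_mul]
        rw [this]
        exact J.mul_mem_left _ _ hj }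
  obtain ⟨s, hs⟩ : L.FG := IsNoetherian.noetherian L
  have hsL : ∀ m : s, ∃ j ∈ J, j.1 x = m.1 := by
    intro m
    have : m.1 ∈ L := by rw [← hs]; exact Submodule.subset_span m.2
    exact this
  choose j hj hjm using hsL
  let y : D.alg := ∑ m : s, star (j m) * j m
  have hy : y ∈ J := sum_mem fun m _ => J.mul_mem_left _ _ (hj m)
  have hyx : y.1 x = ∑ m : s, (m.1)ᴴ * m.1 := by
    change ((∑ m : s, star (j m) * j m : D.alg) : C(X, M16)) x = _
    rw [AddSubmonoidClass.coe_finsetSum, ContinuousMap.coe_sum, Finset.sum_apply]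
    refine Finset.sum_congr rfl fun m _ => ?_
    change ((j m).1 x)ᴴ * (j m).1 x = _
    rw [hjm]
  set Y : M16 := y.1 x with hYdef
  have hYH : Yᴴ = Y := by
    rw [hyx, Matrix.conjTranspose_sum]
    refine Finset.sum_congr rfl fun m _ => ?_
    rw [Matrix.conjTranspose_mul, Matrix.conjTranspose_conjTranspose]
  have hker : ∀ ξ : I16 → ℂ, Y *ᵥ ξ = 0 → ∀ j ∈ J, (j.1 x) *ᵥ ξ = 0 := by
    intro ξ hξ
    have h1 : ∑ m : s, star (m.1 *ᵥ ξ) ⬝ᵥ (m.1 *ᵥ ξ) = 0 := by
      have h2 : star ξ ⬝ᵥ (Y *ᵥ ξ) = ∑ m : s, star (m.1 *ᵥ ξ) ⬝ᵥ (m.1 *ᵥ ξ) := by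
        rw [hyx, Matrix.sum_mulVec, dotProduct_sum]
        refine Finset.sum_congr rfl fun m _ => ?_
        rw [← Matrix.mulVec_mulVec, Matrix.star_mulVec, ← Matrix.dotProduct_mulVec]
      rw [← h2, hξ, dotProduct_zero]
    have h3 : ∀ m : s, star (m.1 *ᵥ ξ) ⬝ᵥ (m.1 *ᵥ ξ) = 0 := by
      intro m
      exact (Finset.sum_eq_zero_iff_of_nonneg
        (fun m _ => dotProduct_star_self_nonneg (m.1 *ᵥ ξ))).1 h1 m (Finset.mem_univ m)
    have h4 : ∀ m ∈ L, m *ᵥ ξ = 0 := by
      intro m hm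
      rw [← hs] at hm
      induction hm using Submodule.span_induction with
      | mem m hm => exact dotProduct_star_self_eq_zero.1 (h3 ⟨m, hm⟩)
      | zero => exact Matrix.zero_mulVec _
      | add a b _ _ ha hb => rw [Matrix.add_mulVec, ha, hb, add_zero]
      | smul c a _ ha => rw [Matrix.smul_mulVec, ha, smul_zero]
    intro j hj
    exact h4 _ ⟨j, hj, rfl⟩
  obtain ⟨q, hq⟩ := herm_poly hYH
  have hPZ : P.1 x * (1 - Polynomial.aeval Y q * Y) = 0 := by
    ext a b
    have h5 : Y *ᵥ (fun i => (1 - Polynomial.aeval Y q * Y) i b) = 0 := by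
      ext i
      have := congr_fun (congr_fun hq i) b
      rw [Matrix.mul_apply] at this
      exact this
    have h6 := congr_fun (h _ (hker _ h5)) a
    rw [Matrix.mul_apply]
    exact h6
  refine ⟨P * (Polynomial.aeval y q * y), J.mul_mem_left _ _ (J.mul_mem_left _ _ hy), ?_⟩
  have h7 : (P * (Polynomial.aeval y q * y)).1 x = P.1 x * (Polynomial.aeval Y q * Y) := by
    have : Polynomial.aeval Y q = D.ev x (Polynomial.aeval y q) :=
      Polynomial.aeval_algHom_apply (D.ev x) y q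
    rw [this]
    rfl
  rw [h7]
  rw [Matrix.mul_sub, Matrix.mul_one, sub_eq_zero] at hPZ
  exact hPZ.symm

end Data

end Pool.Agent.CQG
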