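import Mathlib
import Pool.Agent.helper50.TwistTorus

/-!
The combinatorial core: the common kernel of the ideal of a spun torus.
-/

set_option autoImplicit false

namespace Pool.Agent.CQG

open scoped Matrix.Norms.L2Operator Kronecker TensorProduct
open Matrix Pool.Agent.Heis

theorem W_E_comm (δ k : Gam) : W δ 0 * E k = E (k + δ) * W δ 0 := by
  have h1 : W δ 0 * E k * (W δ 0)ᴴ = E (k + δ) := by
    rw [E, E, Matrix.mul_smul, Matrix.smul_mul, Finset.mul_sum, Finset.sum_mul]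
    congr 1
    refine Finset.sum_congr rfl fun κ _ => ?_
    rw [Matrix.mul_smul, Matrix.smul_mul, W_conj, smul_smul, om_zero_left, sg_zero, mul_one,
      om_add_left, sg_add]
  calc W δ 0 * E k = W δ 0 * E k * ((W δ 0)ᴴ * W δ 0) := by
        rw [W_conjTranspose_mul, Matrix.mul_one]
    _ = (W δ 0 * E k * (W δ 0)ᴴ) * W δ 0 := by simp only [Matrix.mul_assoc]
    _ = _ := by rw [h1]

theorem W_decomp (κ κ' : Gam) :
    W κ κ' = sg (dot (κ + κ').2 κ'.1) • (W (κ + κ') 0 * W κ' κ') := by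
  rw [W_mul, smul_smul, zero_add, add_assoc, gam_add_self, add_zero]
  have h0 : dot (0 : Gam).2 κ'.1 = 0 := dot_zero_left _
  rw [h0, sg_zero, mul_one, sg_mul_self, one_smul]

theorem W_decomp' (κ κ' : Gam) :
    W (κ + κ') 0 = sg (dot κ.2 κ'.1) • (sg (dot κ'.2 κ'.1) • (W κ κ' * W κ' κ')) := by
  rw [W_mul, gam_add_self, smul_smul, smul_smul]
  have h1 := sg_mul_self (dot κ.2 κ'.1)
  have h2 := sg_mul_self (dot κ'.2 κ'.1)
  have : sg (dot κ.2 κ'.1) * sg (dot κ'.2 κ'.1) * (sg (dot κ.2 κ'.1) * sg (dot κ'.2 κ'.1)) = 1 := by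
    linear_combination h1 * sg (dot κ'.2 κ'.1) * sg (dot κ'.2 κ'.1) + h2
  rw [this, one_smul]

theorem W_mulVec_ne {κ κ' : Gam} {ξ : I16 → ℂ} (h : ξ ≠ 0) : W κ κ' *ᵥ ξ ≠ 0 := by
  intro h0
  apply h
  have : (W κ κ')ᴴ *ᵥ (W κ κ' *ᵥ ξ) = 0 := by rw [h0, Matrix.mulVec_zero]
  rwa [Matrix.mulVec_mulVec, W_conjTranspose_mul, Matrix.one_mulVec] at this

namespace Data

variable {X : Type} [Group X] [TopologicalSpace X] {N : ℕ} (D : Data X N) [CompactSpace X]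
  [IsTopologicalGroup X]

/-- `ξ` is killed by all the values at `x` of the ideal `J`. -/
def NN (J : TwoSidedIdeal D.alg) (x : X) (ξ : I16 → ℂ) : Prop := ∀ j ∈ J, (j.1 x) *ᵥ ξ = 0

variable {D} {J : TwoSidedIdeal D.alg} {x : X} {ξ η : I16 → ℂ}

theorem NN.mul (h : D.NN J x ξ) (a : D.alg) : D.NN J x ((a.1 x) *ᵥ ξ) := by
  intro j hj
  rw [Matrix.mulVec_mulVec]
  exact h (j * a) (J.mul_mem_right _ _ hj)

theorem NN.add (h : D.NN J x ξ) (h' : D.NN J x η) : D.NN J x (ξ + η) := by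
  intro j hj
  rw [Matrix.mulVec_add, h j hj, h' j hj, add_zero]

theorem NN.zero : D.NN J x 0 := by
  intro j hj
  rw [Matrix.mulVec_zero]

theorem NN.smul (h : D.NN J x ξ) (c : ℂ) : D.NN J x (c • ξ) := by
  intro j hj
  rw [Matrix.mulVec_smul, h j hj, smul_zero]

theorem NN.sum {ι : Type} (s : Finset ι) (f : ι → I16 → ℂ) (h : ∀ i ∈ s, D.NN J x (f i)) :
    D.NN J x (∑ i ∈ s, f i) := by
  classical
  induction s using Finset.induction_on with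
  | empty => rw [Finset.sum_empty]; exact NN.zero
  | insert i s hi ih =>
    rw [Finset.sum_insert hi]
    exact (h i (Finset.mem_insert_self _ _)).add (ih fun j hj => h j (Finset.mem_insert_of_mem hj))

theorem NN.w (h : D.NN J x ξ) {i j : Fin N} (hU : D.U x i j ≠ 0) :
    D.NN J x (W (D.κ i) (D.κ j) *ᵥ ξ) := by
  have h1 := (h.mul (D.u i j)).smul (D.U x i j)⁻¹
  have h2 : (D.U x i j)⁻¹ • ((D.u i j).1 x *ᵥ ξ) = W (D.κ i) (D.κ j) *ᵥ ξ := by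
    rw [u_coe, w_apply, Matrix.smul_mulVec, smul_smul, inv_mul_cancel₀ hU, one_smul]
  rwa [h2] at h1

theorem NN.W (T : D.Tri) (hU : ∀ i, D.U x i i ≠ 0) (h : D.NN J x ξ) (κ : Gam) :
    D.NN J x (W κ κ *ᵥ ξ) := by
  have h1 : ∀ (ξ : I16 → ℂ), D.NN J x ξ → ∀ p : T2, D.NN J x (Heis.W (p, 0) (p, 0) *ᵥ ξ) := by
    intro ξ h p
    by_cases hp : p = 0
    · subst hp
      change D.NN J x (Heis.W 0 0 *ᵥ ξ)
      rwa [W_zero, Matrix.one_mulVec]
    · obtain ⟨i, hi⟩ := T.left p hp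
      have := h.w (hU i)
      rwa [hi] at this
  have h2 : ∀ (ξ : I16 → ℂ), D.NN J x ξ → ∀ q : T2, D.NN J x (Heis.W (0, q) (0, q) *ᵥ ξ) := by
    intro ξ h p
    by_cases hp : p = 0
    · subst hp
      change D.NN J x (Heis.W 0 0 *ᵥ ξ)
      rwa [W_zero, Matrix.one_mulVec]
    · obtain ⟨i, hi⟩ := T.right p hp
      have := h.w (hU i)
      rwa [hi] at this
  have h3 := h1 _ (h2 _ h κ.2) κ.1
  rw [Matrix.mulVec_mulVec, W_diag_mul] at h3
  have h4 : ((κ.1, 0) : Gam) + (0, κ.2) = κ := by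
    ext1
    · exact add_zero _
    · exact zero_add _
  rwa [h4] at h3

theorem NN.E (T : D.Tri) (hU : ∀ i, D.U x i i ≠ 0) (h : D.NN J x ξ) (k : Gam) :
    D.NN J x (E k *ᵥ ξ) := by
  rw [Heis.E, Matrix.smul_mulVec, Matrix.sum_mulVec]
  refine (NN.sum _ _ fun κ _ => ?_).smul _
  rw [Matrix.smul_mulVec]
  exact (NN.W T hU h κ).smul _

theorem NN.delta (T : D.Tri) (hU : ∀ i, D.U x i i ≠ 0) (h : D.NN J x ξ) {i j : Fin N}
    (hij : D.U x i j ≠ 0) : D.NN J x (Heis.W (D.κ i + D.κ j) 0 *ᵥ ξ) := by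
  rw [W_decomp', Matrix.smul_mulVec, Matrix.smul_mulVec, ← Matrix.mulVec_mulVec]
  exact (((NN.W T hU h (D.κ j)).w hij).smul _).smul _

variable (D) in
/-- `H_δ` -/
noncomputable def Hm (x : X) (δ : Gam) : Matrix (Fin N) (Fin N) ℂ :=
  Matrix.of fun i j => if D.κ i + D.κ j = δ then sg (dot δ.2 (D.κ j).1) * D.U x i j else 0

variable (D) in
/-- `D_k` -/
noncomputable def Dg (k : Gam) : Matrix (Fin N) (Fin N) ℂ :=
  Matrix.diagonal fun j => sg (om k (D.κ j))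

theorem Dg_add (k l : Gam) : D.Dg (k + l) = D.Dg k * D.Dg l := by
  rw [Dg, Dg, Dg, Matrix.diagonal_mul_diagonal]
  congr 1
  funext i
  rw [om_add_left, sg_add]

theorem Dg_mul_self (k : Gam) : D.Dg k * D.Dg k = 1 := by
  rw [Dg, Matrix.diagonal_mul_diagonal, ← Matrix.diagonal_one]
  congr 1
  funext i
  rw [sg_mul_self]

theorem Dg_mul_Hm (x : X) (δ δ₀ : Gam) :
    D.Dg δ₀ * D.Hm x δ = sg (om δ₀ δ) • (D.Hm x δ * D.Dg δ₀) := by
  ext i j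
  rw [Dg, Matrix.diagonal_mul, Matrix.smul_apply, Matrix.mul_diagonal, Hm, Matrix.of_apply]
  by_cases h : D.κ i + D.κ j = δ
  · rw [if_pos h, smul_eq_mul]
    have h1 : sg (om δ₀ δ) = sg (om δ₀ (D.κ i)) * sg (om δ₀ (D.κ j)) := by
      rw [← h, om_add_right, sg_add]
    have h2 := sg_mul_self (om δ₀ (D.κ j))
    rw [h1]
    linear_combination (-(sg (om δ₀ (D.κ i)) * (sg (dot δ.2 (D.κ j).1) * D.U x i j))) * h2
  · rw [if_neg h, mul_zero, zero_mul, smul_zero]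

theorem spun_apply (Q : Matrix (Fin N) (Fin N) ℂ) (a b : Fin N) (x : X) :
    (D.cqg.spun Q a b : D.alg).1 x =
      ∑ j, ∑ i, (Q a i * D.U x i j * star (Q b j)) • W (D.κ i) (D.κ j) := by
  have h1 : (D.cqg.spun Q a b : D.alg) =
      ∑ j, (∑ i, algebraMap ℂ D.alg (Q a i) * D.u i j) * algebraMap ℂ D.alg (star (Q b j)) := by
    change (Q.map (algebraMap ℂ D.alg) * D.u * (star Q).map (algebraMap ℂ D.alg)) a b = _
    rw [Matrix.mul_apply]
    refine Finset.sum_congr rfl fun j _ => ?_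
    rw [Matrix.mul_apply]
    rfl
  change D.ev x (D.cqg.spun Q a b : D.alg) = _
  rw [h1, map_sum]
  refine Finset.sum_congr rfl fun j _ => ?_
  rw [_root_.map_mul, map_sum, Finset.sum_mul]
  refine Finset.sum_congr rfl fun i _ => ?_
  rw [_root_.map_mul, AlgHom.commutes, AlgHom.commutes, Algebra.algebraMap_eq_smul_one,
    Algebra.algebraMap_eq_smul_one, Matrix.smul_mul, Matrix.one_mul, Matrix.mul_smul,
    Matrix.mul_one]
  change star (Q b j) • Q a i • D.w i j x = _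
  rw [w_apply, smul_smul, smul_smul]
  congr 1
  ring

theorem NN.diag {Q : Matrix (Fin N) (Fin N) ℂ}
    (hJ : ∀ a b, a ≠ b → (D.cqg.spun Q a b : D.alg) ∈ J) (h : D.NN J x ξ) (hξ : ξ ≠ 0) {k : Gam}
    (hk : Heis.E k *ᵥ ξ = ξ) (δ : Gam) {a b : Fin N} (hab : a ≠ b) :
    (Q * (D.Hm x δ * D.Dg k) * Qᴴ) a b = 0 := by
  have h1 := h _ (hJ a b hab)
  rw [spun_apply, Matrix.sum_mulVec] at h1
  have h2 : ∀ i j, (Heis.E (k + δ)) *ᵥ (Heis.W (D.κ i) (D.κ j) *ᵥ ξ) =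
      (if D.κ i + D.κ j = δ then sg (dot δ.2 (D.κ j).1) * sg (om k (D.κ j)) else 0) •
        (Heis.W δ 0 *ᵥ ξ) := by
    intro i j
    have h3 : Heis.W (D.κ i) (D.κ j) *ᵥ ξ =
        (sg (dot (D.κ i + D.κ j).2 (D.κ j).1) * sg (om k (D.κ j))) •
          (Heis.W (D.κ i + D.κ j) 0 *ᵥ ξ) := by
      rw [W_decomp, Matrix.smul_mulVec, ← Matrix.mulVec_mulVec]
      have h4 : Heis.W (D.κ j) (D.κ j) *ᵥ ξ = sg (om k (D.κ j)) • ξ := by
        conv_lhs => rw [← hk]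
        rw [Matrix.mulVec_mulVec, W_mul_E, Matrix.smul_mulVec, hk]
      rw [h4, Matrix.mulVec_smul, smul_smul]
    rw [h3, Matrix.mulVec_smul]
    have h5 : Heis.E (k + δ) *ᵥ (Heis.W (D.κ i + D.κ j) 0 *ᵥ ξ) =
        if D.κ i + D.κ j = δ then Heis.W δ 0 *ᵥ ξ else 0 := by
      have h6 : Heis.W (D.κ i + D.κ j) 0 *ᵥ ξ =
          Heis.E (k + (D.κ i + D.κ j)) *ᵥ (Heis.W (D.κ i + D.κ j) 0 *ᵥ ξ) := by
        conv_lhs => rw [← hk]
        rw [Matrix.mulVec_mulVec, Matrix.mulVec_mulVec, W_E_comm]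
      rw [h6, Matrix.mulVec_mulVec, E_mul_E]
      by_cases h7 : D.κ i + D.κ j = δ
      · rw [if_pos (by rw [h7]), if_pos h7, ← h6, h7]
      · rw [if_neg (fun h8 => h7 (add_left_cancel h8).symm), if_neg h7, Matrix.zero_mulVec]
    rw [h5]
    by_cases h7 : D.κ i + D.κ j = δ
    · rw [if_pos h7, if_pos h7, h7]
    · rw [if_neg h7, if_neg h7, smul_zero, zero_smul]
  have h3 := congr_arg (fun v => Heis.E (k + δ) *ᵥ v) h1
  simp only [Matrix.mulVec_zero, Matrix.mulVec_sum, Matrix.sum_mulVec, Matrix.smul_mulVec,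
    Matrix.mulVec_smul, h2, smul_smul, ← Finset.sum_smul] at h3
  have h4 := (smul_eq_zero.1 h3).resolve_right (W_mulVec_ne hξ)
  rw [← h4, Matrix.mul_apply]
  refine Finset.sum_congr rfl fun j _ => ?_
  rw [Matrix.mul_apply, Finset.sum_mul]
  refine Finset.sum_congr rfl fun i _ => ?_
  rw [Dg, Matrix.mul_diagonal, Hm, Matrix.of_apply, Matrix.conjTranspose_apply]
  by_cases h7 : D.κ i + D.κ j = δ
  · rw [if_pos h7, if_pos h7]; ring
  · rw [if_neg h7, if_neg h7]; ring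

theorem om_eq_zero {Q : Matrix (Fin N) (Fin N) ℂ} (hQ : Qᴴ * Q = 1) (hQ' : Q * Qᴴ = 1)
    (hJ : ∀ a b, a ≠ b → (D.cqg.spun Q a b : D.alg) ∈ J) (T : D.Tri)
    (hU : ∀ i, D.U x i i ≠ 0) (h : D.NN J x ξ) (hξ : ξ ≠ 0) {k : Gam}
    (hk : Heis.E k *ᵥ ξ = ξ) {i j i' j' : Fin N} (hij : D.U x i j ≠ 0) (hij' : D.U x i' j' ≠ 0) :
    om (D.κ i + D.κ j) (D.κ i' + D.κ j') = 0 := by
  by_contra hcon
  have hom : om (D.κ i + D.κ j) (D.κ i' + D.κ j') = 1 :=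
    (zmod2_cases _).resolve_left hcon
  generalize hδ₀ : D.κ i + D.κ j = δ₀ at hom
  generalize hδ : D.κ i' + D.κ j' = δ at hom
  have h1 : D.NN J x (Heis.W δ₀ 0 *ᵥ ξ) := by
    rw [← hδ₀]; exact NN.delta T hU h hij
  have h2 : Heis.E (k + δ₀) *ᵥ (Heis.W δ₀ 0 *ᵥ ξ) = Heis.W δ₀ 0 *ᵥ ξ := by
    rw [Matrix.mulVec_mulVec, ← W_E_comm, ← Matrix.mulVec_mulVec, hk]
  have hM : ∀ a b, a ≠ b → (Q * (D.Hm x δ * D.Dg k) * Qᴴ) a b = 0 := fun a b hab =>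
    h.diag hJ hξ hk δ hab
  have hM' : ∀ a b, a ≠ b → (Q * (D.Hm x δ * D.Dg (k + δ₀)) * Qᴴ) a b = 0 := fun a b hab =>
    h1.diag hJ (W_mulVec_ne hξ) h2 δ hab
  have hdiag : ∀ M : Matrix (Fin N) (Fin N) ℂ, (∀ a b, a ≠ b → M a b = 0) →
      M = Matrix.diagonal fun i => M i i := by
    intro M hM
    ext a b
    rw [Matrix.diagonal_apply]
    by_cases hab : a = b
    · subst hab; rw [if_pos rfl]
    · rw [if_neg hab, hM a b hab]
  set K := D.Hm x δ * D.Dg k with hK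
  have hK' : D.Hm x δ * D.Dg (k + δ₀) = K * D.Dg δ₀ := by
    rw [Dg_add, hK, Matrix.mul_assoc]
  rw [hK'] at hM'
  have hanti : D.Dg δ₀ * K = -(K * D.Dg δ₀) := by
    rw [hK, ← Matrix.mul_assoc, Dg_mul_Hm, hom, sg_one, Matrix.smul_mul, Matrix.mul_assoc,
      ← Dg_add, add_comm, Dg_add, Matrix.mul_assoc, neg_one_smul]
  have hcomm : (Q * K * Qᴴ) * (Q * (K * D.Dg δ₀) * Qᴴ) = (Q * (K * D.Dg δ₀) * Qᴴ) * (Q * K * Qᴴ) := by
    rw [hdiag _ hM, hdiag _ hM', Matrix.diagonal_mul_diagonal, Matrix.diagonal_mul_diagonal]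
    congr 1
    funext a
    exact mul_comm _ _
  have e1 : (Q * K * Qᴴ) * (Q * (K * D.Dg δ₀) * Qᴴ) = Q * (K * K * D.Dg δ₀) * Qᴴ := by
    calc (Q * K * Qᴴ) * (Q * (K * D.Dg δ₀) * Qᴴ) = Q * K * (Qᴴ * Q) * (K * D.Dg δ₀) * Qᴴ := by
          simp only [Matrix.mul_assoc]
      _ = _ := by rw [hQ, Matrix.mul_one]; simp only [Matrix.mul_assoc]
  have e2 : (Q * (K * D.Dg δ₀) * Qᴴ) * (Q * K * Qᴴ) = -(Q * (K * K * D.Dg δ₀) * Qᴴ) := by
    calc (Q * (K * D.Dg δ₀) * Qᴴ) * (Q * K * Qᴴ) = Q * (K * D.Dg δ₀) * (Qᴴ * Q) * K * Qᴴ := by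
          simp only [Matrix.mul_assoc]
      _ = Q * (K * (D.Dg δ₀ * K)) * Qᴴ := by
          rw [hQ, Matrix.mul_one]; simp only [Matrix.mul_assoc]
      _ = _ := by
          rw [hanti]
          simp only [Matrix.mul_assoc, Matrix.mul_neg, Matrix.neg_mul]
  rw [e1, e2] at hcomm
  have hzero : Q * (K * K * D.Dg δ₀) * Qᴴ = 0 := by
    have h3 : (2 : ℂ) • (Q * (K * K * D.Dg δ₀) * Qᴴ) = 0 := by
      rw [two_smul]
      nth_rewrite 1 [hcomm]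
      exact neg_add_cancel _
    exact (smul_eq_zero.1 h3).resolve_left (by norm_num)
  have hKK : K * K = 0 := by
    have h3 : K * K * D.Dg δ₀ = 0 := by
      calc K * K * D.Dg δ₀ = (Qᴴ * Q) * (K * K * D.Dg δ₀) * (Qᴴ * Q) := by
            rw [hQ, Matrix.one_mul, Matrix.mul_one]
        _ = Qᴴ * (Q * (K * K * D.Dg δ₀) * Qᴴ) * Q := by simp only [Matrix.mul_assoc]
        _ = 0 := by rw [hzero, Matrix.mul_zero, Matrix.zero_mul]
    calc K * K = K * K * D.Dg δ₀ * D.Dg δ₀ := by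
          rw [Matrix.mul_assoc (K * K), Dg_mul_self, Matrix.mul_one]
      _ = 0 := by rw [h3, Matrix.zero_mul]
  have hMM : (Q * K * Qᴴ) * (Q * K * Qᴴ) = 0 := by
    calc (Q * K * Qᴴ) * (Q * K * Qᴴ) = Q * K * (Qᴴ * Q) * K * Qᴴ := by
          simp only [Matrix.mul_assoc]
      _ = Q * (K * K) * Qᴴ := by rw [hQ, Matrix.mul_one]; simp only [Matrix.mul_assoc]
      _ = 0 := by rw [hKK, Matrix.mul_zero, Matrix.zero_mul]
  have hM0 : Q * K * Qᴴ = 0 := by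
    ext a b
    by_cases hab : a = b
    · subst hab
      have h3 := congr_fun (congr_fun hMM a) a
      rw [hdiag _ hM, Matrix.diagonal_mul_diagonal, Matrix.diagonal_apply_eq] at h3
      exact mul_self_eq_zero.1 h3
    · exact hM a b hab
  have hK0 : K = 0 := by
    calc K = (Qᴴ * Q) * K * (Qᴴ * Q) := by rw [hQ, Matrix.one_mul, Matrix.mul_one]
      _ = Qᴴ * (Q * K * Qᴴ) * Q := by simp only [Matrix.mul_assoc]
      _ = 0 := by rw [hM0, Matrix.mul_zero, Matrix.zero_mul]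
  have hH0 : D.Hm x δ = 0 := by
    calc D.Hm x δ = D.Hm x δ * D.Dg k * D.Dg k := by
          rw [Matrix.mul_assoc, Dg_mul_self, Matrix.mul_one]
      _ = 0 := by rw [← hK, hK0, Matrix.zero_mul]
  have h3 := congr_fun (congr_fun hH0 i') j'
  rw [Hm, Matrix.of_apply, if_pos hδ, Matrix.zero_apply] at h3
  exact (mul_ne_zero (sg_ne_zero _) hij') h3

/-- The central element is killed by every spun torus. -/
theorem Tri.mem_torusKernel (T : D.Tri) (P : D.alg) (F : C(X, ℂ))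
    (hP : (P : C(X, M16)) = D.lam F)
    (hF : ∀ x, F x ≠ 0 → ∀ p, 1 < (∑ i with T.blk i = p, D.U x i i).re ∧
      (∑ i with T.blk i = p, D.U x i i).re < 3)
    {Q : Matrix (Fin N) (Fin N) ℂ} (hQ : Qᴴ * Q = 1) (hQ' : Q * Qᴴ = 1) :
    P ∈ D.cqg.torusKernel Q := by
  let J : TwoSidedIdeal D.alg := TwoSidedIdeal.span {a | ∃ i j, i ≠ j ∧ a = D.cqg.spun Q i j}
  have hJ : ∀ a b, a ≠ b → (D.cqg.spun Q a b : D.alg) ∈ J := fun a b hab =>
    TwoSidedIdeal.subset_span ⟨a, b, hab, rfl⟩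
  change P ∈ closure (J : Set D.alg)
  refine D.local_global J P fun x => D.fibre J P x fun ξ hξ => ?_
  by_contra hne
  have h1 : P.1 x *ᵥ ξ = ∑ k, F (D.k k * x) • (Heis.E k *ᵥ ξ) := by
    rw [hP, lam_apply, Matrix.sum_mulVec]
    exact Finset.sum_congr rfl fun k _ => Matrix.smul_mulVec _ _ _
  rw [h1] at hne
  obtain ⟨k, -, hk⟩ := Finset.exists_ne_zero_of_sum_ne_zero hne
  have hFk : F (D.k k * x) ≠ 0 := fun h => hk (by rw [h, zero_smul])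
  have hEk : Heis.E k *ᵥ ξ ≠ 0 := fun h => hk (by rw [h, smul_zero])
  have hsmall := fun p => T.small (D.k k * x) p (hF _ hFk p).1 (hF _ hFk p).2
  have hU : ∀ i, D.U x i i ≠ 0 := by
    intro i h
    have := (hsmall (T.blk i)).1 i rfl
    rw [U_k_mul, h, mul_zero] at this
    exact this rfl
  have hoff : ∀ p, ∃ i j, T.blk i = p ∧ T.blk j = p ∧ i ≠ j ∧ D.U x i j ≠ 0 := by
    intro p
    obtain ⟨i, j, hi, hj, hij, h⟩ := (hsmall p).2
    refine ⟨i, j, hi, hj, hij, fun h0 => h ?_⟩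
    rw [U_k_mul, h0, mul_zero]
  have hNN : D.NN J x (Heis.E k *ᵥ ξ) := NN.E T hU hξ k
  have hEE : Heis.E k *ᵥ (Heis.E k *ᵥ ξ) = Heis.E k *ᵥ ξ := by
    rw [Matrix.mulVec_mulVec, E_mul_E, if_pos rfl]
  obtain ⟨i₀, j₀, hi₀, hj₀, hij₀, hU₀⟩ := hoff 0
  obtain ⟨i₁, j₁, hi₁, hj₁, hij₁, hU₁⟩ := hoff 1
  obtain ⟨i₂, j₂, hi₂, hj₂, hij₂, hU₂⟩ := hoff 2
  exact T.deg i₀ j₀ i₁ j₁ i₂ j₂ hi₀ hj₀ hij₀ hi₁ hj₁ hij₁ hi₂ hj₂ hij₂
    (om_eq_zero hQ hQ' hJ T hU hNN hEk hEE hU₀ hU₁)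
    (om_eq_zero hQ hQ' hJ T hU hNN hEk hEE hU₀ hU₂)
    (om_eq_zero hQ hQ' hJ T hU hNN hEk hEE hU₁ hU₂)

variable (D) in
/-- The abstract counterexample. -/
theorem Tri.counterexample (T : D.Tri) [PreconnectedSpace X] :
    D.cqg.IsConnected ∧ ∃ P ∈ D.cqg.central, P ≠ 0 ∧
      ∀ Q ∈ Matrix.unitaryGroup (Fin N) ℂ, P ∈ D.cqg.torusKernel Q := by
  refine ⟨D.isConnected, ?_⟩
  obtain ⟨P, hP, hP0, F, hPF, hF⟩ := T.exists_central
  refine ⟨P, hP, hP0, fun Q hQ => ?_⟩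
  exact T.mem_torusKernel P F hPF hF (Matrix.mem_unitaryGroup_iff'.1 hQ)
    (Matrix.mem_unitaryGroup_iff.1 hQ)

end Data

end Pool.Agent.CQG
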