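import Mathlib
import Pool.Agent.helper50.TwistCore

/-!
The concrete data: `SO(3)^3` with the Heisenberg cocycle of `F₂⁴`.
-/

set_option autoImplicit false

namespace Pool.Agent.CQG

open scoped Matrix.Norms.L2Operator Kronecker TensorProduct Quaternion
open Matrix Pool.Agent.Heis

/-- The unit quaternions. -/
abbrev S3 : Type := Metric.sphere (0 : ℍ[ℝ]) 1

/-- The (homogeneous) rotation matrix of a quaternion. -/
def rot (q : ℍ[ℝ]) : Matrix (Fin 3) (Fin 3) ℝ :=
  !![q.re ^ 2 + q.imI ^ 2 - q.imJ ^ 2 - q.imK ^ 2, 2 * (q.imI * q.imJ - q.re * q.imK),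
      2 * (q.imI * q.imK + q.re * q.imJ);
    2 * (q.imI * q.imJ + q.re * q.imK), q.re ^ 2 - q.imI ^ 2 + q.imJ ^ 2 - q.imK ^ 2,
      2 * (q.imJ * q.imK - q.re * q.imI);
    2 * (q.imI * q.imK - q.re * q.imJ), 2 * (q.imJ * q.imK + q.re * q.imI),
      q.re ^ 2 - q.imI ^ 2 - q.imJ ^ 2 + q.imK ^ 2]

theorem rot_mul (q r : ℍ[ℝ]) : rot (q * r) = rot q * rot r := by
  ext i j
  fin_cases i <;> fin_cases j <;>
    simp [rot, Matrix.mul_apply, Fin.sum_univ_three] <;> ring

theorem rot_one : rot 1 = 1 := by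
  ext i j
  fin_cases i <;> fin_cases j <;> simp [rot]

theorem rot_orth (q : ℍ[ℝ]) (h : q.re ^ 2 + q.imI ^ 2 + q.imJ ^ 2 + q.imK ^ 2 = 1) :
    rot q * (rot q)ᵀ = 1 := by
  have h2 : (q.re ^ 2 + q.imI ^ 2 + q.imJ ^ 2 + q.imK ^ 2) ^ 2 = 1 := by rw [h]; norm_num
  ext i j
  fin_cases i <;> fin_cases j <;>
    simp [rot, Matrix.mul_apply, Fin.sum_univ_three] <;>
    first
    | linear_combination h2
    | linear_combination 0 * h2

theorem continuous_rot : Continuous rot := by
  have h1 := Quaternion.continuous_re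
  have h2 := Quaternion.continuous_imI
  have h3 := Quaternion.continuous_imJ
  have h4 := Quaternion.continuous_imK
  refine continuous_matrix fun i j => ?_
  fin_cases i <;> fin_cases j <;> simp only [rot] <;> simp <;> fun_prop

theorem S3_norm (q : S3) : q.1.re ^ 2 + q.1.imI ^ 2 + q.1.imJ ^ 2 + q.1.imK ^ 2 = 1 := by
  have h : ‖q.1‖ = 1 := by simpa using q.2
  have h2 := Quaternion.normSq_eq_norm_mul_self q.1
  rw [h, Quaternion.normSq_def'] at h2
  linarith

theorem rot_trace (q : ℍ[ℝ]) (h : q.re ^ 2 + q.imI ^ 2 + q.imJ ^ 2 + q.imK ^ 2 = 1) :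
    (rot q).trace = 4 * q.re ^ 2 - 1 := by
  rw [Matrix.trace_fin_three]
  simp [rot]
  linear_combination -h

theorem rot_small (q : ℍ[ℝ]) (h : q.re ^ 2 + q.imI ^ 2 + q.imJ ^ 2 + q.imK ^ 2 = 1)
    (h1 : 1 < (rot q).trace) (h3 : (rot q).trace < 3) :
    (∀ i, rot q i i ≠ 0) ∧ ∃ i j, i ≠ j ∧ rot q i j ≠ 0 := by
  rw [rot_trace q h] at h1 h3
  have hb := sq_nonneg q.imI
  have hc := sq_nonneg q.imJ
  have hd := sq_nonneg q.imK
  refine ⟨?_, ?_⟩
  · intro i
    fin_cases i
    · simp [rot]
      intro h0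
      nlinarith
    · simp [rot]
      intro h0
      nlinarith
    · simp [rot]
      intro h0
      nlinarith
  · by_contra hcon
    push Not at hcon
    have e01 := hcon 0 1 (by decide)
    have e10 := hcon 1 0 (by decide)
    have e02 := hcon 0 2 (by decide)
    have e20 := hcon 2 0 (by decide)
    have e12 := hcon 1 2 (by decide)
    have e21 := hcon 2 1 (by decide)
    simp [rot] at e01 e10 e02 e20 e12 e21
    have ha : q.re ≠ 0 := by
      intro h0
      rw [h0] at h1
      norm_num at h1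
    have hK : q.imK = 0 := by
      have : q.re * q.imK = 0 := by linarith
      exact (mul_eq_zero.1 this).resolve_left ha
    have hJ : q.imJ = 0 := by
      have : q.re * q.imJ = 0 := by linarith
      exact (mul_eq_zero.1 this).resolve_left ha
    have hI : q.imI = 0 := by
      have : q.re * q.imI = 0 := by linarith
      exact (mul_eq_zero.1 this).resolve_left ha
    rw [hK, hJ, hI] at h
    nlinarith

/-! ### The group -/

/-- `SU(2)^3` -/
abbrev G3 : Type := Fin 3 → S3

/-- index bijection: (position, block) -/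
def e9 : Fin (3 * 3) ≃ Fin 3 × Fin 3 := finProdFinEquiv.symm

/-- the complexified rotation matrix -/
noncomputable def rotC (q : S3) : Matrix (Fin 3) (Fin 3) ℂ := (rot q.1).map Complex.ofReal

theorem rotC_apply (q : S3) (i j : Fin 3) : rotC q i j = ((rot q.1 i j : ℝ) : ℂ) := rfl

theorem rotC_mul (q r : S3) : rotC (q * r) = rotC q * rotC r := by
  have h : (q * r).1 = q.1 * r.1 := rfl
  rw [rotC, h, rot_mul]
  ext i j
  simp only [Matrix.map_apply, Matrix.mul_apply, rotC, Complex.ofReal_sum, Complex.ofReal_mul]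

theorem rotC_one : rotC 1 = 1 := by
  have h : ((1 : S3) : ℍ[ℝ]) = 1 := rfl
  rw [rotC, h, rot_one]
  ext i j
  rw [Matrix.map_apply, Matrix.one_apply, Matrix.one_apply]
  split_ifs <;> simp

theorem rotC_orth (q : S3) : rotC q * (rotC q)ᵀ = 1 := by
  have h := rot_orth q.1 (S3_norm q)
  ext i j
  have h2 := congr_fun (congr_fun h i) j
  rw [Matrix.mul_apply] at h2
  rw [Matrix.mul_apply]
  simp only [Matrix.transpose_apply, rotC_apply] at h2 ⊢
  rw [Matrix.one_apply] at h2 ⊢
  have h3 := congr_arg Complex.ofReal h2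
  rw [Complex.ofReal_sum] at h3
  simp only [Complex.ofReal_mul] at h3
  rw [h3]
  split_ifs <;> simp

theorem continuous_rotC : Continuous rotC := by
  have h : Continuous fun q : S3 => rot q.1 := continuous_rot.comp continuous_subtype_val
  exact h.matrix_map Complex.continuous_ofReal

/-- The representation of `SU(2)^3` by three blocks. -/
noncomputable def rho : G3 →* Matrix (Fin (3 * 3)) (Fin (3 * 3)) ℂ where
  toFun g := (Matrix.blockDiagonal fun p => rotC (g p)).submatrix e9 e9
  map_one' := by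
    have : (fun p : Fin 3 => rotC ((1 : G3) p)) = fun _ => 1 := by
      funext p
      exact rotC_one
    rw [this]
    have h2 : (Matrix.blockDiagonal fun _ : Fin 3 => (1 : Matrix (Fin 3) (Fin 3) ℂ)) = 1 :=
      Matrix.blockDiagonal_one
    rw [h2, Matrix.submatrix_one_equiv]
  map_mul' g h := by
    rw [Matrix.submatrix_mul_equiv, ← Matrix.blockDiagonal_mul]
    congr 2
    funext p
    exact rotC_mul (g p) (h p)

theorem rho_apply (g : G3) (i j : Fin (3 * 3)) :
    rho g i j = if (e9 i).2 = (e9 j).2 then rotC (g (e9 i).2) (e9 i).1 (e9 j).1 else 0 := rfl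

theorem rho_orth (g : G3) : rho g * (rho g)ᵀ = 1 := by
  have h : (rho g)ᵀ = (Matrix.blockDiagonal fun p => (rotC (g p))ᵀ).submatrix e9 e9 := by
    change ((Matrix.blockDiagonal fun p => rotC (g p)).submatrix e9 e9)ᵀ = _
    rw [Matrix.transpose_submatrix, Matrix.blockDiagonal_transpose]
  rw [h]
  change (Matrix.blockDiagonal fun p => rotC (g p)).submatrix e9 e9 * _ = _
  rw [Matrix.submatrix_mul_equiv, ← Matrix.blockDiagonal_mul]
  have h3 : (fun p : Fin 3 => rotC (g p) * (rotC (g p))ᵀ) = fun _ => 1 := by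
    funext p
    exact rotC_orth (g p)
  rw [h3]
  have h2 : (Matrix.blockDiagonal fun _ : Fin 3 => (1 : Matrix (Fin 3) (Fin 3) ℂ)) = 1 :=
    Matrix.blockDiagonal_one
  rw [h2, Matrix.submatrix_one_equiv]

theorem continuous_rho : Continuous rho := by
  have h : Continuous fun g : G3 => fun p => rotC (g p) :=
    continuous_pi fun p => continuous_rotC.comp (continuous_apply p)
  exact (h.matrix_blockDiagonal).matrix_submatrix _ _

/-- `SO(3)^3` -/
abbrev XG : Type := G3 ⧸ rho.ker

instance : PreconnectedSpace S3 := by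
  have : ConnectedSpace S3 := isConnected_iff_connectedSpace.1
    (isConnected_sphere (by rw [Quaternion.rank_eq_four]; norm_num) _ (by norm_num))
  infer_instance

instance : PreconnectedSpace XG := by
  constructor
  have h : Set.range (QuotientGroup.mk : G3 → XG) = Set.univ :=
    Set.range_eq_univ.2 (QuotientGroup.mk_surjective)
  rw [← h]
  exact isPreconnected_range QuotientGroup.continuous_mk

/-- The fundamental representation of `SO(3)^3`. -/
noncomputable def UX : XG →* Matrix (Fin (3 * 3)) (Fin (3 * 3)) ℂ :=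
  QuotientGroup.lift rho.ker rho le_rfl

theorem UX_mk (g : G3) : UX (QuotientGroup.mk g) = rho g := rfl

theorem UX_inj : Function.Injective UX := by
  intro x y h
  induction x using QuotientGroup.induction_on with
  | H g =>
    induction y using QuotientGroup.induction_on with
    | H k =>
      rw [UX_mk, UX_mk] at h
      apply QuotientGroup.eq.2
      rw [MonoidHom.mem_ker, map_mul, ← h, ← map_mul, inv_mul_cancel, map_one]

theorem continuous_UX : Continuous UX :=
  (QuotientGroup.isQuotientMap_mk rho.ker).continuous_iff.2 continuous_rho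

/-! ### The degrees -/

/-- the nonzero elements of `F₂²` -/
def base : Fin 3 → T2 := ![(1, 0), (0, 1), (1, 1)]

/-- a linear map on `F₂²` -/
def mm (p : T2) : T2 := (p.1, p.1 + p.2)

/-- the degrees -/
def kap (a : Fin 3 × Fin 3) : Gam :=
  if a.2 = 0 then (base a.1, 0) else if a.2 = 1 then (0, base a.1) else (base a.1, mm (base a.1))

theorem kap_two (p : Fin 3) : kap (2, p) = kap (0, p) + kap (1, p) := by
  revert p; decide

/-- the quaternion units -/
noncomputable def qt (a b : ZMod 2) : ℍ[ℝ] :=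
  if a = 0 then (if b = 0 then ⟨1, 0, 0, 0⟩ else ⟨0, 1, 0, 0⟩)
  else (if b = 0 then ⟨0, 0, 1, 0⟩ else ⟨0, 0, 0, 1⟩)

theorem mem_sphere_of {q : ℍ[ℝ]} (h : q.re ^ 2 + q.imI ^ 2 + q.imJ ^ 2 + q.imK ^ 2 = 1) :
    q ∈ Metric.sphere (0 : ℍ[ℝ]) 1 := by
  rw [mem_sphere_zero_iff_norm]
  have h2 := Quaternion.normSq_eq_norm_mul_self q
  rw [Quaternion.normSq_def', h] at h2
  have h3 := norm_nonneg q
  nlinarith

theorem qt_mem (a b : ZMod 2) : qt a b ∈ Metric.sphere (0 : ℍ[ℝ]) 1 := by
  apply mem_sphere_of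
  unfold qt
  split_ifs <;> simp

theorem rot_qt (a b : ZMod 2) : rotC ⟨qt a b, qt_mem a b⟩ =
    Matrix.diagonal fun i => sg (![a, b, a + b] i) := by
  have h11 : (1 : ZMod 2) + 1 = 0 := by decide
  rcases zmod2_cases a with rfl | rfl <;> rcases zmod2_cases b with rfl | rfl <;>
    ext i j <;> fin_cases i <;> fin_cases j <;>
    simp [rotC_apply, rot, qt, sg_zero, sg_one, h11]

/-- The embedding of the dual group. -/
noncomputable def kX (η : Gam) : XG :=
  QuotientGroup.mk fun p => ⟨qt (om η (kap (0, p))) (om η (kap (1, p))), qt_mem _ _⟩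

theorem UX_kX (η : Gam) : UX (kX η) = Matrix.diagonal fun i => sg (om η (kap (e9 i))) := by
  rw [kX, UX_mk]
  ext i j
  rw [rho_apply, rot_qt, Matrix.diagonal_apply, Matrix.diagonal_apply]
  have h1 : ∀ a : Fin 3 × Fin 3, ![om η (kap (0, a.2)), om η (kap (1, a.2)),
      om η (kap (0, a.2)) + om η (kap (1, a.2))] a.1 = om η (kap a) := by
    rintro ⟨a, p⟩
    fin_cases a
    · rfl
    · rfl
    · change om η (kap (0, p)) + om η (kap (1, p)) = om η (kap (2, p))
      rw [kap_two, om_add_right]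
  by_cases h : i = j
  · subst h
    rw [if_pos rfl, if_pos rfl, if_pos rfl, h1]
  · rw [if_neg h]
    by_cases h2 : (e9 i).2 = (e9 j).2
    · rw [if_pos h2, if_neg]
      intro h3
      exact h (e9.injective (Prod.ext h3 h2))
    · rw [if_neg h2]

/-- The data of the counterexample. -/
noncomputable def theData : Data XG (3 * 3) where
  U := UX
  cont := continuous_UX
  map_mul := map_mul UX
  real := by
    intro x i j
    induction x using QuotientGroup.induction_on with
    | H g =>
      rw [UX_mk, rho_apply]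
      split_ifs
      · rw [rotC_apply]
        exact Complex.conj_ofReal _
      · exact star_zero _
  orth := by
    intro x
    induction x using QuotientGroup.induction_on with
    | H g => exact rho_orth g
  inj := UX_inj
  κ := fun i => kap (e9 i)
  k := kX
  U_k := UX_kX

theorem trace_block (g : G3) (p : Fin 3) :
    ∑ i with (e9 i).2 = p, UX (QuotientGroup.mk g) i i = (((rot (g p).1).trace : ℝ) : ℂ) := by
  rw [UX_mk, Finset.sum_filter]
  have h1 : ∀ i, (if (e9 i).2 = p then rho g i i else 0) =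
      (fun a : Fin 3 × Fin 3 => if a.2 = p then rotC (g a.2) a.1 a.1 else 0) (e9 i) := by
    intro i
    rw [rho_apply, if_pos rfl]
  simp only [h1]
  rw [Equiv.sum_comp e9 (fun a : Fin 3 × Fin 3 => if a.2 = p then rotC (g a.2) a.1 a.1 else 0),
    Fintype.sum_prod_type]
  simp only [Finset.sum_ite_eq', Finset.mem_univ, if_true]
  rw [Matrix.trace, Complex.ofReal_sum]
  rfl

theorem deg_aux : ∀ a b c d e f : Fin 3, a ≠ b → c ≠ d → e ≠ f →
    om (kap (a, 0) + kap (b, 0)) (kap (c, 1) + kap (d, 1)) = 0 →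
    om (kap (a, 0) + kap (b, 0)) (kap (e, 2) + kap (f, 2)) = 0 →
    om (kap (c, 1) + kap (d, 1)) (kap (e, 2) + kap (f, 2)) = 0 → False := by
  decide

/-- The three blocks of the counterexample. -/
noncomputable def theTri : theData.Tri where
  blk := fun i => (e9 i).2
  off := by
    intro x i j h
    induction x using QuotientGroup.induction_on with
    | H g =>
      change rho g i j = 0
      rw [rho_apply, if_neg h]
  small := by
    intro x p h1 h3
    induction x using QuotientGroup.induction_on with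
    | H g =>
      change 1 < (∑ i with (e9 i).2 = p, UX (QuotientGroup.mk g) i i).re at h1
      change (∑ i with (e9 i).2 = p, UX (QuotientGroup.mk g) i i).re < 3 at h3
      rw [trace_block, Complex.ofReal_re] at h1 h3
      obtain ⟨h4, i, j, hij, h5⟩ := rot_small (g p).1 (S3_norm (g p)) h1 h3
      refine ⟨?_, e9.symm (i, p), e9.symm (j, p), ?_, ?_, ?_, ?_⟩
      · intro i hi
        change rho g i i ≠ 0
        rw [rho_apply, if_pos rfl, hi, rotC_apply]
        exact_mod_cast h4 _
      · rw [Equiv.apply_symm_apply]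
      · rw [Equiv.apply_symm_apply]
      · intro h6
        exact hij (Prod.ext_iff.1 (e9.symm.injective h6)).1
      · change rho g _ _ ≠ 0
        rw [rho_apply, Equiv.apply_symm_apply, Equiv.apply_symm_apply, if_pos rfl, rotC_apply]
        exact_mod_cast h5
  left := by
    intro p hp
    have h : ∀ p : T2, p ≠ 0 → ∃ a : Fin 3, kap (a, 0) = (p, 0) := by decide
    obtain ⟨a, ha⟩ := h p hp
    refine ⟨e9.symm (a, 0), ?_⟩
    change kap (e9 (e9.symm (a, 0))) = _
    rw [Equiv.apply_symm_apply, ha]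
  right := by
    intro p hp
    have h : ∀ p : T2, p ≠ 0 → ∃ a : Fin 3, kap (a, 1) = (0, p) := by decide
    obtain ⟨a, ha⟩ := h p hp
    refine ⟨e9.symm (a, 1), ?_⟩
    change kap (e9 (e9.symm (a, 1))) = _
    rw [Equiv.apply_symm_apply, ha]
  deg := by
    intro i₀ j₀ i₁ j₁ i₂ j₂ hi₀ hj₀ h₀ hi₁ hj₁ h₁ hi₂ hj₂ h₂ o1 o2 o3
    have key : ∀ i j : Fin (3 * 3), (e9 i).2 = (e9 j).2 → i ≠ j → (e9 i).1 ≠ (e9 j).1 :=
      fun i j h h' h'' => h' (e9.injective (Prod.ext h'' h))
    have ex : ∀ (i : Fin (3 * 3)) (p : Fin 3), (e9 i).2 = p → theData.κ i = kap ((e9 i).1, p) := by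
      intro i p h
      change kap (e9 i) = _
      rw [← h]
    rw [ex i₀ 0 hi₀, ex j₀ 0 hj₀, ex i₁ 1 hi₁, ex j₁ 1 hj₁] at o1
    rw [ex i₀ 0 hi₀, ex j₀ 0 hj₀, ex i₂ 2 hi₂, ex j₂ 2 hj₂] at o2
    rw [ex i₁ 1 hi₁, ex j₁ 1 hj₁, ex i₂ 2 hi₂, ex j₂ 2 hj₂] at o3
    exact deg_aux _ _ _ _ _ _ (key i₀ j₀ (hi₀.trans hj₀.symm) h₀)
      (key i₁ j₁ (hi₁.trans hj₁.symm) h₁) (key i₂ j₂ (hi₂.trans hj₂.symm) h₂) o1 o2 o3
  ex := by
    have hq : (⟨4 / 5, 3 / 5, 0, 0⟩ : ℍ[ℝ]) ∈ Metric.sphere (0 : ℍ[ℝ]) 1 :=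
      mem_sphere_of (by norm_num)
    refine ⟨QuotientGroup.mk fun _ => ⟨⟨4 / 5, 3 / 5, 0, 0⟩, hq⟩, fun p => ?_⟩
    change 1 < (∑ i with (e9 i).2 = p, UX (QuotientGroup.mk _) i i).re ∧
      (∑ i with (e9 i).2 = p, UX (QuotientGroup.mk _) i i).re < 3
    rw [trace_block, Complex.ofReal_re, rot_trace _ (by norm_num)]
    norm_num

/-- The character conjecture fails. -/
theorem character_conjecture_false : ∃ (N : ℕ) (G : CMQG N), G.IsConnected ∧
    ∃ P ∈ G.central, P ≠ 0 ∧ ∀ Q ∈ Matrix.unitaryGroup (Fin N) ℂ, P ∈ G.torusKernel Q :=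
  ⟨_, theData.cqg, theTri.counterexample⟩

end Pool.Agent.CQG
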