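import Pool.Agent.helper50.RelFreeAlg

/-!
The two identities, the model algebra, and the surjective non-injective endomorphism.
-/

set_option autoImplicit false

namespace Pool.Agent.RelFreeAlg

universe u

open FreeNonUnitalNonAssocAlgebra

section Universal

variable {F : Type u} [Field F] {S : Set (FreeNonUnitalNonAssocAlgebra F ℕ)} {n : ℕ}

/-- the generators of the relatively free algebra -/
noncomputable def gen (S : Set (FreeNonUnitalNonAssocAlgebra F ℕ)) (n : ℕ) (i : Fin n) :
    RelFree F S n := (TIdeal F S n).proj (of F i)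

theorem satisfies_relFree : Satisfies F (RelFree F S n) S := by
  intro f hf v
  choose w hw using fun i => (TIdeal F S n).proj_surjective (v i)
  have h1 : lift F v = ((TIdeal F S n).proj).comp (lift F w) := by
    apply FreeNonUnitalNonAssocAlgebra.hom_ext
    intro x
    simp [hw]
  rw [h1, NonUnitalAlgHom.comp_apply, AlgIdeal.proj_eq_zero_iff]
  intro A _ _ _ _ hA u
  have h2 : (lift F u).comp (lift F w) = lift F (fun i => lift F u (w i)) := by
    apply FreeNonUnitalNonAssocAlgebra.hom_ext
    intro x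
    simp
  have h3 := hA f hf (fun i => lift F u (w i))
  rw [← h2] at h3
  exact h3

variable {A : Type u} [NonUnitalNonAssocRing A] [Module F A] [IsScalarTower F A A]
    [SMulCommClass F A A]

/-- the universal property of the relatively free algebra -/
noncomputable def liftHom (hA : Satisfies F A S) (v : Fin n → A) : RelFree F S n →ₙₐ[F] A where
  toFun := (TIdeal F S n).toSubmodule.liftQ ((lift F v : FreeNonUnitalNonAssocAlgebra F (Fin n) →ₙₐ[F] A) : FreeNonUnitalNonAssocAlgebra F (Fin n) →ₗ[F] A)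
    (by
      intro x hx
      rw [LinearMap.mem_ker]
      exact hx A hA v)
  map_smul' := fun r x => map_smul ((TIdeal F S n).toSubmodule.liftQ _ _) r x
  map_zero' := map_zero ((TIdeal F S n).toSubmodule.liftQ _ _)
  map_add' := fun x y => map_add ((TIdeal F S n).toSubmodule.liftQ _ _) x y
  map_mul' := by
    intro x y
    obtain ⟨x, rfl⟩ := (TIdeal F S n).proj_surjective x
    obtain ⟨y, rfl⟩ := (TIdeal F S n).proj_surjective y
    exact map_mul (lift F v) x y

theorem liftHom_proj (hA : Satisfies F A S) (v : Fin n → A)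
    (x : FreeNonUnitalNonAssocAlgebra F (Fin n)) :
    liftHom hA v ((TIdeal F S n).proj x) = lift F v x := rfl

theorem liftHom_gen (hA : Satisfies F A S) (v : Fin n → A) (i : Fin n) :
    liftHom hA v (gen S n i) = v i := by
  rw [gen, liftHom_proj]
  simp

theorem relFree_hom_ext {φ ψ : RelFree F S n →ₙₐ[F] A} (h : ∀ i, φ (gen S n i) = ψ (gen S n i)) :
    ∀ x, φ x = ψ x := by
  intro x
  obtain ⟨x, rfl⟩ := (TIdeal F S n).proj_surjective x
  have : φ.comp (TIdeal F S n).proj = ψ.comp (TIdeal F S n).proj := by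
    apply FreeNonUnitalNonAssocAlgebra.hom_ext
    intro i
    exact h i
  exact DFunLike.congr_fun this x

end Universal

section Operators

variable (F : Type u) [Field F] {A : Type u} [NonUnitalNonAssocRing A] [Module F A]
    [IsScalarTower F A A] [SMulCommClass F A A]

/-- left multiplication by `x` -/
def Lop (x : A) : Module.End F A := LinearMap.mulLeft F x

/-- the operator `u ↦ x u + u x` -/
def Eop (x : A) : Module.End F A := LinearMap.mulLeft F x + LinearMap.mulRight F x

theorem Lop_apply (x u : A) : Lop F x u = x * u := rfl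

theorem Eop_apply (x u : A) : Eop F x u = x * u + u * x := rfl

variable {F}

theorem map_Lop_pow {B : Type u} [NonUnitalNonAssocRing B] [Module F B]
    [IsScalarTower F B B] [SMulCommClass F B B] (g : A →ₙₐ[F] B) (x : A) (m : ℕ) (u : A) :
    g ((Lop F x ^ m) u) = (Lop F (g x) ^ m) (g u) := by
  induction m with
  | zero => rfl
  | succ m ih => rw [pow_succ', pow_succ', Module.End.mul_apply, Module.End.mul_apply, ← ih,
      Lop_apply, Lop_apply, map_mul]

theorem map_Eop_pow {B : Type u} [NonUnitalNonAssocRing B] [Module F B]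
    [IsScalarTower F B B] [SMulCommClass F B B] (g : A →ₙₐ[F] B) (x : A) (m : ℕ) (u : A) :
    g ((Eop F x ^ m) u) = (Eop F (g x) ^ m) (g u) := by
  induction m with
  | zero => rfl
  | succ m ih => rw [pow_succ', pow_succ', Module.End.mul_apply, Module.End.mul_apply, ← ih,
      Eop_apply, Eop_apply, map_add, map_mul, map_mul]

end Operators

section Identities

variable (F : Type u) [Field F]

/-- `(x₀ x₁)(x₂ x₃)` -/
noncomputable def id1 : FreeNonUnitalNonAssocAlgebra F ℕ :=
  (of F 0 * of F 1) * (of F 2 * of F 3)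

/-- `E^m(x₁x₂) + L^m(x₁x₂) + L^m(E^m(x₁x₂))` with `E(w) = x₀ w + w x₀` and `L(w) = x₀ w` -/
noncomputable def id2 (m : ℕ) : FreeNonUnitalNonAssocAlgebra F ℕ :=
  (Eop F (of F 0) ^ m) (of F 1 * of F 2) + (Lop F (of F 0) ^ m) (of F 1 * of F 2)
    + (Lop F (of F 0) ^ m) ((Eop F (of F 0) ^ m) (of F 1 * of F 2))

/-- the two identities -/
noncomputable def ids (m : ℕ) : Set (FreeNonUnitalNonAssocAlgebra F ℕ) := {id1 F, id2 F m}

theorem ids_finite (m : ℕ) : (ids F m).Finite := (Set.finite_singleton _).insert _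

variable {F} {A : Type u} [NonUnitalNonAssocRing A] [Module F A]
    [IsScalarTower F A A] [SMulCommClass F A A]

theorem satisfies_ids_iff (m : ℕ) : Satisfies F A (ids F m) ↔
    (∀ a b c d : A, (a * b) * (c * d) = 0) ∧
    (∀ x a b : A, (Eop F x ^ m) (a * b) + (Lop F x ^ m) (a * b)
      + (Lop F x ^ m) ((Eop F x ^ m) (a * b)) = 0) := by
  constructor
  · intro h
    constructor
    · intro a b c d
      have := h (id1 F) (by simp [ids]) (fun i => if i = 0 then a else if i = 1 then b else
        if i = 2 then c else d)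
      simpa [id1] using this
    · intro x a b
      have := h (id2 F m) (by simp [ids]) (fun i => if i = 0 then x else if i = 1 then a else b)
      simpa [id2, map_Lop_pow, map_Eop_pow] using this
  · rintro ⟨h1, h2⟩ f hf v
    simp only [ids, Set.mem_insert_iff, Set.mem_singleton_iff] at hf
    rcases hf with rfl | rfl
    · simpa [id1] using h1 _ _ _ _
    · simpa [id2, map_Lop_pow, map_Eop_pow] using h2 _ _ _

variable (F A) in
/-- the span of all products -/
def Sq : Submodule F A := Submodule.span F (Set.range fun p : A × A => p.1 * p.2)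

theorem mul_mem_Sq (a b : A) : a * b ∈ Sq F A := Submodule.subset_span ⟨(a, b), rfl⟩

theorem Sq_mul_Sq (h : ∀ a b c d : A, (a * b) * (c * d) = 0) {u v : A} (hu : u ∈ Sq F A)
    (hv : v ∈ Sq F A) : u * v = 0 := by
  induction hu using Submodule.span_induction with
  | mem u hu =>
    obtain ⟨p, rfl⟩ := hu
    induction hv using Submodule.span_induction with
    | mem v hv => obtain ⟨q, rfl⟩ := hv; exact h _ _ _ _
    | zero => exact mul_zero _
    | add x y _ _ hx hy => rw [mul_add, hx, hy, add_zero]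
    | smul r x _ hx => rw [mul_smul_comm, hx, smul_zero]
  | zero => exact zero_mul _
  | add x y _ _ hx hy => rw [add_mul, hx, hy, add_zero]
  | smul r x _ hx => rw [smul_mul_assoc, hx, smul_zero]

theorem Lop_pow_mem_Sq {u : A} (hu : u ∈ Sq F A) (x : A) (m : ℕ) : (Lop F x ^ m) u ∈ Sq F A := by
  cases m with
  | zero => simpa using hu
  | succ m => rw [pow_succ', Module.End.mul_apply, Lop_apply]; exact mul_mem_Sq _ _

theorem Eop_pow_mem_Sq {u : A} (hu : u ∈ Sq F A) (x : A) (m : ℕ) : (Eop F x ^ m) u ∈ Sq F A := by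
  cases m with
  | zero => simpa using hu
  | succ m =>
    rw [pow_succ', Module.End.mul_apply, Eop_apply]
    exact (Sq F A).add_mem (mul_mem_Sq _ _) (mul_mem_Sq _ _)

theorem id2_Sq {m : ℕ} (h : ∀ x a b : A, (Eop F x ^ m) (a * b) + (Lop F x ^ m) (a * b)
      + (Lop F x ^ m) ((Eop F x ^ m) (a * b)) = 0) {u : A} (hu : u ∈ Sq F A) (x : A) :
    (Eop F x ^ m) u + (Lop F x ^ m) u + (Lop F x ^ m) ((Eop F x ^ m) u) = 0 := by
  induction hu using Submodule.span_induction with
  | mem u hu => obtain ⟨p, rfl⟩ := hu; exact h _ _ _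
  | zero => simp
  | add a b _ _ ha hb =>
    have : (Eop F x ^ m) (a + b) + (Lop F x ^ m) (a + b) + (Lop F x ^ m) ((Eop F x ^ m) (a + b))
      = ((Eop F x ^ m) a + (Lop F x ^ m) a + (Lop F x ^ m) ((Eop F x ^ m) a))
      + ((Eop F x ^ m) b + (Lop F x ^ m) b + (Lop F x ^ m) ((Eop F x ^ m) b)) := by
      simp only [map_add]; abel
    rw [this, ha, hb, add_zero]
  | smul r a _ ha =>
    simp only [map_smul, ← smul_add, ha, smul_zero]

/-- `Sop u = u + E^m u` -/
def Sop (m : ℕ) (x : A) : Module.End F A := 1 + Eop F x ^ m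

/-- `Top u = u + L^m u` -/
def Top' (m : ℕ) (x : A) : Module.End F A := 1 + Lop F x ^ m

theorem Sop_apply (m : ℕ) (x u : A) : Sop (F := F) m x u = u + (Eop F x ^ m) u := rfl

theorem Top'_apply (m : ℕ) (x u : A) : Top' (F := F) m x u = u + (Lop F x ^ m) u := rfl

theorem Top'_Sop {m : ℕ} (h : ∀ x a b : A, (Eop F x ^ m) (a * b) + (Lop F x ^ m) (a * b)
      + (Lop F x ^ m) ((Eop F x ^ m) (a * b)) = 0) {u : A} (hu : u ∈ Sq F A) (x : A) :
    Top' (F := F) m x (Sop (F := F) m x u) = u := by
  rw [Top'_apply, Sop_apply, map_add]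
  have := id2_Sq h hu x
  calc u + (Eop F x ^ m) u + ((Lop F x ^ m) u + (Lop F x ^ m) ((Eop F x ^ m) u))
      = u + ((Eop F x ^ m) u + (Lop F x ^ m) u + (Lop F x ^ m) ((Eop F x ^ m) u)) := by abel
    _ = u := by rw [this, add_zero]

theorem Sop_mem_Sq {u : A} (hu : u ∈ Sq F A) (m : ℕ) (x : A) : Sop (F := F) m x u ∈ Sq F A := by
  rw [Sop_apply]; exact (Sq F A).add_mem hu (Eop_pow_mem_Sq hu x m)

theorem Top'_mem_Sq {u : A} (hu : u ∈ Sq F A) (m : ℕ) (x : A) : Top' (F := F) m x u ∈ Sq F A := by
  rw [Top'_apply]; exact (Sq F A).add_mem hu (Lop_pow_mem_Sq hu x m)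

theorem map_Sop {B : Type u} [NonUnitalNonAssocRing B] [Module F B]
    [IsScalarTower F B B] [SMulCommClass F B B] (g : A →ₙₐ[F] B) (m : ℕ) (x u : A) :
    g (Sop (F := F) m x u) = Sop (F := F) m (g x) (g u) := by
  rw [Sop_apply, Sop_apply, map_add, map_Eop_pow]

theorem map_Top' {B : Type u} [NonUnitalNonAssocRing B] [Module F B]
    [IsScalarTower F B B] [SMulCommClass F B B] (g : A →ₙₐ[F] B) (m : ℕ) (x u : A) :
    g (Top' (F := F) m x u) = Top' (F := F) m (g x) (g u) := by
  rw [Top'_apply, Top'_apply, map_add, map_Lop_pow]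

/-- if `w` lies in the square, then `x + w` and `x` act in the same way on the square -/
theorem Lop_pow_add (h : ∀ a b c d : A, (a * b) * (c * d) = 0) {w u : A} (hw : w ∈ Sq F A)
    (hu : u ∈ Sq F A) (x : A) (m : ℕ) : (Lop F (x + w) ^ m) u = (Lop F x ^ m) u := by
  induction m with
  | zero => rfl
  | succ m ih =>
    rw [pow_succ', pow_succ', Module.End.mul_apply, Module.End.mul_apply, ih, Lop_apply, Lop_apply,
      add_mul, Sq_mul_Sq h hw (Lop_pow_mem_Sq hu x m), add_zero]

theorem Eop_pow_add (h : ∀ a b c d : A, (a * b) * (c * d) = 0) {w u : A} (hw : w ∈ Sq F A)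
    (hu : u ∈ Sq F A) (x : A) (m : ℕ) : (Eop F (x + w) ^ m) u = (Eop F x ^ m) u := by
  induction m with
  | zero => rfl
  | succ m ih =>
    rw [pow_succ', pow_succ', Module.End.mul_apply, Module.End.mul_apply, ih, Eop_apply, Eop_apply,
      add_mul, mul_add, Sq_mul_Sq h hw (Eop_pow_mem_Sq hu x m),
      Sq_mul_Sq h (Eop_pow_mem_Sq hu x m) hw, add_zero, add_zero]

theorem Sop_add (h : ∀ a b c d : A, (a * b) * (c * d) = 0) {w u : A} (hw : w ∈ Sq F A)
    (hu : u ∈ Sq F A) (x : A) (m : ℕ) : Sop (F := F) m (x + w) u = Sop (F := F) m x u := by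
  rw [Sop_apply, Sop_apply, Eop_pow_add h hw hu]

theorem Top'_add (h : ∀ a b c d : A, (a * b) * (c * d) = 0) {w u : A} (hw : w ∈ Sq F A)
    (hu : u ∈ Sq F A) (x : A) (m : ℕ) : Top' (F := F) m (x + w) u = Top' (F := F) m x u := by
  rw [Top'_apply, Top'_apply, Lop_pow_add h hw hu]

end Identities

section Model

variable (F : Type u) [Field F]

/-- the space `W` -/
abbrev WSp : Type u := ℕ → ℕ → F

/-- forward shift minus identity -/
def Pop : Module.End F (ℕ → F) where
  toFun f j := (if j = 0 then 0 else f (j - 1)) - f j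
  map_add' f g := by
    ext j
    by_cases hj : j = 0
    · simp [hj]; ring
    · simp [hj]; ring
  map_smul' r f := by
    ext j
    by_cases hj : j = 0
    · simp [hj]
    · simp [hj]; ring

/-- backward shift minus identity -/
def Qop : Module.End F (ℕ → F) where
  toFun f j := f (j + 1) - f j
  map_add' f g := by
    ext j
    simp; ring
  map_smul' r f := by
    ext j
    simp; ring

variable {F}

/-- an `m`-th root of the operator `P`, acting on sequences -/
def rootOp (m : ℕ) (P : Module.End F (ℕ → F)) : Module.End F (WSp F) where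
  toFun f i := if i = 0 then P (f (m - 1)) else if i < m then f (i - 1) else 0
  map_add' f g := by
    ext i j
    by_cases hi : i = 0
    · simp [hi]
    · by_cases him : i < m <;> simp [hi, him]
  map_smul' r f := by
    ext i j
    by_cases hi : i = 0
    · simp [hi]
    · by_cases him : i < m <;> simp [hi, him]

theorem rootOp_apply (m : ℕ) (P : Module.End F (ℕ → F)) (f : WSp F) (i : ℕ) :
    rootOp m P f i = if i = 0 then P (f (m - 1)) else if i < m then f (i - 1) else 0 := rfl

theorem rootOp_pow_of_le (m : ℕ) (P : Module.End F (ℕ → F)) (f : WSp F) (k i : ℕ) (hk : k ≤ i)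
    (hi : i < m) : (rootOp m P ^ k) f i = f (i - k) := by
  induction k generalizing i with
  | zero => rfl
  | succ k ih =>
    rw [pow_succ', Module.End.mul_apply, rootOp_apply, if_neg (by omega), if_pos hi,
      ih (i - 1) (by omega) (by omega)]
    congr 1
    omega

theorem rootOp_pow (m : ℕ) (hm : 1 ≤ m) (P : Module.End F (ℕ → F)) (f : WSp F) (i : ℕ) :
    (rootOp m P ^ m) f i = if i < m then P (f i) else 0 := by
  by_cases hi : i < m
  · rw [if_pos hi]
    have h1 : m = i + (1 + (m - 1 - i)) := by omega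
    have h2 : (rootOp m P ^ m) = (rootOp m P ^ i) * ((rootOp m P ^ 1) * (rootOp m P ^ (m - 1 - i))) := by
      rw [← pow_add, ← pow_add, ← h1]
    rw [h2, Module.End.mul_apply, Module.End.mul_apply, rootOp_pow_of_le m P _ i i le_rfl hi,
      Nat.sub_self, pow_one, rootOp_apply, if_pos rfl, rootOp_pow_of_le m P _ _ _ (by omega) (by omega)]
    congr 2
    omega
  · rw [if_neg hi]
    obtain ⟨k, rfl⟩ : ∃ k, m = k + 1 := ⟨m - 1, by omega⟩
    rw [pow_succ', Module.End.mul_apply, rootOp_apply, if_neg (by omega), if_neg hi]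

theorem PQ_rel (f : ℕ → F) : Pop F f + Qop F f + Qop F (Pop F f) = 0 := by
  ext j
  simp only [Pop, Qop, LinearMap.coe_mk, AddHom.coe_mk, Pi.add_apply, Pi.zero_apply]
  simp
  ring

theorem root_rel (m : ℕ) (hm : 1 ≤ m) (w : WSp F) :
    (rootOp m (Pop F) ^ m) w + (rootOp m (Qop F) ^ m) w
      + (rootOp m (Qop F) ^ m) ((rootOp m (Pop F) ^ m) w) = 0 := by
  funext i
  rw [Pi.add_apply, Pi.add_apply, rootOp_pow m hm, rootOp_pow m hm, rootOp_pow m hm]
  by_cases hi : i < m
  · rw [if_pos hi, if_pos hi, if_pos hi, rootOp_pow m hm, if_pos hi]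
    exact PQ_rel _
  · rw [if_neg hi, if_neg hi, if_neg hi]
    simp

/-- the starting vector -/
def w0 : WSp F := fun i j => if i = 0 ∧ j = 0 then 1 else 0

theorem Q_w0 (m : ℕ) (hm : 1 ≤ m) : w0 (F := F) + (rootOp m (Qop F) ^ m) w0 = 0 := by
  funext i
  rw [Pi.add_apply, rootOp_pow m hm]
  by_cases hi : i < m
  · rw [if_pos hi]
    funext j
    simp [Qop, w0]
  · rw [if_neg hi]
    have : i ≠ 0 := by omega
    funext j
    simp [w0, this]

theorem w0_ne : (w0 : WSp F) ≠ 0 := by
  intro h
  have := congr_fun (congr_fun h 0) 0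
  simp [w0] at this

variable (F) in
/-- The model algebra `F ⊕ W`. -/
def Model (_m : ℕ) : Type u := F × WSp F

namespace Model

variable (m : ℕ)

instance : AddCommGroup (Model F m) := inferInstanceAs (AddCommGroup (F × WSp F))

instance : Module F (Model F m) := inferInstanceAs (Module F (F × WSp F))

/-- the element `(a, w)` -/
def pr (a : F) (w : WSp F) : Model F m := (a, w)

variable {m}

/-- first component -/
def c1 (x : Model F m) : F := Prod.fst x

/-- second component -/
def c2 (x : Model F m) : WSp F := Prod.snd x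

theorem ext' {x y : Model F m} (h1 : x.c1 = y.c1) (h2 : x.c2 = y.c2) : x = y := Prod.ext h1 h2

theorem c1_pr (a : F) (w : WSp F) : (pr m a w).c1 = a := rfl

theorem c2_pr (a : F) (w : WSp F) : (pr m a w).c2 = w := rfl

/-- the product `(a, u)(b, v) = (0, ab w₀ + a ℓ(v) + b (e - ℓ)(u))` -/
instance : Mul (Model F m) where
  mul x y := pr m 0 ((x.c1 * y.c1) • w0 + x.c1 • rootOp m (Qop F) y.c2
    + y.c1 • (rootOp m (Pop F) x.c2 - rootOp m (Qop F) x.c2))

theorem mul_def (x y : Model F m) : x * y = pr m 0 ((x.c1 * y.c1) • w0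
    + x.c1 • rootOp m (Qop F) y.c2
    + y.c1 • (rootOp m (Pop F) x.c2 - rootOp m (Qop F) x.c2)) := rfl

theorem fst_mul (x y : Model F m) : (x * y).c1 = 0 := rfl

theorem snd_mul (x y : Model F m) : (x * y).c2 = (x.c1 * y.c1) • w0 + x.c1 • rootOp m (Qop F) y.c2
    + y.c1 • (rootOp m (Pop F) x.c2 - rootOp m (Qop F) x.c2) := rfl

theorem fst_add (x y : Model F m) : (x + y).c1 = x.c1 + y.c1 := rfl

theorem snd_add (x y : Model F m) : (x + y).c2 = x.c2 + y.c2 := rfl

theorem fst_smul (r : F) (x : Model F m) : (r • x).c1 = r * x.c1 := rfl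

theorem snd_smul (r : F) (x : Model F m) : (r • x).c2 = r • x.c2 := rfl

theorem fst_zero : (0 : Model F m).c1 = 0 := rfl

theorem snd_zero : (0 : Model F m).c2 = 0 := rfl

instance : NonUnitalNonAssocRing (Model F m) where
  left_distrib x y z := by
    apply ext'
    · rw [fst_add, fst_mul, fst_mul, fst_mul, add_zero]
    · rw [snd_add, snd_mul, snd_mul, snd_mul, fst_add, snd_add, map_add]
      simp only [mul_add, add_smul, smul_add]
      abel
  right_distrib x y z := by
    apply ext'
    · rw [fst_add, fst_mul, fst_mul, fst_mul, add_zero]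
    · rw [snd_add, snd_mul, snd_mul, snd_mul, fst_add, snd_add, map_add, map_add]
      simp only [add_mul, add_smul, smul_add, smul_sub]
      abel
  zero_mul x := by
    apply ext'
    · rfl
    · rw [snd_mul, fst_zero, snd_zero, map_zero, map_zero]
      simp
  mul_zero x := by
    apply ext'
    · rfl
    · rw [snd_mul, fst_zero, snd_zero, map_zero]
      simp

instance : IsScalarTower F (Model F m) (Model F m) where
  smul_assoc r x y := by
    rw [smul_eq_mul, smul_eq_mul]
    apply ext'
    · rw [fst_mul, fst_smul, fst_mul, mul_zero]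
    · rw [snd_mul, snd_smul, snd_smul, snd_mul, fst_smul, map_smul, map_smul]
      simp only [smul_add, smul_sub, smul_smul, mul_assoc, mul_comm]

instance : SMulCommClass F (Model F m) (Model F m) where
  smul_comm r x y := by
    rw [smul_eq_mul, smul_eq_mul]
    apply ext'
    · rw [fst_mul, fst_smul, fst_mul, mul_zero]
    · rw [snd_mul, snd_smul, snd_mul, fst_smul, snd_smul, map_smul]
      simp only [smul_add, smul_sub, smul_smul, mul_comm, mul_left_comm]

theorem Lop_pow_apply (x : Model F m) (w : WSp F) (k : ℕ) :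
    (Lop F x ^ k) (pr m 0 w) = pr m 0 (x.c1 ^ k • (rootOp m (Qop F) ^ k) w) := by
  induction k with
  | zero => simp
  | succ k ih =>
    rw [pow_succ', Module.End.mul_apply, ih, Lop_apply]
    apply ext'
    · rfl
    · rw [snd_mul, c1_pr, c2_pr, c2_pr]
      simp only [mul_zero, zero_smul, zero_add, add_zero, map_smul, smul_smul]
      rw [pow_succ', pow_succ', Module.End.mul_apply]

theorem Eop_pow_apply (x : Model F m) (w : WSp F) (k : ℕ) :
    (Eop F x ^ k) (pr m 0 w) = pr m 0 (x.c1 ^ k • (rootOp m (Pop F) ^ k) w) := by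
  induction k with
  | zero => simp
  | succ k ih =>
    rw [pow_succ', Module.End.mul_apply, ih, Eop_apply]
    apply ext'
    · rw [fst_add, fst_mul, fst_mul, add_zero]
      rfl
    · rw [snd_add, snd_mul, snd_mul, c1_pr, c2_pr, c2_pr]
      simp only [mul_zero, zero_mul, zero_smul, zero_add, add_zero, map_smul, smul_smul, smul_sub]
      rw [pow_succ', pow_succ', Module.End.mul_apply]
      abel

end Model

theorem model_satisfies (m : ℕ) (hm1 : 1 ≤ m) (hF : ∀ a : F, a ≠ 0 → a ^ m = 1) :
    Satisfies F (Model F m) (ids F m) := by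
  rw [satisfies_ids_iff]
  constructor
  · intro a b c d
    apply Model.ext'
    · rfl
    · rw [Model.snd_mul, Model.fst_mul, Model.fst_mul]
      simp [Model.snd_zero]
  · intro x a b
    obtain ⟨w, hw⟩ : ∃ w : WSp F, a * b = Model.pr m 0 w := ⟨_, Model.mul_def a b⟩
    rw [hw, Model.Eop_pow_apply, Model.Lop_pow_apply, Model.Lop_pow_apply]
    by_cases hx : x.c1 = 0
    · rw [hx]
      apply Model.ext'
      · simp only [Model.fst_add, Model.fst_zero, Model.c1_pr, add_zero]
      · have : m ≠ 0 := by omega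
        simp [Model.snd_add, Model.snd_zero, this, Model.c2_pr]
    · rw [hF _ hx]
      apply Model.ext'
      · simp only [Model.fst_add, Model.fst_zero, Model.c1_pr, add_zero]
      · rw [Model.snd_add, Model.snd_add, Model.snd_zero]
        simp only [one_smul, Model.c2_pr]
        exact root_rel m hm1 w

end Model

section Main

variable {F : Type u} [Field F]

/-- the key element `a = u - S(T(u))`, `u = x²` -/
def keyElt {A : Type u} [NonUnitalNonAssocRing A] [Module F A]
    [IsScalarTower F A A] [SMulCommClass F A A] (m : ℕ) (x : A) : A :=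
  x * x - Sop (F := F) m x (Top' (F := F) m x (x * x))

theorem keyElt_model_ne (m : ℕ) (hm1 : 1 ≤ m) :
    keyElt (F := F) m (Model.pr m (1 : F) 0) ≠ 0 := by
  have h1 : Model.pr m (1 : F) 0 * Model.pr m (1 : F) 0 = Model.pr m 0 w0 := by
    apply Model.ext'
    · rfl
    · rw [Model.snd_mul, Model.c1_pr, Model.c2_pr, Model.c2_pr]; simp
  have h2 : Top' (F := F) m (Model.pr m (1 : F) 0) (Model.pr m 0 w0) = 0 := by
    rw [Top'_apply, Model.Lop_pow_apply]
    apply Model.ext'
    · rw [Model.fst_add, Model.fst_zero, Model.c1_pr, Model.c1_pr, add_zero]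
    · rw [Model.snd_add, Model.snd_zero, Model.c2_pr, Model.c2_pr, Model.c1_pr]
      simp only [one_pow, one_smul]
      exact Q_w0 m hm1
  rw [keyElt, h1, h2, map_zero, sub_zero]
  intro h
  exact w0_ne (congr_arg Model.c2 h)

theorem keyElt_gen_ne (m : ℕ) (hm1 : 1 ≤ m) (hF : ∀ a : F, a ≠ 0 → a ^ m = 1) (n : ℕ)
    (hn : 0 < n) :
    keyElt (F := F) m (gen (ids F m) n ⟨0, hn⟩) ≠ 0 := by
  intro h
  apply keyElt_model_ne (F := F) m hm1
  have h1 := congr_arg (liftHom (model_satisfies m hm1 hF) (fun _ : Fin n =>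
    (Model.pr m (1 : F) 0))) h
  rw [map_zero, keyElt, map_sub, map_mul, map_Sop, map_Top', map_mul, liftHom_gen] at h1
  exact h1

theorem map_mem_Sq {A B : Type u} [NonUnitalNonAssocRing A] [Module F A]
    [IsScalarTower F A A] [SMulCommClass F A A] [NonUnitalNonAssocRing B] [Module F B]
    [IsScalarTower F B B] [SMulCommClass F B B] (φ : A →ₙₐ[F] B) :
    ∀ u ∈ Sq F A, φ u ∈ Sq F B := by
  intro u hu
  induction hu using Submodule.span_induction with
  | mem u hu => obtain ⟨p, rfl⟩ := hu; simp only [map_mul]; exact mul_mem_Sq _ _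
  | zero => simp
  | add a b _ _ ha hb => rw [map_add]; exact (Sq F B).add_mem ha hb
  | smul r a _ ha => rw [map_smul]; exact (Sq F B).smul_mem _ ha

theorem not_hopfian_aux (k : ℕ) (n : ℕ) (hn : 0 < n)
    (hkey : keyElt (F := F) (k + 1) (gen (ids F (k + 1)) n ⟨0, hn⟩) ≠ 0) :
    ¬ IsHopfian F (RelFree F (ids F (k + 1)) n) := by
  have hsat := satisfies_relFree (F := F) (S := ids F (k + 1)) (n := n)
  obtain ⟨r1, r2⟩ := (satisfies_ids_iff (k + 1)).1 hsat
  set R := RelFree F (ids F (k + 1)) n with hR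
  set x : R := gen (ids F (k + 1)) n ⟨0, hn⟩ with hx
  have hxx : x * x ∈ Sq F R := mul_mem_Sq x x
  -- the endomorphism
  set w : R := (Eop F x ^ k) (x * x) with hw
  have hwSq : w ∈ Sq F R := Eop_pow_mem_Sq hxx x k
  set φ : R →ₙₐ[F] R := liftHom hsat (fun i => if i = ⟨0, hn⟩ then x + w
    else gen (ids F (k + 1)) n i) with hφ
  have hφx : φ x = x + w := by
    rw [hφ, hx, liftHom_gen]; simp
  have hφxx : φ (x * x) = Sop (F := F) (k + 1) x (x * x) := by
    rw [map_mul, hφx, Sop_apply, mul_add, add_mul, add_mul, Sq_mul_Sq r1 hwSq hwSq, add_zero,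
      pow_succ', Module.End.mul_apply, Eop_apply, ← hw]
    abel
  have hφS : ∀ u ∈ Sq F R, φ (Sop (F := F) (k + 1) x u) = Sop (F := F) (k + 1) x (φ u) := by
    intro u hu
    rw [map_Sop, hφx]
    exact Sop_add r1 hwSq (map_mem_Sq φ u hu) x (k + 1)
  have hφT : φ (Top' (F := F) (k + 1) x (x * x)) = x * x := by
    rw [map_Top', hφx, hφxx, Top'_add r1 hwSq (Sop_mem_Sq hxx (k + 1) x), Top'_Sop r2 hxx]
  -- surjectivity
  set t : R := Top' (F := F) (k + 1) x (x * x) with ht
  have htSq : t ∈ Sq F R := Top'_mem_Sq hxx (k + 1) x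
  have hφE : φ ((Eop F x ^ k) t) = w := by
    rw [map_Eop_pow, hφx, hφT, Eop_pow_add r1 hwSq hxx]
  set ψ : R →ₙₐ[F] R := liftHom hsat (fun i => if i = ⟨0, hn⟩ then x - (Eop F x ^ k) t
    else gen (ids F (k + 1)) n i) with hψ
  have hsurj : Function.Surjective φ := by
    intro y
    refine ⟨ψ y, ?_⟩
    have : ∀ y, (φ.comp ψ) y = (NonUnitalAlgHom.id F R) y := by
      apply relFree_hom_ext
      intro i
      rw [NonUnitalAlgHom.comp_apply, hψ, liftHom_gen]
      by_cases hi : i = ⟨0, hn⟩
      · rw [if_pos hi, map_sub, hφx, hφE, add_sub_cancel_right, hi]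
        rfl
      · rw [if_neg hi, hφ, liftHom_gen, if_neg hi]
        rfl
    exact this y
  intro hH
  have hinj := hH φ hsurj
  have hzero : φ (keyElt (F := F) (k + 1) x) = 0 := by
    rw [keyElt, map_sub, hφS _ (Top'_mem_Sq hxx (k + 1) x), hφT, hφxx, sub_self]
  exact hkey (hinj (by rw [map_zero]; exact hzero))

theorem not_residuallyFinite_aux (m : ℕ) (n : ℕ) (hn : 0 < n)
    (hkey : keyElt (F := F) m (gen (ids F m) n ⟨0, hn⟩) ≠ 0) :
    ¬ IsResiduallyFinite F (RelFree F (ids F m) n) := by
  intro hRF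
  obtain ⟨I, hI, hfin⟩ := hRF _ hkey
  apply hI
  have hsat := satisfies_relFree (F := F) (S := ids F m) (n := n)
  have hsatQ : Satisfies F I.Quot (ids F m) := by
    obtain ⟨r1, r2⟩ := (satisfies_ids_iff m).1 hsat
    rw [satisfies_ids_iff]
    constructor
    · intro a b c d
      obtain ⟨a, rfl⟩ := I.proj_surjective a
      obtain ⟨b, rfl⟩ := I.proj_surjective b
      obtain ⟨c, rfl⟩ := I.proj_surjective c
      obtain ⟨d, rfl⟩ := I.proj_surjective d
      rw [← map_mul, ← map_mul, ← map_mul, r1, map_zero]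
    · intro x a b
      obtain ⟨x, rfl⟩ := I.proj_surjective x
      obtain ⟨a, rfl⟩ := I.proj_surjective a
      obtain ⟨b, rfl⟩ := I.proj_surjective b
      rw [← map_mul, ← map_Eop_pow, ← map_Lop_pow, ← map_Lop_pow, ← map_add, ← map_add, r2,
        map_zero]
  obtain ⟨r1, r2⟩ := (satisfies_ids_iff m).1 hsatQ
  rw [← AlgIdeal.proj_eq_zero_iff]
  set x := I.proj (gen (ids F m) n ⟨0, hn⟩) with hx
  have key : ∀ u ∈ Sq F I.Quot, Sop (F := F) m x (Top' (F := F) m x u) = u := by
    let s : Sq F I.Quot → Sq F I.Quot := fun u => ⟨Sop (F := F) m x u, Sop_mem_Sq u.2 m x⟩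
    let t : Sq F I.Quot → Sq F I.Quot := fun u => ⟨Top' (F := F) m x u, Top'_mem_Sq u.2 m x⟩
    have hts : Function.LeftInverse t s := fun u => Subtype.ext (Top'_Sop r2 u.2 x)
    have : Finite (Sq F I.Quot) := Subtype.finite
    have hsurj : Function.Surjective s := Finite.surjective_of_injective hts.injective
    have hst : Function.RightInverse t s := hts.rightInverse_of_surjective hsurj
    intro u hu
    exact congr_arg Subtype.val (hst ⟨u, hu⟩)
  rw [keyElt, map_sub, map_Sop, map_Top', map_mul, ← hx, key _ (mul_mem_Sq _ _), sub_self]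

theorem pow_card_sub_one [Finite F] (a : F) (ha : a ≠ 0) : a ^ (Nat.card F - 1) = 1 := by
  have : Fintype F := Fintype.ofFinite F
  rw [Nat.card_eq_fintype_card]
  exact FiniteField.pow_card_sub_one_eq_one a ha

theorem not_hopfian [Finite F] (n : ℕ) (hn : 0 < n) :
    ¬ IsHopfian F (RelFree F (ids F (Nat.card F - 1)) n) := by
  have hcard : 1 < Nat.card F := Finite.one_lt_card
  obtain ⟨k, hk⟩ : ∃ k, Nat.card F - 1 = k + 1 := ⟨Nat.card F - 2, by omega⟩
  have hkey := keyElt_gen_ne (F := F) (Nat.card F - 1) (by omega) pow_card_sub_one n hn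
  rw [hk] at hkey ⊢
  exact not_hopfian_aux k n hn hkey

theorem not_residuallyFinite [Finite F] (n : ℕ) (hn : 0 < n) :
    ¬ IsResiduallyFinite F (RelFree F (ids F (Nat.card F - 1)) n) := by
  have hcard : 1 < Nat.card F := Finite.one_lt_card
  have hkey := keyElt_gen_ne (F := F) (Nat.card F - 1) (by omega) pow_card_sub_one n hn
  exact not_residuallyFinite_aux _ n hn hkey

end Main

end Pool.Agent.RelFreeAlg
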