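import Mathlib

/-!
Varieties of (nonassociative, nonunital) linear algebras over a field, their relatively free
algebras, residual finiteness and the Hopf property.
-/

set_option autoImplicit false

namespace Pool.Agent.RelFreeAlg

universe u

open FreeNonUnitalNonAssocAlgebra

section Ideals

variable (F : Type u) (A : Type u) [Field F] [NonUnitalNonAssocRing A] [Module F A]

/-- A two-sided ideal of an algebra `A` over `F`: a linear subspace closed under left and right
multiplication by arbitrary elements of `A`. -/
structure AlgIdeal extends Submodule F A where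
  mul_left_mem : ∀ (a : A) {x : A}, x ∈ carrier → a * x ∈ carrier
  mul_right_mem : ∀ (a : A) {x : A}, x ∈ carrier → x * a ∈ carrier

end Ideals

section Quotients

variable {F : Type u} {A : Type u} [Field F] [NonUnitalNonAssocRing A] [Module F A]

/-- The quotient of an algebra by a two-sided ideal. -/
def AlgIdeal.Quot (I : AlgIdeal F A) : Type u := A ⧸ I.toSubmodule

namespace AlgIdeal

variable (I : AlgIdeal F A)

instance : AddCommGroup I.Quot := inferInstanceAs (AddCommGroup (A ⧸ I.toSubmodule))

instance : Module F I.Quot := inferInstanceAs (Module F (A ⧸ I.toSubmodule))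

/-- The canonical projection, as a linear map. -/
def mkL : A →ₗ[F] I.Quot := I.toSubmodule.mkQ

theorem mkL_surjective : Function.Surjective I.mkL := Submodule.mkQ_surjective _

theorem mkL_eq_zero_iff {x : A} : I.mkL x = 0 ↔ x ∈ I.toSubmodule :=
  Submodule.Quotient.mk_eq_zero _

theorem mkL_eq_iff {x y : A} : I.mkL x = I.mkL y ↔ x - y ∈ I.toSubmodule :=
  Submodule.Quotient.eq _

instance : Mul I.Quot where
  mul := Quotient.map₂ (· * ·) (by
    intro a b hab c d hcd
    have h1 : a - b ∈ I.toSubmodule := (Submodule.quotientRel_def _).1 hab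
    have h2 : c - d ∈ I.toSubmodule := (Submodule.quotientRel_def _).1 hcd
    refine (Submodule.quotientRel_def _).2 ?_
    have : a * c - b * d = (a - b) * c + b * (c - d) := by
      rw [sub_mul, mul_sub]; abel
    rw [this]
    exact I.toSubmodule.add_mem (I.mul_right_mem _ h1) (I.mul_left_mem _ h2))

theorem mkL_mul (x y : A) : I.mkL (x * y) = I.mkL x * I.mkL y := rfl

instance : NonUnitalNonAssocRing I.Quot where
  left_distrib := by
    intro a b c
    obtain ⟨a, rfl⟩ := I.mkL_surjective a
    obtain ⟨b, rfl⟩ := I.mkL_surjective b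
    obtain ⟨c, rfl⟩ := I.mkL_surjective c
    rw [← map_add, ← mkL_mul, ← mkL_mul, ← mkL_mul, ← map_add, mul_add]
  right_distrib := by
    intro a b c
    obtain ⟨a, rfl⟩ := I.mkL_surjective a
    obtain ⟨b, rfl⟩ := I.mkL_surjective b
    obtain ⟨c, rfl⟩ := I.mkL_surjective c
    rw [← map_add, ← mkL_mul, ← mkL_mul, ← mkL_mul, ← map_add, add_mul]
  zero_mul := by
    intro a
    obtain ⟨a, rfl⟩ := I.mkL_surjective a
    rw [← map_zero I.mkL, ← mkL_mul, zero_mul]
  mul_zero := by
    intro a
    obtain ⟨a, rfl⟩ := I.mkL_surjective a
    rw [← map_zero I.mkL, ← mkL_mul, mul_zero]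

instance [IsScalarTower F A A] : IsScalarTower F I.Quot I.Quot where
  smul_assoc := by
    intro r a b
    obtain ⟨a, rfl⟩ := I.mkL_surjective a
    obtain ⟨b, rfl⟩ := I.mkL_surjective b
    rw [smul_eq_mul, smul_eq_mul, ← map_smul, ← mkL_mul, ← mkL_mul, ← map_smul, smul_mul_assoc]

instance [SMulCommClass F A A] : SMulCommClass F I.Quot I.Quot where
  smul_comm := by
    intro r a b
    obtain ⟨a, rfl⟩ := I.mkL_surjective a
    obtain ⟨b, rfl⟩ := I.mkL_surjective b
    rw [smul_eq_mul, smul_eq_mul, ← map_smul, ← mkL_mul, ← mkL_mul, ← map_smul, mul_smul_comm]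

/-- The canonical projection, as a homomorphism of algebras. -/
def proj : A →ₙₐ[F] I.Quot where
  toFun := I.mkL
  map_smul' := fun r x => map_smul I.mkL r x
  map_zero' := map_zero _
  map_add' := map_add _
  map_mul' := I.mkL_mul

theorem proj_surjective : Function.Surjective I.proj := I.mkL_surjective

theorem proj_eq_zero_iff {x : A} : I.proj x = 0 ↔ x ∈ I.toSubmodule := I.mkL_eq_zero_iff

end AlgIdeal

end Quotients

section Varieties

variable (F : Type u) [Field F]

/-- `A` satisfies all the polynomial identities in `S` (elements of the free nonassociative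
algebra on countably many variables): every substitution of elements of `A` for the variables
gives `0`. In other words `A` belongs to the variety defined by `S`. -/
def Satisfies (A : Type u) [NonUnitalNonAssocRing A] [Module F A] [IsScalarTower F A A]
    [SMulCommClass F A A] (S : Set (FreeNonUnitalNonAssocAlgebra F ℕ)) : Prop :=
  ∀ f ∈ S, ∀ v : ℕ → A, lift F v f = 0

/-- The ideal `T_n` of all elements of the free nonassociative algebra `F{x_1, ..., x_n}` that
vanish identically on every algebra of the variety defined by `S`. -/
def TIdeal (S : Set (FreeNonUnitalNonAssocAlgebra F ℕ)) (n : ℕ) :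
    AlgIdeal F (FreeNonUnitalNonAssocAlgebra F (Fin n)) where
  carrier := {p | ∀ (A : Type u) [NonUnitalNonAssocRing A] [Module F A] [IsScalarTower F A A]
    [SMulCommClass F A A], Satisfies F A S → ∀ v : Fin n → A, lift F v p = 0}
  add_mem' := by
    intro a b ha hb A _ _ _ _ hA v
    rw [map_add, ha A hA v, hb A hA v, add_zero]
  zero_mem' := by
    intro A _ _ _ _ hA v
    exact map_zero _
  smul_mem' := by
    intro c x hx A _ _ _ _ hA v
    rw [map_smul, hx A hA v, smul_zero]
  mul_left_mem := by
    intro a x hx A _ _ _ _ hA v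
    rw [map_mul, hx A hA v, mul_zero]
  mul_right_mem := by
    intro a x hx A _ _ _ _ hA v
    rw [map_mul, hx A hA v, zero_mul]

/-- The free algebra of rank `n` in the variety defined by `S`: the quotient
`F{x_1, ..., x_n} / T_n`. -/
abbrev RelFree (S : Set (FreeNonUnitalNonAssocAlgebra F ℕ)) (n : ℕ) : Type u :=
  (TIdeal F S n).Quot

/-- An algebra is residually finite if every nonzero element lies outside some two-sided ideal
with finite quotient. -/
def IsResiduallyFinite (A : Type u) [NonUnitalNonAssocRing A] [Module F A] : Prop :=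
  ∀ a : A, a ≠ 0 → ∃ I : AlgIdeal F A, a ∉ I.toSubmodule ∧ Finite I.Quot

/-- An algebra is Hopfian if every surjective algebra endomorphism is injective. -/
def IsHopfian (A : Type u) [NonUnitalNonAssocRing A] [Module F A] : Prop :=
  ∀ φ : A →ₙₐ[F] A, Function.Surjective φ → Function.Injective φ

end Varieties

end Pool.Agent.RelFreeAlg
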